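import Pool.Agent.QUN.Defs
import Pool.Agent.QUB.Bix

/-!
# QUN/Cnl: adding an element, series pairs

`cn_add`: let `A ⊆ gs q`, `A` and `gs q \ A` nonempty. If `w ∈ A` replace `A` by the complement (`lam_compl`), so `w ∉ A`. If `gs q \ A = {w}` then `lam_compl` and `h1`. Otherwise
`A` and `(gs q).erase w \ A` are nonempty, `1 ≤ lam r (rm s w q) A ≤ lam r q A` (`lam_rm_le`).
`ser_cn`: by `tutte` for `e` it is enough that `rm s e q` is not connected. `s = true`: `lam r (rm true e q) {f} = r (insert f q.1) - r q.1 + r ((q.2.erase e).erase f) - r (q.2.erase e) ≤ 1 + (r q.2 - 1) - r (q.2.erase e)`,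
and `r (q.2.erase e) = r q.2` because `1 ≤ lam r q {e}` (`Cn.single`, `hr.unit`). So it is at most `0`; `{f}` and its complement in `gs (rm true e q)` are nonempty. `s = false` in the same way.
`ser_rm`: `rm (!s) g` does not change the component which is used in `Ser .. s`.
-/

set_option autoImplicit false

open QUB

namespace Pool.Agent.QU

variable {E : Type} [DecidableEq E] {r : Finset E → ℤ} {p q : Itv E}

private theorem cnl_core (hr : Rk r) (hq : q.1 ⊆ q.2) {w : E} {s : Bool} (hw : w ∈ gs q) (hc : Cn r (QUB.rm s w q)) (h1 : 1 ≤ QUB.lam r q {w})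
    {A : Finset E} (hA : A ⊆ gs q) (hwA : w ∉ A) (hn : A.Nonempty) : 1 ≤ QUB.lam r q A := by
  have hA' : A ⊆ (gs q).erase w := fun y hy => Finset.mem_erase.2 ⟨fun h => hwA (h ▸ hy), hA hy⟩
  rcases Finset.eq_empty_or_nonempty ((gs q).erase w \ A) with h2 | h2
  · have e1 : gs q \ A = {w} := by
      ext y
      rw [Finset.mem_sdiff, Finset.mem_singleton]
      constructor
      · rintro ⟨h3, h4⟩
        by_contra h5
        have h6 : y ∈ (gs q).erase w \ A := Finset.mem_sdiff.2 ⟨Finset.mem_erase.2 ⟨h5, h3⟩, h4⟩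
        rw [h2] at h6
        exact Finset.notMem_empty _ h6
      · rintro rfl
        exact ⟨hw, hwA⟩
    have h3 := QUB.lam_compl r hq hA
    rw [e1] at h3
    rw [← h3]
    exact h1
  · have h3 := hc A (by rw [QUB.gs_rm]; exact hA') hn (by rw [QUB.gs_rm]; exact h2)
    exact h3.trans (QUB.lam_rm_le hr hw hA')

/-- an element which is neither a loop nor a coloop can be added to a connected matroid -/
theorem cn_add (hr : Rk r) (hq : q.1 ⊆ q.2) {w : E} {s : Bool} (hw : w ∈ gs q) (hc : Cn r (QUB.rm s w q)) (h1 : 1 ≤ QUB.lam r q {w}) : Cn r q := by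
  intro A hA hn hn'
  by_cases hwA : w ∈ A
  · have h2 := cnl_core hr hq hw hc h1 (A := gs q \ A) Finset.sdiff_subset (fun h => (Finset.mem_sdiff.1 h).2 hwA) hn'
    rw [QUB.lam_compl r hq hA] at h2
    exact h2
  · exact cnl_core hr hq hw hc h1 hA hwA hn

theorem ser_rm {s : Bool} {e f g : E} (h : Ser r q s e f) : Ser r (QUB.rm (!s) g q) s e f := by
  cases s
  · exact h
  · exact h

theorem ser_comm {s : Bool} {e f : E} (h : Ser r q s e f) : Ser r q s f e := by
  cases s
  · have h2 : r (insert e (insert f q.1)) ≤ r q.1 + 1 := h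
    rw [Finset.insert_comm] at h2
    exact h2
  · have h2 : r ((q.2.erase e).erase f) + 1 ≤ r q.2 := h
    rw [Finset.erase_right_comm] at h2
    exact h2

private theorem cnl_sing (hc : Cn r q) {e : E} (he : e ∈ gs q) (h : ((gs q).erase e).Nonempty) : 1 ≤ r (insert e q.1) + r (q.2.erase e) - r q.2 - r q.1 := by
  have h1 := hc {e} (Finset.singleton_subset_iff.2 he) (Finset.singleton_nonempty e) (by rw [Finset.sdiff_singleton_eq_erase]; exact h)
  unfold QUB.lam at h1
  rw [Finset.sdiff_singleton_eq_erase, Finset.union_comm, ← Finset.insert_eq] at h1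
  exact h1

/-- an element of a series (parallel) pair can be contracted (deleted) -/
theorem ser_cn (hr : Rk r) (hq : q.1 ⊆ q.2) {s : Bool} {e f : E} (he : e ∈ gs q) (hf : f ∈ gs q) (hef : e ≠ f) (h3 : 3 ≤ (gs q).card)
    (hc : Cn r q) (hs : Ser r q s e f) : Cn r (QUB.rm (!s) e q) := by
  have c1 : 2 ≤ ((gs q).erase e).card := by
    rw [Finset.card_erase_of_mem he]
    omega
  have hfe : f ∈ (gs q).erase e := Finset.mem_erase.2 ⟨hef.symm, hf⟩
  have c2 : 1 ≤ (((gs q).erase e).erase f).card := by
    rw [Finset.card_erase_of_mem hfe]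
    omega
  have n1 : ((gs q).erase e).Nonempty := ⟨f, hfe⟩
  have n2 : (((gs q).erase e).erase f).Nonempty := Finset.card_pos.1 c2
  have k1 := cnl_sing hc he n1
  have u1 := hr.unit q.1 e
  have u2 := hr.unit q.1 f
  have m1 : r (q.2.erase e) ≤ r q.2 := hr.mono _ _ (Finset.erase_subset _ _)
  have m2 : r (q.2.erase f) ≤ r q.2 := hr.mono _ _ (Finset.erase_subset _ _)
  have hn : ¬ Cn r (QUB.rm s e q) := by
    intro h
    have h1 := cnl_sing h (e := f) (by rw [QUB.gs_rm]; exact hfe) (by rw [QUB.gs_rm]; exact n2)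
    cases s
    · have h2 : r (insert e (insert f q.1)) ≤ r q.1 + 1 := hs
      have h3 : 1 ≤ r (insert f (insert e q.1)) + r (q.2.erase f) - r q.2 - r (insert e q.1) := h1
      rw [Finset.insert_comm] at h3
      linarith
    · have h2 : r ((q.2.erase e).erase f) + 1 ≤ r q.2 := hs
      have h3 : 1 ≤ r (insert f q.1) + r ((q.2.erase e).erase f) - r (q.2.erase e) - r q.1 := h1
      linarith
  rcases QUB.tutte hr hq he hc with h | h
  · cases s
    · exact h
    · exact absurd h hn
  · cases s
    · exact absurd h hn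
    · exact h

end Pool.Agent.QU
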