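import Pool.Agent.QUN.Defs
import Pool.Agent.QUB.Lam

/-!
# QUN/Th: pairs and triples in a 3-connected matroid

`Th3 r p` for `{u, v}` (its complement has at least two elements): `2 ≤ lam r p {u, v} = (r (p.1 ∪ {u, v}) - r p.1) + (r (p.2 \ {u, v}) - r p.2)`, the first bracket is at most two
(`hr.unit` twice), the second is at most zero (`hr.mono`): both are extreme. `th3_one_*`: from the pair statements (there is a second element) and `hr.unit`, `hr.mono`.
`th3_nd_same`: unfold `ND`, the four ranks are known. `nt_flip`: for a set of three elements whose complement has at least two elements `2 ≤ lam`, so it is not dependent and codependent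
at the same time; write `{u, v, w}` with `insert` and `erase` (`Finset.insert_comm`, `Finset.erase_right_comm`). The order of the elements in `NT` does not matter: `nt_comm`.
-/

set_option autoImplicit false

open QUB

namespace Pool.Agent.QU

variable {E : Type} [DecidableEq E] {r : Finset E → ℤ} {p : Itv E}

private theorem th_pair (hr : Rk r) (h3 : Th3 r p) (hn : 4 ≤ (gs p).card) {u v : E} (hu : u ∈ gs p) (hv : v ∈ gs p) (huv : u ≠ v) :
    r (insert u (insert v p.1)) = r p.1 + 2 ∧ r ((p.2.erase u).erase v) = r p.2 := by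
  have hA : ({u, v} : Finset E) ⊆ gs p := by
    intro x hx
    simp only [Finset.mem_insert, Finset.mem_singleton] at hx
    rcases hx with rfl | rfl
    · exact hu
    · exact hv
  have hc : ({u, v} : Finset E).card = 2 := Finset.card_pair huv
  have hd : (gs p \ {u, v}).card = (gs p).card - 2 := by
    rw [Finset.card_sdiff_of_subset hA, hc]
  have h := h3 {u, v} hA (by omega) (by omega)
  have e1 : p.1 ∪ {u, v} = insert u (insert v p.1) := by
    ext y
    simp only [Finset.mem_union, Finset.mem_insert, Finset.mem_singleton]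
    tauto
  have e2 : p.2 \ {u, v} = (p.2.erase u).erase v := by
    ext y
    simp only [Finset.mem_sdiff, Finset.mem_insert, Finset.mem_singleton, Finset.mem_erase]
    tauto
  unfold lam at h
  rw [e1, e2] at h
  have h1 := hr.unit (insert v p.1) u
  have h2 := hr.unit p.1 v
  have h4 := hr.mono ((p.2.erase u).erase v) p.2 ((Finset.erase_subset _ _).trans (Finset.erase_subset _ _))
  constructor <;> linarith

private theorem th_other (hn : 4 ≤ (gs p).card) (u : E) : ∃ v ∈ gs p, u ≠ v := by
  have h : 0 < ((gs p).erase u).card := by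
    have := Finset.pred_card_le_card_erase (s := gs p) (a := u)
    omega
  obtain ⟨v, hv⟩ := Finset.card_pos.1 h
  rw [Finset.mem_erase] at hv
  exact ⟨v, hv.2, fun he => hv.1 he.symm⟩

theorem th3_con2 (hr : Rk r) (hp : p.1 ⊆ p.2) (h3 : Th3 r p) (hn : 4 ≤ (gs p).card) {u v : E} (hu : u ∈ gs p) (hv : v ∈ gs p) (huv : u ≠ v) :
    r (insert u (insert v p.1)) = r p.1 + 2 :=
  (th_pair hr h3 hn hu hv huv).1

theorem th3_del2 (hr : Rk r) (hp : p.1 ⊆ p.2) (h3 : Th3 r p) (hn : 4 ≤ (gs p).card) {u v : E} (hu : u ∈ gs p) (hv : v ∈ gs p) (huv : u ≠ v) :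
    r ((p.2.erase u).erase v) = r p.2 :=
  (th_pair hr h3 hn hu hv huv).2

theorem th3_con1 (hr : Rk r) (hp : p.1 ⊆ p.2) (h3 : Th3 r p) (hn : 4 ≤ (gs p).card) {u : E} (hu : u ∈ gs p) : r (insert u p.1) = r p.1 + 1 := by
  obtain ⟨v, hv, huv⟩ := th_other hn u
  have h := (th_pair hr h3 hn hv hu huv.symm).1
  have h1 := hr.unit (insert u p.1) v
  have h2 := hr.unit p.1 u
  linarith

theorem th3_del1 (hr : Rk r) (hp : p.1 ⊆ p.2) (h3 : Th3 r p) (hn : 4 ≤ (gs p).card) {u : E} (hu : u ∈ gs p) : r (p.2.erase u) = r p.2 := by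
  obtain ⟨v, hv, huv⟩ := th_other hn u
  have h := (th_pair hr h3 hn hu hv huv).2
  have h1 := hr.mono _ _ (Finset.erase_subset v (p.2.erase u))
  have h2 := hr.mono _ _ (Finset.erase_subset u p.2)
  linarith

theorem th3_nd_same (hr : Rk r) (hp : p.1 ⊆ p.2) (h3 : Th3 r p) (hn : 4 ≤ (gs p).card) {u v : E} (hu : u ∈ gs p) (hv : v ∈ gs p) (huv : u ≠ v)
    (t : Bool) : ND r p u v t t := by
  have h := th_pair hr h3 hn hu hv huv
  cases t
  · have h1 := th3_con1 hr hp h3 hn hu
    have h2 := th3_con1 hr hp h3 hn hv
    show r (insert u p.1) + r (insert v p.1) = r p.1 + r (insert u (insert v p.1))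
    linarith [h.1]
  · have h1 := th3_del1 hr hp h3 hn hu
    have h2 := th3_del1 hr hp h3 hn hv
    show r (p.2.erase u) + r (p.2.erase v) = r p.2 + r ((p.2.erase u).erase v)
    linarith [h.2]

theorem nt_comm {t : Bool} {a b c : E} (h : NT r p t a b c) : NT r p t b a c ∧ NT r p t a c b := by
  cases t
  · have h' : r (insert a (insert b (insert c p.1))) = r p.1 + 3 := h
    constructor
    · show r (insert b (insert a (insert c p.1))) = r p.1 + 3
      rw [Finset.insert_comm b a]
      exact h'
    · show r (insert a (insert c (insert b p.1))) = r p.1 + 3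
      rw [Finset.insert_comm c b]
      exact h'
  · have h' : r (((p.2.erase a).erase b).erase c) = r p.2 := h
    constructor
    · show r (((p.2.erase b).erase a).erase c) = r p.2
      rw [Finset.erase_right_comm (a := b) (b := a)]
      exact h'
    · show r (((p.2.erase a).erase c).erase b) = r p.2
      rw [Finset.erase_right_comm (a := c) (b := b)]
      exact h'

/-- a triangle is no triad -/
theorem nt_flip (hr : Rk r) (hp : p.1 ⊆ p.2) (h3 : Th3 r p) (hn : 5 ≤ (gs p).card) {t : Bool} {a b c : E} (ha : a ∈ gs p) (hb : b ∈ gs p)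
    (hc : c ∈ gs p) (hab : a ≠ b) (hac : a ≠ c) (hbc : b ≠ c) (h : ¬ NT r p t a b c) : NT r p (!t) a b c := by
  have hA : ({a, b, c} : Finset E) ⊆ gs p := by
    intro x hx
    simp only [Finset.mem_insert, Finset.mem_singleton] at hx
    rcases hx with rfl | rfl | rfl
    · exact ha
    · exact hb
    · exact hc
  have hcd : ({a, b, c} : Finset E).card = 3 := Finset.card_eq_three.2 ⟨a, b, c, hab, hac, hbc, rfl⟩
  have hd : (gs p \ {a, b, c}).card = (gs p).card - 3 := by
    rw [Finset.card_sdiff_of_subset hA, hcd]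
  have h2 := h3 {a, b, c} hA (by omega) (by omega)
  have e1 : p.1 ∪ {a, b, c} = insert a (insert b (insert c p.1)) := by
    ext y
    simp only [Finset.mem_union, Finset.mem_insert, Finset.mem_singleton]
    tauto
  have e2 : p.2 \ {a, b, c} = ((p.2.erase a).erase b).erase c := by
    ext y
    simp only [Finset.mem_sdiff, Finset.mem_insert, Finset.mem_singleton, Finset.mem_erase]
    tauto
  unfold lam at h2
  rw [e1, e2] at h2
  have k1 := hr.unit (insert b (insert c p.1)) a
  have k2 := hr.unit (insert c p.1) b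
  have k3 := hr.unit p.1 c
  have k4 := hr.mono (((p.2.erase a).erase b).erase c) p.2
    ((Finset.erase_subset _ _).trans ((Finset.erase_subset _ _).trans (Finset.erase_subset _ _)))
  cases t
  · have h' : ¬ r (insert a (insert b (insert c p.1))) = r p.1 + 3 := h
    show r (((p.2.erase a).erase b).erase c) = r p.2
    omega
  · have h' : ¬ r (((p.2.erase a).erase b).erase c) = r p.2 := h
    show r (insert a (insert b (insert c p.1))) = r p.1 + 3
    omega

end Pool.Agent.QU
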