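import Pool.Agent.QUN.Ext
import Pool.Agent.QUN.Cnl
import Pool.Agent.QUN.Th
import Pool.Agent.QUL.LBinR

/-!
# QUN/Ci: no splits

`ci_path`: the types of the removals which lead from `p` to `q` can be chosen as `t, t` or as `t, !t, t`.
`ci_pair`: two elements outside of `gs q`. `ci_swap`: in a triangle (triad) the types of two elements can be exchanged.
-/

set_option autoImplicit false

open QUB

namespace Pool.Agent.QU

variable {E : Type} [DecidableEq E] {r : Finset E → ℤ} {p q : Itv E}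

/-- the type of an element outside of `gs q` -/
private theorem ci_type (hq : Sub q p) {x : E} (hxq : x ∉ gs q) :
    ∃ t, Sub q (QUB.rm t x p) := by
  by_cases h : x ∈ q.1
  · exact ⟨false, Finset.insert_subset h hq.1, hq.2⟩
  · refine ⟨true, hq.1, fun y hy => Finset.mem_erase.2 ⟨?_, hq.2 hy⟩⟩
    rintro rfl
    exact hxq (Finset.mem_sdiff.2 ⟨hy, h⟩)

private theorem ci_core (hr : Rk r) (hp : p.1 ⊆ p.2) (h3 : Th3 r p) (hn : 5 ≤ (gs p).card) {x y z : E} (hx : x ∈ gs p)
    (hy : y ∈ gs p) (hz : z ∈ gs p) (hxy : x ≠ y) (hxz : x ≠ z) (hyz : y ≠ z) {t : Bool}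
    (hq : Sub q (QUB.rm t z (QUB.rm (!t) y (QUB.rm t x p)))) (h1 : Cn r (QUB.rm (!t) y (QUB.rm t x p)))
    (h2 : Cn r (QUB.rm t z (QUB.rm (!t) y (QUB.rm t x p)))) :
    Sub q (QUB.rm t x (QUB.rm (!t) y (QUB.rm t z p))) ∧ Cn r (QUB.rm t x (QUB.rm (!t) y p)) ∧
      Cn r (QUB.rm t z (QUB.rm (!t) y p)) := by
  have e1 : QUB.rm t z (QUB.rm (!t) y (QUB.rm t x p)) = QUB.rm t x (QUB.rm (!t) y (QUB.rm t z p)) := by
    rw [Pool.Agent.QU.rm_comm (!t) t y x p, Pool.Agent.QU.rm_comm t t z x, Pool.Agent.QU.rm_comm t (!t) z y p]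
  have e2 : QUB.rm t z (QUB.rm (!t) y (QUB.rm t x p)) = QUB.rm t x (QUB.rm t z (QUB.rm (!t) y p)) := by
    rw [Pool.Agent.QU.rm_comm (!t) t y x p, Pool.Agent.QU.rm_comm t t z x]
  refine ⟨e1 ▸ hq, ?_, ?_⟩
  · rw [Pool.Agent.QU.rm_comm t (!t) x y p]
    exact h1
  · have hn4 : 4 ≤ (gs p).card := by omega
    have w1 : (QUB.rm (!t) y p).1 ⊆ (QUB.rm (!t) y p).2 := QUB.wf_rm hp hy
    have hz' : z ∈ gs (QUB.rm (!t) y p) := by
      rw [Pool.Agent.QU.gs_rm]
      exact Finset.mem_erase.2 ⟨hyz.symm, hz⟩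
    have w2 : (QUB.rm t z (QUB.rm (!t) y p)).1 ⊆ (QUB.rm t z (QUB.rm (!t) y p)).2 := QUB.wf_rm w1 hz'
    have hx' : x ∈ gs (QUB.rm t z (QUB.rm (!t) y p)) := by
      rw [Pool.Agent.QU.gs_rm, Pool.Agent.QU.gs_rm]
      exact Finset.mem_erase.2 ⟨hxz, Finset.mem_erase.2 ⟨hxy, hx⟩⟩
    refine cn_add hr w2 (s := t) hx' (e2 ▸ h2) ?_
    have k1 := th3_con2 hr hp h3 hn4 hx hz hxz
    have k2 := th3_con2 hr hp h3 hn4 hx hy hxy
    have k3 := th3_con1 hr hp h3 hn4 hz
    have k4 := th3_con1 hr hp h3 hn4 hy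
    have k5 := th3_del2 hr hp h3 hn4 hy hx hxy.symm
    have k6 := th3_del2 hr hp h3 hn4 hz hx hxz.symm
    have k7 := th3_del1 hr hp h3 hn4 hy
    have k8 := th3_del1 hr hp h3 hn4 hz
    cases t
    · show 1 ≤ r (insert z p.1 ∪ {x}) + r (p.2.erase y \ {x}) - r (p.2.erase y) - r (insert z p.1)
      rw [Finset.sdiff_singleton_eq_erase, Finset.union_comm, ← Finset.insert_eq, k1, k5, k7, k3]
      linarith
    · show 1 ≤ r (insert y p.1 ∪ {x}) + r (p.2.erase z \ {x}) - r (p.2.erase z) - r (insert y p.1)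
      rw [Finset.sdiff_singleton_eq_erase, Finset.union_comm, ← Finset.insert_eq, k2, k6, k8, k4]
      linarith

theorem ci_path (hr : Rk r) (hp : p.1 ⊆ p.2) (hc : Cn r p) (h3 : Th3 r p) (hn : 5 ≤ (gs p).card) (hqq : q.1 ⊆ q.2) (hq : Sub q p)
    (hqc : Cn r q) (hne : (gs q).Nonempty) (hN : Nrm r p q) (h : 3 ≤ (gs p \ gs q).card) :
    (∃ x ∈ gs p, ∃ y ∈ gs p, x ≠ y ∧ ∃ t, Sub q (QUB.rm t x (QUB.rm t y p)) ∧ Cn r (QUB.rm t x (QUB.rm t y p))) ∨
    (∃ a ∈ gs p, ∃ b ∈ gs p, ∃ c ∈ gs p, a ≠ b ∧ a ≠ c ∧ b ≠ c ∧ ∃ t, Sub q (QUB.rm t a (QUB.rm (!t) b (QUB.rm t c p))) ∧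
      Cn r (QUB.rm t a (QUB.rm (!t) b p)) ∧ Cn r (QUB.rm t c (QUB.rm (!t) b p))) := by
  have hn4 : 4 ≤ (gs p).card := by omega
  obtain ⟨x, hx⟩ := Finset.card_pos.1 (show 0 < (gs p \ gs q).card by omega)
  obtain ⟨hxp, hxq⟩ := Finset.mem_sdiff.1 hx
  obtain ⟨t, ht⟩ := ci_type hq hxq
  -- the first removal
  have w1 : (QUB.rm t x p).1 ⊆ (QUB.rm t x p).2 := QUB.wf_rm hp hxp
  have c1 : Cn r (QUB.rm t x p) := th3_cn hr hp hc h3 hn4 hxp t
  have s1 : Sub (QUB.rm t x p) p := rm_sub t x p
  have n1 := nrm_sub hr hN ht s1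
  have g1 : gs (QUB.rm t x p) = (gs p).erase x := Pool.Agent.QU.gs_rm t x p
  have d1 : gs q ≠ gs (QUB.rm t x p) := by
    intro he
    rw [g1] at he
    have h4 : gs p \ gs q ⊆ {x} := by
      rw [he]
      intro y hy
      obtain ⟨hy1, hy2⟩ := Finset.mem_sdiff.1 hy
      rw [Finset.mem_singleton]
      by_contra h5
      exact hy2 (Finset.mem_erase.2 ⟨h5, hy1⟩)
    have h5 := Finset.card_le_card h4
    rw [Finset.card_singleton] at h5
    omega
  obtain ⟨y, hy, hyq, s, hs, c2⟩ := ext_one hr w1 c1 hqq ht hqc hne n1 d1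
  rw [g1] at hy
  have hyp : y ∈ gs p := Finset.mem_of_mem_erase hy
  have hyx : y ≠ x := Finset.ne_of_mem_erase hy
  have hy1 : y ∈ gs (QUB.rm t x p) := by
    rw [g1]
    exact hy
  -- the second removal
  have w2 : (QUB.rm s y (QUB.rm t x p)).1 ⊆ (QUB.rm s y (QUB.rm t x p)).2 := QUB.wf_rm w1 hy1
  have s2 : Sub (QUB.rm s y (QUB.rm t x p)) p := s1.trans (rm_sub s y _)
  have n2 := nrm_sub hr hN hs s2
  have g2 : gs (QUB.rm s y (QUB.rm t x p)) = ((gs p).erase x).erase y := by
    rw [Pool.Agent.QU.gs_rm, g1]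
  have d2 : gs q ≠ gs (QUB.rm s y (QUB.rm t x p)) := by
    intro he
    rw [g2] at he
    have h4 : gs p \ gs q ⊆ {x, y} := by
      rw [he]
      intro v hv
      obtain ⟨hv1, hv2⟩ := Finset.mem_sdiff.1 hv
      rw [Finset.mem_insert, Finset.mem_singleton]
      by_contra h5
      rw [not_or] at h5
      exact hv2 (Finset.mem_erase.2 ⟨h5.2, Finset.mem_erase.2 ⟨h5.1, hv1⟩⟩)
    have h5 := Finset.card_le_card h4
    have h6 : ({x, y} : Finset E).card ≤ 2 := Finset.card_le_two
    omega
  obtain ⟨z, hz, hzq, u, hu, c3⟩ := ext_one hr w2 c2 hqq hs hqc hne n2 d2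
  rw [g2] at hz
  have hzy : z ≠ y := Finset.ne_of_mem_erase hz
  have hzx : z ≠ x := Finset.ne_of_mem_erase (Finset.mem_of_mem_erase hz)
  have hzp : z ∈ gs p := Finset.mem_of_mem_erase (Finset.mem_of_mem_erase hz)
  by_cases hts : s = t
  · left
    subst hts
    exact ⟨y, hyp, x, hxp, hyx, s, hs, c2⟩
  · right
    have hs' : s = !t := by
      cases s <;> cases t <;> simp_all
    subst hs'
    by_cases hut : u = t
    · subst hut
      obtain ⟨k1, k2, k3⟩ := ci_core hr hp h3 hn hxp hyp hzp hyx.symm hzx.symm hzy.symm hu c2 c3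
      exact ⟨x, hxp, y, hyp, z, hzp, hyx.symm, hzx.symm, hzy.symm, u, k1, k2, k3⟩
    · have hu' : u = !t := by
        cases u <;> cases t <;> simp_all
      subst hu'
      have e0 : QUB.rm (!t) y (QUB.rm t x p) = QUB.rm t x (QUB.rm (!t) y p) := Pool.Agent.QU.rm_comm _ _ _ _ _
      have e1 : (!(!t)) = t := Bool.not_not t
      rw [e0] at hu c2 c3
      obtain ⟨k1, k2, k3⟩ := ci_core (x := y) (y := x) (z := z) (t := !t) hr hp h3 hn hyp hxp hzp hyx hzy.symm hzx.symm
        (by rw [e1]; exact hu) (by rw [e1]; exact c2) (by rw [e1]; exact c3)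
      exact ⟨y, hyp, x, hxp, z, hzp, hyx, hzy.symm, hzx.symm, !t, k1, k2, k3⟩

theorem ci_pair (hp : p.1 ⊆ p.2) (hqq : q.1 ⊆ q.2) (hq : Sub q p) (h : (gs p \ gs q).card = 2) :
    ∃ x ∈ gs p, ∃ y ∈ gs p, x ≠ y ∧ ∃ t s, q = QUB.rm t x (QUB.rm s y p) := by
  obtain ⟨x, y, hxy, he⟩ := Finset.card_eq_two.1 h
  have hx : x ∈ gs p \ gs q := by
    rw [he]
    simp
  have hy : y ∈ gs p \ gs q := by
    rw [he]
    simp
  have hxp := (Finset.mem_sdiff.1 hx).1
  have hyp := (Finset.mem_sdiff.1 hy).1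
  refine ⟨x, hxp, y, hyp, hxy, ?_⟩
  have key : ∀ z, z ∈ p.2 → z ∉ p.1 → (z ∈ q.1 ∨ z ∉ q.2) → z = x ∨ z = y := by
    intro z h1 h2 h3
    have h4 : z ∈ gs p \ gs q := by
      refine Finset.mem_sdiff.2 ⟨Finset.mem_sdiff.2 ⟨h1, h2⟩, fun h5 => ?_⟩
      obtain ⟨h6, h7⟩ := Finset.mem_sdiff.1 h5
      rcases h3 with h3 | h3
      · exact h7 h3
      · exact h3 h6
    rw [he] at h4
    simpa using h4
  obtain ⟨x1, x2⟩ := Finset.mem_sdiff.1 hxp
  obtain ⟨y1, y2⟩ := Finset.mem_sdiff.1 hyp
  have a1 : ∀ z, z ∈ p.1 → z ∈ q.1 := fun z hz => hq.1 hz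
  have a2 : ∀ z, z ∈ q.1 → z ∈ q.2 := fun z hz => hqq hz
  have a3 : ∀ z, z ∈ q.2 → z ∈ p.2 := fun z hz => hq.2 hz
  have x3 : x ∉ gs q := (Finset.mem_sdiff.1 hx).2
  have y3 : y ∉ gs q := (Finset.mem_sdiff.1 hy).2
  have x4 : x ∉ q.1 → x ∉ q.2 := fun h1 h2 => x3 (Finset.mem_sdiff.2 ⟨h2, h1⟩)
  have y4 : y ∉ q.1 → y ∉ q.2 := fun h1 h2 => y3 (Finset.mem_sdiff.2 ⟨h2, h1⟩)
  by_cases hx1 : x ∈ q.1
  · by_cases hy1 : y ∈ q.1
    · refine ⟨false, false, ?_⟩
      refine Prod.ext ?_ ?_
      · show q.1 = insert x (insert y p.1)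
        ext z
        simp only [Finset.mem_insert]
        constructor
        · intro hz
          by_cases h2 : z ∈ p.1
          · exact Or.inr (Or.inr h2)
          · rcases key z (a3 z (a2 z hz)) h2 (Or.inl hz) with h3 | h3
            · exact Or.inl h3
            · exact Or.inr (Or.inl h3)
        · rintro (rfl | rfl | hz)
          · exact hx1
          · exact hy1
          · exact a1 z hz
      · show q.2 = p.2
        ext z
        constructor
        · exact a3 z
        · intro hz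
          by_contra h2
          have h5 : z ∉ p.1 := fun h6 => h2 (a2 z (a1 z h6))
          rcases key z hz h5 (Or.inr h2) with rfl | rfl
          · exact h2 (a2 z hx1)
          · exact h2 (a2 z hy1)
    · refine ⟨false, true, ?_⟩
      have hy2 := y4 hy1
      refine Prod.ext ?_ ?_
      · show q.1 = insert x p.1
        ext z
        simp only [Finset.mem_insert]
        constructor
        · intro hz
          by_cases h2 : z ∈ p.1
          · exact Or.inr h2
          · rcases key z (a3 z (a2 z hz)) h2 (Or.inl hz) with h3 | h3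
            · exact Or.inl h3
            · subst h3
              exact absurd hz hy1
        · rintro (rfl | hz)
          · exact hx1
          · exact a1 z hz
      · show q.2 = p.2.erase y
        ext z
        rw [Finset.mem_erase]
        constructor
        · intro hz
          refine ⟨?_, a3 z hz⟩
          rintro rfl
          exact hy2 hz
        · rintro ⟨hz1, hz⟩
          by_contra h2
          have h5 : z ∉ p.1 := fun h6 => h2 (a2 z (a1 z h6))
          rcases key z hz h5 (Or.inr h2) with rfl | rfl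
          · exact h2 (a2 z hx1)
          · exact hz1 rfl
  · have hx2 := x4 hx1
    by_cases hy1 : y ∈ q.1
    · refine ⟨true, false, ?_⟩
      refine Prod.ext ?_ ?_
      · show q.1 = insert y p.1
        ext z
        simp only [Finset.mem_insert]
        constructor
        · intro hz
          by_cases h2 : z ∈ p.1
          · exact Or.inr h2
          · rcases key z (a3 z (a2 z hz)) h2 (Or.inl hz) with h3 | h3
            · subst h3
              exact absurd hz hx1
            · exact Or.inl h3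
        · rintro (rfl | hz)
          · exact hy1
          · exact a1 z hz
      · show q.2 = p.2.erase x
        ext z
        rw [Finset.mem_erase]
        constructor
        · intro hz
          refine ⟨?_, a3 z hz⟩
          rintro rfl
          exact hx2 hz
        · rintro ⟨hz1, hz⟩
          by_contra h2
          have h5 : z ∉ p.1 := fun h6 => h2 (a2 z (a1 z h6))
          rcases key z hz h5 (Or.inr h2) with rfl | rfl
          · exact hz1 rfl
          · exact h2 (a2 z hy1)
    · have hy2 := y4 hy1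
      refine ⟨true, true, ?_⟩
      refine Prod.ext ?_ ?_
      · show q.1 = p.1
        ext z
        constructor
        · intro hz
          by_contra h2
          rcases key z (a3 z (a2 z hz)) h2 (Or.inl hz) with rfl | rfl
          · exact hx1 hz
          · exact hy1 hz
        · exact a1 z
      · show q.2 = (p.2.erase y).erase x
        ext z
        rw [Finset.mem_erase, Finset.mem_erase]
        constructor
        · intro hz
          refine ⟨?_, ?_, a3 z hz⟩
          · rintro rfl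
            exact hx2 hz
          · rintro rfl
            exact hy2 hz
        · rintro ⟨hz1, hz2, hz⟩
          by_contra h2
          have h5 : z ∉ p.1 := fun h6 => h2 (a2 z (a1 z h6))
          rcases key z hz h5 (Or.inr h2) with rfl | rfl
          · exact hz1 rfl
          · exact hz2 rfl

/-- the closure -/
private theorem ci_cl (hr : Rk r) {A B : Finset E} (h : A ⊆ B) {x : E} (hx : r (insert x A) = r A) : r (insert x B) = r B := by
  have h1 := QUB.marg hr h x
  have h2 := hr.mono B (insert x B) (Finset.subset_insert _ _)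
  linarith

/-- in a triangle (triad) the types can be exchanged -/
theorem ci_swap (hr : Rk r) (hp : p.1 ⊆ p.2) (hc : Cn r p) (h3 : Th3 r p) (hn : 5 ≤ (gs p).card) (hqq : q.1 ⊆ q.2) {a b c : E}
    (ha : a ∈ gs p) (hb : b ∈ gs p) (hcc : c ∈ gs p) (hab : a ≠ b) (hac : a ≠ c) (hbc : b ≠ c) {t : Bool}
    (hq : Sub q (QUB.rm t a (QUB.rm (!t) b (QUB.rm t c p)))) (hnt : ¬ NT r p t a b c) :
    (∃ q' : Itv E, Sub q' (QUB.rm (!t) c (QUB.rm t a p)) ∧ q'.1 ⊆ q'.2 ∧ SameM r q q') ∧ Cn r (QUB.rm (!t) c (QUB.rm t a p)) := by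
  have hn4 : 4 ≤ (gs p).card := by omega
  obtain ⟨a1, a2⟩ := Finset.mem_sdiff.1 ha
  obtain ⟨b1, b2⟩ := Finset.mem_sdiff.1 hb
  obtain ⟨c1, c2⟩ := Finset.mem_sdiff.1 hcc
  have w1 : ∀ t, (QUB.rm t a p).1 ⊆ (QUB.rm t a p).2 := fun t => QUB.wf_rm hp ha
  have g1 : ∀ t, gs (QUB.rm t a p) = (gs p).erase a := fun t => Pool.Agent.QU.gs_rm t a p
  have bg : ∀ t, b ∈ gs (QUB.rm t a p) := fun t => by
    rw [g1]
    exact Finset.mem_erase.2 ⟨hab.symm, hb⟩
  have cg : ∀ t, c ∈ gs (QUB.rm t a p) := fun t => by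
    rw [g1]
    exact Finset.mem_erase.2 ⟨hac.symm, hcc⟩
  have card1 : ∀ t, 3 ≤ (gs (QUB.rm t a p)).card := fun t => by
    rw [g1, Finset.card_erase_of_mem ha]
    omega
  have cn1 : ∀ t, Cn r (QUB.rm t a p) := fun t => th3_cn hr hp hc h3 hn4 ha t
  cases t
  · -- contracted: `a`, `c`, deleted: `b`
    obtain ⟨q1, q2⟩ := hq
    have q1' : insert a (insert c p.1) ⊆ q.1 := q1
    have q2' : q.2 ⊆ p.2.erase b := q2
    have aq : a ∈ q.1 := q1' (Finset.mem_insert_self _ _)
    have cq : c ∈ q.1 := q1' (Finset.mem_insert_of_mem (Finset.mem_insert_self _ _))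
    have pq : ∀ z, z ∈ p.1 → z ∈ q.1 := fun z hz => q1' (Finset.mem_insert_of_mem (Finset.mem_insert_of_mem hz))
    have qp : ∀ z, z ∈ q.2 → z ≠ b ∧ z ∈ p.2 := fun z hz => Finset.mem_erase.1 (q2' hz)
    have bq : b ∉ q.2 := fun h => (qp b h).1 rfl
    have e1 := th3_con2 hr hp h3 hn4 ha hcc hac
    have e2 := th3_con2 hr hp h3 hn4 hb ha hab.symm
    have e3 := th3_con2 hr hp h3 hn4 hb hcc hbc
    have e4 := th3_con1 hr hp h3 hn4 ha
    have e5 : r (insert a (insert b (insert c p.1))) = r p.1 + 2 := by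
      have f1 := hr.unit (insert b (insert c p.1)) a
      have f2 := hr.mono (insert b (insert c p.1)) _ (Finset.subset_insert a _)
      have f3 : ¬ r (insert a (insert b (insert c p.1))) = r p.1 + 3 := hnt
      omega
    have e6 : r (insert b (insert a (insert c p.1))) = r (insert a (insert c p.1)) := by
      rw [Finset.insert_comm b a, e5, e1]
    have e7 : r (insert c (insert b (insert a p.1))) = r (insert b (insert a p.1)) := by
      have f1 : insert c (insert b (insert a p.1)) = insert a (insert b (insert c p.1)) := by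
        ext z
        simp only [Finset.mem_insert]
        tauto
      rw [f1, e5, e2]
    refine ⟨⟨(insert b (q.1.erase c), insert b (q.2.erase c)), ⟨?_, ?_⟩, ?_, ?_, ?_⟩, ?_⟩
    · show insert a p.1 ⊆ insert b (q.1.erase c)
      intro z hz
      refine Finset.mem_insert_of_mem (Finset.mem_erase.2 ?_)
      rcases Finset.mem_insert.1 hz with rfl | hz
      · exact ⟨hac, aq⟩
      · refine ⟨?_, pq z hz⟩
        rintro rfl
        exact c2 hz
    · show insert b (q.2.erase c) ⊆ p.2.erase c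
      intro z hz
      rcases Finset.mem_insert.1 hz with rfl | hz
      · exact Finset.mem_erase.2 ⟨hbc, b1⟩
      · obtain ⟨hz1, hz2⟩ := Finset.mem_erase.1 hz
        exact Finset.mem_erase.2 ⟨hz1, (qp z hz2).2⟩
    · exact Finset.insert_subset_insert _ (Finset.erase_subset_erase _ hqq)
    · show insert b (q.2.erase c) \ insert b (q.1.erase c) = q.2 \ q.1
      ext z
      simp only [Finset.mem_sdiff, Finset.mem_insert, Finset.mem_erase]
      constructor
      · rintro ⟨h1, h2⟩
        rcases h1 with rfl | ⟨h1, h4⟩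
        · exact absurd (Or.inl rfl) h2
        · exact ⟨h4, fun h5 => h2 (Or.inr ⟨h1, h5⟩)⟩
      · rintro ⟨h1, h2⟩
        have hzc : z ≠ c := by
          rintro rfl
          exact h2 cq
        have hzb : z ≠ b := (qp z h1).1
        refine ⟨Or.inr ⟨hzc, h1⟩, ?_⟩
        rintro (h4 | h4)
        · exact hzb h4
        · exact h2 h4.2
    · intro A hA
      show r (insert b (q.1.erase c) ∪ A) - r (insert b (q.1.erase c)) = r (q.1 ∪ A) - r q.1
      have key : ∀ A : Finset E, r (insert b (q.1.erase c) ∪ A) = r (q.1 ∪ A) := by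
        intro A
        have f1 : r (insert b (q.1 ∪ A)) = r (q.1 ∪ A) :=
          ci_cl hr (q1'.trans Finset.subset_union_left) e6
        have f2 : r (insert c (insert b (q.1.erase c) ∪ A)) = r (insert b (q.1.erase c) ∪ A) := by
          refine ci_cl hr ?_ e7
          intro z hz
          refine Finset.mem_union_left _ ?_
          rcases Finset.mem_insert.1 hz with rfl | hz
          · exact Finset.mem_insert_self _ _
          · refine Finset.mem_insert_of_mem (Finset.mem_erase.2 ?_)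
            rcases Finset.mem_insert.1 hz with rfl | hz
            · exact ⟨hac, aq⟩
            · refine ⟨?_, pq z hz⟩
              rintro rfl
              exact c2 hz
        have f3 : insert c (insert b (q.1.erase c) ∪ A) = insert b (q.1 ∪ A) := by
          ext z
          simp only [Finset.mem_insert, Finset.mem_union, Finset.mem_erase]
          by_cases hzc : z = c
          · subst hzc
            simp [cq]
          · tauto
        rw [← f2, f3, f1]
      have k1 := key A
      have k2 := key ∅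
      rw [Finset.union_empty, Finset.union_empty] at k2
      rw [k1, k2]
    · have hs : Ser r (QUB.rm false a p) false c b := by
        show r (insert c (insert b (insert a p.1))) ≤ r (insert a p.1) + 1
        rw [e7, e2, e4]
        linarith
      exact ser_cn hr (w1 false) (cg false) (bg false) hbc.symm (card1 false) (cn1 false) hs
  · -- deleted: `a`, `c`, contracted: `b`
    obtain ⟨q1, q2⟩ := hq
    have q1' : insert b p.1 ⊆ q.1 := q1
    have q2' : q.2 ⊆ (p.2.erase c).erase a := q2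
    have bq : b ∈ q.1 := q1' (Finset.mem_insert_self _ _)
    have pq : ∀ z, z ∈ p.1 → z ∈ q.1 := fun z hz => q1' (Finset.mem_insert_of_mem hz)
    have qp : ∀ z, z ∈ q.2 → z ≠ a ∧ z ≠ c ∧ z ∈ p.2 := fun z hz => by
      obtain ⟨h1, h2⟩ := Finset.mem_erase.1 (q2' hz)
      exact ⟨h1, Finset.mem_erase.1 h2⟩
    have cq : c ∉ q.2 := fun h => (qp c h).2.1 rfl
    have aq : a ∉ q.2 := fun h => (qp a h).1 rfl
    have e1 := th3_del2 hr hp h3 hn4 ha hcc hac
    have e2 := th3_del2 hr hp h3 hn4 ha hb hab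
    have e4 := th3_del1 hr hp h3 hn4 ha
    obtain ⟨D, hD⟩ : ∃ D, D = ((p.2.erase a).erase b).erase c := ⟨_, rfl⟩
    have i1 : insert c D = (p.2.erase a).erase b := by
      rw [hD]
      exact Finset.insert_erase (Finset.mem_erase.2 ⟨hbc.symm, Finset.mem_erase.2 ⟨hac.symm, c1⟩⟩)
    have i2 : insert b D = (p.2.erase a).erase c := by
      rw [hD, Finset.erase_right_comm]
      exact Finset.insert_erase (Finset.mem_erase.2 ⟨hbc, Finset.mem_erase.2 ⟨hab.symm, b1⟩⟩)
    have e5 : r D = r p.2 - 1 := by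
      have f1 := hr.unit D c
      rw [i1, e2] at f1
      have f2 := hr.mono D _ (Finset.subset_insert c _)
      rw [i1, e2] at f2
      have f3 : ¬ r (((p.2.erase a).erase b).erase c) = r p.2 := hnt
      rw [← hD] at f3
      omega
    have add_b : ∀ X ⊆ D, r (insert b X) = r X + 1 := by
      intro X hX
      have f1 := QUB.marg hr hX b
      have f2 := hr.unit X b
      rw [i2, e1, e5] at f1
      linarith
    have add_c : ∀ X ⊆ D, r (insert c X) = r X + 1 := by
      intro X hX
      have f1 := QUB.marg hr hX c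
      have f2 := hr.unit X c
      rw [i1, e2, e5] at f1
      linarith
    refine ⟨⟨(insert c (q.1.erase b), insert c (q.2.erase b)), ⟨?_, ?_⟩, ?_, ?_, ?_⟩, ?_⟩
    · show insert c p.1 ⊆ insert c (q.1.erase b)
      refine Finset.insert_subset_insert _ fun z hz => Finset.mem_erase.2 ⟨?_, pq z hz⟩
      rintro rfl
      exact b2 hz
    · show insert c (q.2.erase b) ⊆ p.2.erase a
      intro z hz
      rcases Finset.mem_insert.1 hz with rfl | hz
      · exact Finset.mem_erase.2 ⟨hac.symm, c1⟩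
      · obtain ⟨hz1, hz2⟩ := Finset.mem_erase.1 hz
        exact Finset.mem_erase.2 ⟨(qp z hz2).1, (qp z hz2).2.2⟩
    · exact Finset.insert_subset_insert _ (Finset.erase_subset_erase _ hqq)
    · show insert c (q.2.erase b) \ insert c (q.1.erase b) = q.2 \ q.1
      ext z
      simp only [Finset.mem_sdiff, Finset.mem_insert, Finset.mem_erase]
      constructor
      · rintro ⟨h1, h2⟩
        rcases h1 with rfl | ⟨h1, h4⟩
        · exact absurd (Or.inl rfl) h2
        · exact ⟨h4, fun h5 => h2 (Or.inr ⟨h1, h5⟩)⟩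
      · rintro ⟨h1, h2⟩
        have hzb : z ≠ b := by
          rintro rfl
          exact h2 bq
        have hzc : z ≠ c := (qp z h1).2.1
        refine ⟨Or.inr ⟨hzb, h1⟩, ?_⟩
        rintro (h4 | h4)
        · exact hzc h4
        · exact h2 h4.2
    · intro A hA
      show r (insert c (q.1.erase b) ∪ A) - r (insert c (q.1.erase b)) = r (q.1 ∪ A) - r q.1
      have key : ∀ A ⊆ gs q, r (insert c (q.1.erase b) ∪ A) = r (q.1 ∪ A) := by
        intro A hA
        have hAq : ∀ z, z ∈ A → z ∈ q.2 ∧ z ∉ q.1 := fun z hz => Finset.mem_sdiff.1 (hA hz)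
        have hX : q.1.erase b ∪ A ⊆ D := by
          intro z hz
          have hz2 : z ∈ q.2 ∧ z ≠ b := by
            rcases Finset.mem_union.1 hz with h1 | h1
            · obtain ⟨h4, h5⟩ := Finset.mem_erase.1 h1
              exact ⟨hqq h5, h4⟩
            · refine ⟨(hAq z h1).1, ?_⟩
              rintro rfl
              exact (hAq z h1).2 bq
          rw [hD]
          obtain ⟨h6, h7, h8⟩ := qp z hz2.1
          exact Finset.mem_erase.2 ⟨h7, Finset.mem_erase.2 ⟨hz2.2, Finset.mem_erase.2 ⟨h6, h8⟩⟩⟩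
        have f1 : q.1 ∪ A = insert b (q.1.erase b ∪ A) := by
          rw [← Finset.insert_union, Finset.insert_erase bq]
        rw [f1, Finset.insert_union, add_b _ hX, add_c _ hX]
      have k1 := key A hA
      have k2 := key ∅ (Finset.empty_subset _)
      rw [Finset.union_empty, Finset.union_empty] at k2
      rw [k1, k2]
    · have hs : Ser r (QUB.rm true a p) true c b := by
        show r (((p.2.erase a).erase c).erase b) + 1 ≤ r (p.2.erase a)
        rw [Finset.erase_right_comm, ← hD, e5, e4]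
        linarith
      exact ser_cn hr (w1 true) (cg true) (bg true) hbc.symm (card1 true) (cn1 true) hs

end Pool.Agent.QU
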