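import Pool.Agent.QUN.Th
import Pool.Agent.QUL.LUniq
import Pool.Agent.QUL.LLine
import Pool.Agent.QUL.LDual

/-!
# QUN/G: gluing diagonal forms along two or three removals

`g_pair`: `uniq_step` with the zero form, the homogeneous problem by `hom_cn`.  `g_same`: two removals of the same type.  `g_path`: three removals `a`, `b`, `c` of types `s`, `!s`, `s` such that the two double
removals with `b` are connected and not binary; the diagonal forms fit together and the form on one further pair of vectors is computed on the third box.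
-/

set_option autoImplicit false

open QUB

namespace Pool.Agent.QU

variable {K E : Type} [Field K] [Fintype E] [DecidableEq E]

omit [Fintype E] in
private theorem g_wf2 {p : Itv E} (hp : p.1 ⊆ p.2) {u v : E} (t s : Bool) (huv : u ≠ v) (hu : u ∈ gs p) (hv : v ∈ gs p) :
    (QUB.rm t u (QUB.rm s v p)).1 ⊆ (QUB.rm t u (QUB.rm s v p)).2 := by
  refine QUB.wf_rm (QUB.wf_rm hp hv) ?_
  have h1 : gs (rm s v p) = (gs p).erase v := gs_rm s v p
  rw [h1]
  exact Finset.mem_erase.2 ⟨huv, hu⟩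

theorem g_pair (S : TP K E) {p : Itv E} (hp : p.1 ⊆ p.2) {u v : E} {t s : Bool} (huv : u ≠ v) (hu : u ∈ gs p) (hv : v ∈ gs p) {T : Fm K E}
    (hT : InV S.U S.W p T) (h1 : EqD S.U S.W (QUB.rm t u p) T 0) (h2 : EqD S.U S.W (QUB.rm s v p) T 0)
    (hc : Cn S.r (QUB.rm t u (QUB.rm s v p))) (hN : HasLn S.r (QUB.rm t u (QUB.rm s v p))) (hnd : ND S.r p u v t s) :
    EqD S.U S.W p T 0 := by
  have h1' : EqD S.U S.W (QUB.rm t u p) T ((0 : K) • (0 : Fm K E)) := by
    rw [smul_zero]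
    exact h1
  have h2' : EqD S.U S.W (QUB.rm s v p) T ((0 : K) • (0 : Fm K E)) := by
    rw [smul_zero]
    exact h2
  have h3 := uniq_step S huv hu hv hT (Ts := 0) InV.zero h1' h2' (Or.inl rfl)
    (fun l hl => hom_cn S (g_wf2 hp t s huv hu hv) hc hN hl) hnd
  rwa [smul_zero] at h3

/-- (G1) -/
theorem g_same (S : TP K E) {p : Itv E} (hp : p.1 ⊆ p.2) (h3 : Th3 S.r p) (hn : 4 ≤ (gs p).card) {u v : E} {t : Bool} (huv : u ≠ v)
    (hu : u ∈ gs p) (hv : v ∈ gs p) {T : Fm K E}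
    (hT : InV S.U S.W p T) (h1 : EqD S.U S.W (QUB.rm t u p) T 0) (h2 : EqD S.U S.W (QUB.rm t v p) T 0)
    (hc : Cn S.r (QUB.rm t u (QUB.rm t v p))) (hN : HasLn S.r (QUB.rm t u (QUB.rm t v p))) : EqD S.U S.W p T 0 := by
  exact g_pair S hp huv hu hv hT h1 h2 hc hN (th3_nd_same S.rk hp h3 hn hu hv huv t)

/-- two diagonal forms fit together -/
private theorem g_m {U W : Submodule K (E → K)} {p : Itv E} {a b : E} {t s : Bool} {T : Fm K E} {l₁ l₂ : E → K}
    (h1 : EqOn U W (QUB.rm t a p) T (dg l₁)) (h2 : EqOn U W (QUB.rm s b p) T (dg l₂))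
    (h : ∀ x ∈ gs (QUB.rm t a (QUB.rm s b p)), l₁ x = l₂ x) :
    ∃ m : E → K, (∀ x, x ≠ b → m x = l₂ x) ∧ EqOn U W (QUB.rm t a p) (T - dg m) 0 ∧
      EqOn U W (QUB.rm s b p) (T - dg m) 0 := by
  refine ⟨fun x => if x = b then l₁ b else l₂ x, fun x hx => if_neg hx, ?_, ?_⟩
  · have h3 : EqOn U W (QUB.rm t a p) (dg fun x => if x = b then l₁ b else l₂ x) (dg l₁) := by
      refine dg_congr fun x hx => ?_
      by_cases hxb : x = b
      · rw [if_pos hxb, hxb]
      · rw [if_neg hxb]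
        refine (h x ?_).symm
        have e1 : gs (rm t a p) = (gs p).erase a := gs_rm t a p
        have e2 : gs (rm t a (rm s b p)) = (gs (rm s b p)).erase a := gs_rm t a (rm s b p)
        have e3 : gs (rm s b p) = (gs p).erase b := gs_rm s b p
        rw [e1] at hx
        rw [e2, e3]
        exact Finset.mem_erase.2 ⟨(Finset.mem_erase.1 hx).1, Finset.mem_erase.2 ⟨hxb, (Finset.mem_erase.1 hx).2⟩⟩
    intro c hc d hd
    rw [LinearMap.sub_apply, LinearMap.sub_apply, h1 c hc d hd, h3 c hc d hd, sub_self]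
    rfl
  · have h3 : EqOn U W (QUB.rm s b p) (dg fun x => if x = b then l₁ b else l₂ x) (dg l₂) := by
      refine dg_congr fun x hx => ?_
      have e1 : gs (rm s b p) = (gs p).erase b := gs_rm s b p
      rw [e1] at hx
      exact if_neg (Finset.mem_erase.1 hx).1
    intro c hc d hd
    rw [LinearMap.sub_apply, LinearMap.sub_apply, h2 c hc d hd, h3 c hc d hd, sub_self]
    rfl

/-- two diagonal forms agree on the common part -/
private theorem g_agree (S : TP K E) {p : Itv E} (hp : p.1 ⊆ p.2) {a b : E} {t s : Bool} (hab : a ≠ b) (ha : a ∈ gs p)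
    (hb : b ∈ gs p) {T : Fm K E} {l₁ l₂ : E → K} (h1 : EqOn S.U S.W (QUB.rm t a p) T (dg l₁))
    (h2 : EqOn S.U S.W (QUB.rm s b p) T (dg l₂)) (hc : Cn S.r (QUB.rm t a (QUB.rm s b p)))
    (hN : HasLn S.r (QUB.rm t a (QUB.rm s b p))) : ∀ x ∈ gs (QUB.rm t a (QUB.rm s b p)), l₁ x = l₂ x := by
  have s1 : Sub (rm t a (rm s b p)) (rm t a p) := by
    rw [rm_comm]
    exact rm_sub s b (rm t a p)
  have s2 : Sub (rm t a (rm s b p)) (rm s b p) := rm_sub t a (rm s b p)
  have h3 := h1.mono s1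
  have h4 := h2.mono s2
  have h5 : EqOn S.U S.W (rm t a (rm s b p)) (dg (l₁ - l₂)) 0 := by
    intro c hc d hd
    rw [dg_sub, LinearMap.sub_apply, LinearMap.sub_apply, ← h3 c hc d hd, h4 c hc d hd, sub_self]
    rfl
  intro x hx
  exact sub_eq_zero.1 (hom_cn S (g_wf2 hp t s hab ha hb) hc hN h5 x hx)

omit [Fintype E] in
/-- a form which vanishes on two removals and on one pair of vectors -/
private theorem g_fin {U W : Submodule K (E → K)} {p : Itv E} {x y : E} {T : Fm K E} (h1 : EqOn U W (QUB.rm false x p) T 0)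
    (h2 : EqOn U W (QUB.rm true y p) T 0) {c₀ d₀ : E → K} (hc₀ : c₀ ∈ van U p.1) (hd₀ : d₀ ∈ spt W p.2) (ex : c₀ x = 1)
    (ey : d₀ y = 1) (h0 : T c₀ d₀ = 0) : EqOn U W p T 0 := by
  intro c hc d hd
  have hc1 : c - c x • c₀ ∈ van U (insert x p.1) := by
    have h5 : c - c x • c₀ ∈ van U p.1 := (van U p.1).sub_mem hc ((van U p.1).smul_mem _ hc₀)
    refine ⟨h5.1, fun z hz => ?_⟩
    rcases Finset.mem_insert.1 hz with rfl | hz
    · rw [Pi.sub_apply, Pi.smul_apply, smul_eq_mul, ex, mul_one, sub_self]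
    · exact h5.2 z hz
  have hd1 : d - d y • d₀ ∈ spt W (p.2.erase y) := by
    have h5 : d - d y • d₀ ∈ spt W p.2 := (spt W p.2).sub_mem hd ((spt W p.2).smul_mem _ hd₀)
    refine ⟨h5.1, fun z hz => ?_⟩
    by_cases hzy : z = y
    · rw [hzy, Pi.sub_apply, Pi.smul_apply, smul_eq_mul, ey, mul_one, sub_self]
    · exact h5.2 z fun hz' => hz (Finset.mem_erase.2 ⟨hzy, hz'⟩)
  have e1 : T (c - c x • c₀) d = 0 := h1 _ hc1 d hd
  have e2 : T c₀ (d - d y • d₀) = 0 := h2 c₀ hc₀ _ hd1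
  rw [map_sub, map_smul, LinearMap.sub_apply, LinearMap.smul_apply, smul_eq_mul] at e1
  rw [map_sub, map_smul, h0, smul_zero, sub_zero] at e2
  rw [e2, mul_zero, sub_zero] at e1
  exact e1

/-- (G2) -/
theorem g_path (S : TP K E) {p : Itv E} (hp : p.1 ⊆ p.2) (h3 : Th3 S.r p) (hn : 4 ≤ (gs p).card) {a b c : E} {s : Bool} (hab : a ≠ b)
    (hac : a ≠ c) (hbc : b ≠ c) (ha : a ∈ gs p) (hb : b ∈ gs p) (hcc : c ∈ gs p) {T : Fm K E} (hT : InV S.U S.W p T)
    (h1 : EqD S.U S.W (QUB.rm s a p) T 0) (h2 : EqD S.U S.W (QUB.rm (!s) b p) T 0) (h4 : EqD S.U S.W (QUB.rm s c p) T 0)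
    (c1 : Cn S.r (QUB.rm s a (QUB.rm (!s) b p))) (l1 : HasLn S.r (QUB.rm s a (QUB.rm (!s) b p)))
    (c2 : Cn S.r (QUB.rm s c (QUB.rm (!s) b p))) (l2 : HasLn S.r (QUB.rm s c (QUB.rm (!s) b p))) (hnt : NT S.r p s a b c) :
    EqD S.U S.W p T 0 := by
  obtain ⟨l₁, e1⟩ := h1
  obtain ⟨l₂, e2⟩ := h2
  obtain ⟨l₃, e3⟩ := h4
  rw [zero_add] at e1 e2 e3
  have k1 := g_agree S hp hab ha hb e1 e2 c1 l1
  have k2 := g_agree S hp hbc.symm hcc hb e3 e2 c2 l2
  obtain ⟨m, hm, m1, m2⟩ := g_m e1 e2 k1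
  have gfin : EqOn S.U S.W p (T - dg m) 0 → EqD S.U S.W p T 0 := by
    intro h
    refine ⟨m, ?_⟩
    rw [zero_add]
    exact h.of_sub
  refine gfin ?_
  -- the value on one pair
  have hval : ∀ c₀ d₀ : E → K, c₀ ∈ van S.U (QUB.rm s c p).1 → d₀ ∈ spt S.W (QUB.rm s c p).2 →
      (∀ x, c₀ x ≠ 0 → d₀ x ≠ 0 → x ∈ gs p ∧ x ≠ b ∧ x ≠ c) → (T - dg m) c₀ d₀ = 0 := by
    intro c₀ d₀ hc₀ hd₀ hx
    rw [LinearMap.sub_apply, LinearMap.sub_apply, e3 c₀ hc₀ d₀ hd₀, dg_apply, dg_apply, sub_eq_zero]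
    refine Finset.sum_congr rfl fun x _ => ?_
    by_cases h1 : c₀ x = 0
    · rw [h1, zero_mul, mul_zero, mul_zero]
    · by_cases h2 : d₀ x = 0
      · rw [h2, mul_zero, mul_zero, mul_zero]
      · obtain ⟨g1, g2, g3⟩ := hx x h1 h2
        rw [hm x g2]
        have q2 : gs (rm s c (rm (!s) b p)) = (gs (rm (!s) b p)).erase c := gs_rm s c (rm (!s) b p)
        have q3 : gs (rm (!s) b p) = (gs p).erase b := gs_rm (!s) b p
        rw [k2 x (by rw [q2, q3]; exact Finset.mem_erase.2 ⟨g3, Finset.mem_erase.2 ⟨g2, g1⟩⟩)]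
  have ha2 := Finset.mem_sdiff.1 ha
  have hb2 := Finset.mem_sdiff.1 hb
  cases s
  · -- `a`, `c` contracted, `b` deleted
    have hr3 : S.r (insert a (insert b (insert c p.1))) = S.r p.1 + 3 := hnt
    have q1 := S.r_insert_le a (insert b (insert c p.1))
    have q2 := S.r_insert_le b (insert c p.1)
    have q3 := S.r_insert_le c p.1
    obtain ⟨c₀, hc₀, ex⟩ := S.van_one (C := insert b (insert c p.1)) (x := a) (by linarith)
    obtain ⟨d₀, hd₀, ey⟩ := S.spt_one hb2.1 (th3_del1 S.rk hp h3 hn hb)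
    refine g_fin m1 m2 (van_anti ?_ hc₀) hd₀ ex ey (hval c₀ d₀ (van_anti ?_ hc₀) hd₀ fun x h1 h2 => ?_)
    · exact fun z hz => Finset.mem_insert_of_mem (Finset.mem_insert_of_mem hz)
    · exact Finset.subset_insert _ _
    · have g1 : x ∉ insert b (insert c p.1) := fun h => h1 (hc₀.2 x h)
      rw [Finset.mem_insert, Finset.mem_insert, not_or, not_or] at g1
      refine ⟨Finset.mem_sdiff.2 ⟨?_, g1.2.2⟩, g1.1, g1.2.1⟩
      by_contra h
      exact h2 (hd₀.2 x h)
  · -- `a`, `c` deleted, `b` contracted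
    have hr3 : S.r (((p.2.erase a).erase b).erase c) = S.r p.2 := hnt
    have hG : ((p.2.erase b).erase c).erase a = ((p.2.erase a).erase b).erase c := by
      rw [Finset.erase_right_comm (a := c), Finset.erase_right_comm (a := b)]
    have q1 : S.r ((p.2.erase b).erase c) ≤ S.r p.2 :=
      S.r_mono ((Finset.erase_subset _ _).trans (Finset.erase_subset _ _))
    have q2 : S.r (((p.2.erase b).erase c).erase a) ≤ S.r ((p.2.erase b).erase c) := S.r_mono (Finset.erase_subset _ _)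
    obtain ⟨d₀, hd₀, ey⟩ := S.spt_one (G := (p.2.erase b).erase c) (x := a)
      (Finset.mem_erase.2 ⟨hac, Finset.mem_erase.2 ⟨hab, ha2.1⟩⟩) (by
        refine le_antisymm q2 ?_
        rw [hG, hr3]
        exact q1)
    obtain ⟨c₀, hc₀, ex⟩ := S.van_one (th3_con1 S.rk hp h3 hn hb)
    refine g_fin m2 m1 hc₀ (spt_mono ?_ hd₀) ex ey (hval c₀ d₀ hc₀ (spt_mono ?_ hd₀) fun x h1 h2 => ?_)
    · exact (Finset.erase_subset _ _).trans (Finset.erase_subset _ _)
    · exact Finset.erase_subset_erase _ (Finset.erase_subset _ _)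
    · have g1 : x ∈ (p.2.erase b).erase c := by
        by_contra h
        exact h2 (hd₀.2 x h)
      rw [Finset.mem_erase, Finset.mem_erase] at g1
      refine ⟨Finset.mem_sdiff.2 ⟨g1.2.2, fun h => h1 (hc₀.2 x h)⟩, g1.2.1, g1.1⟩

end Pool.Agent.QU
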