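import Pool.Agent.QUN.Defs
import Pool.Agent.QUB.Line

/-!
# QUN/Lnb: the box of a four point line, small boxes

`line_box`: a four point line minor is given by a connected box with four elements. `ok_small`: a box with less than six elements has no separation of
order two with two heavy sides. `box_eq`, `ci_single`: boxes with the same number of elements, and with one element less.
-/

set_option autoImplicit false

open QUB

namespace Pool.Agent.QU

variable {E : Type} [DecidableEq E] {r : Finset E → ℤ} {p q : Itv E}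

theorem HasLn.mono (h : HasLn r q) (hq : Sub q p) : HasLn r p := by
  obtain ⟨N, h1, Y, h2, h3, h4⟩ := h
  exact ⟨N, h1, Y, hq.1.trans h2, h3.trans hq.2, h4⟩

private theorem lnb_one (hr : Rk r) {N Y B : Finset E} (hN : 2 ≤ N.card)
    (h5 : ∀ i ∈ N, ∀ j ∈ N, i ≠ j → r (insert i (insert j Y)) = r Y + 2) (hB : B ⊆ N) (hB0 : B.Nonempty) :
    r Y + 1 ≤ r (Y ∪ B) := by
  obtain ⟨i, hi⟩ := hB0
  obtain ⟨j, hj, hji⟩ := Finset.exists_mem_ne (by omega : 1 < N.card) i
  have h1 := h5 j hj i (hB hi) hji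
  have h2 := hr.unit (insert i Y) j
  have h3 : insert i Y ⊆ Y ∪ B := Finset.insert_subset (Finset.mem_union_right _ hi) Finset.subset_union_left
  have h4 := hr.mono _ _ h3
  linarith

private theorem lnb_two (hr : Rk r) {N Y B : Finset E}
    (h5 : ∀ i ∈ N, ∀ j ∈ N, i ≠ j → r (insert i (insert j Y)) = r Y + 2) (hB : B ⊆ N) (hB0 : 2 ≤ B.card) :
    r Y + 2 ≤ r (Y ∪ B) := by
  obtain ⟨i, hi, j, hj, hij⟩ := Finset.one_lt_card.1 (by omega : 1 < B.card)
  have h1 := h5 i (hB hi) j (hB hj) hij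
  have h3 : insert i (insert j Y) ⊆ Y ∪ B :=
    Finset.insert_subset (Finset.mem_union_right _ hi) (Finset.insert_subset (Finset.mem_union_right _ hj) Finset.subset_union_left)
  have h4 := hr.mono _ _ h3
  linarith

theorem line_box (hr : Rk r) (h : HasLn r p) : ∃ q : Itv E, Sub q p ∧ q.1 ⊆ q.2 ∧ (gs q).card = 4 ∧ Cn r q ∧ HasLn r q := by
  obtain ⟨N, h0, Y, h1, h2, h3, h4, h5⟩ := h
  have hg : QUB.gs ((Y, Y ∪ N) : Itv E) = N := by
    show (Y ∪ N) \ Y = N
    ext y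
    simp only [Finset.mem_sdiff, Finset.mem_union]
    have := @Finset.disjoint_left E N Y
    constructor
    · rintro ⟨h6 | h6, h7⟩
      · exact absurd h6 h7
      · exact h6
    · intro h6
      exact ⟨Or.inr h6, this.1 h3 h6⟩
  refine ⟨(Y, Y ∪ N), ⟨h1, h2⟩, Finset.subset_union_left, by rw [hg]; exact h0, ?_, N, h0, Y, Finset.Subset.refl _,
    Finset.Subset.refl _, h3, h4, h5⟩
  intro A hA hA0 hA1
  rw [hg] at hA hA1
  have e1 : (Y ∪ N) \ A = Y ∪ (N \ A) := by
    ext y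
    simp only [Finset.mem_sdiff, Finset.mem_union]
    constructor
    · rintro ⟨h6 | h6, h7⟩
      · exact Or.inl h6
      · exact Or.inr ⟨h6, h7⟩
    · rintro (h6 | ⟨h6, h7⟩)
      · exact ⟨Or.inl h6, fun h7 => (Finset.disjoint_left.1 h3 (hA h7)) h6⟩
      · exact ⟨Or.inr h6, h7⟩
  have hB : N \ A ⊆ N := Finset.sdiff_subset
  show 1 ≤ r (Y ∪ A) + r ((Y ∪ N) \ A) - r (Y ∪ N) - r Y
  rw [e1, h4]
  have a1 := lnb_one hr (by omega) h5 hA hA0
  have b1 := lnb_one hr (by omega) h5 hB hA1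
  have hc : (N \ A).card + A.card = 4 := by rw [Finset.card_sdiff_add_card_eq_card hA, h0]
  rcases Nat.lt_or_ge A.card 2 with h6 | h6
  · have b2 := lnb_two hr h5 hB (by omega)
    linarith
  · have a2 := lnb_two hr h5 hA h6
    linarith

theorem ok_small (h : (gs p).card < 6) : Ok r p := by
  rintro A hA - ⟨h1, h2⟩
  have h3 := h1.card
  have h4 := h2.card
  have h5 := Finset.card_sdiff_add_card_eq_card hA
  omega

private theorem lnb_gs (hq : Sub q p) : QUB.gs q ⊆ QUB.gs p := by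
  intro y hy
  have h1 := Finset.mem_sdiff.1 hy
  exact Finset.mem_sdiff.2 ⟨hq.2 h1.1, fun h2 => h1.2 (hq.1 h2)⟩

theorem box_eq (hp : p.1 ⊆ p.2) (hqq : q.1 ⊆ q.2) (hq : Sub q p) (h : (gs p).card ≤ (gs q).card) : q = p := by
  have h1 : QUB.gs q = QUB.gs p := Finset.eq_of_subset_of_card_le (lnb_gs hq) h
  have h2 : ∀ y, (y ∈ q.2 ∧ y ∉ q.1) ↔ (y ∈ p.2 ∧ y ∉ p.1) := by
    intro y
    have := Finset.ext_iff.1 h1 y
    simpa only [QUB.gs, Finset.mem_sdiff] using this
  refine Prod.ext (Finset.Subset.antisymm ?_ hq.1) (Finset.Subset.antisymm hq.2 ?_)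
  · intro y hy
    by_contra h3
    exact ((h2 y).2 ⟨hq.2 (hqq hy), h3⟩).2 hy
  · intro y hy
    by_contra h3
    exact h3 ((h2 y).2 ⟨hy, fun h4 => h3 (hqq (hq.1 h4))⟩).1

theorem ci_single (hp : p.1 ⊆ p.2) (hqq : q.1 ⊆ q.2) (hq : Sub q p) (h : (gs p).card = (gs q).card + 1) :
    ∃ x ∈ gs p, ∃ t, q = QUB.rm t x p := by
  have h0 := lnb_gs hq
  have h1 : (QUB.gs p \ QUB.gs q).card = 1 := by
    have := Finset.card_sdiff_add_card_eq_card h0
    omega
  obtain ⟨x, hx⟩ := Finset.card_eq_one.1 h1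
  have h2 : ∀ y, ((y ∈ p.2 ∧ y ∉ p.1) ∧ ¬ (y ∈ q.2 ∧ y ∉ q.1)) ↔ y = x := by
    intro y
    have := Finset.ext_iff.1 hx y
    simpa only [QUB.gs, Finset.mem_sdiff, Finset.mem_singleton] using this
  have hxx := (h2 x).2 rfl
  refine ⟨x, Finset.mem_sdiff.2 hxx.1, ?_⟩
  by_cases hx1 : x ∈ q.1
  · refine ⟨false, Prod.ext ?_ ?_⟩
    · show q.1 = insert x p.1
      ext y
      rw [Finset.mem_insert]
      constructor
      · intro hy
        by_cases hy1 : y ∈ p.1
        · exact Or.inr hy1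
        · exact Or.inl ((h2 y).1 ⟨⟨hq.2 (hqq hy), hy1⟩, fun h3 => h3.2 hy⟩)
      · rintro (rfl | hy)
        · exact hx1
        · exact hq.1 hy
    · show q.2 = p.2
      refine Finset.Subset.antisymm hq.2 ?_
      intro y hy
      by_contra h3
      have h4 := (h2 y).1 ⟨⟨hy, fun h4 => h3 (hqq (hq.1 h4))⟩, fun h4 => h3 h4.1⟩
      rw [h4] at h3
      exact h3 (hqq hx1)
  · have hx2 : x ∉ q.2 := fun h3 => hxx.2 ⟨h3, hx1⟩
    refine ⟨true, Prod.ext ?_ ?_⟩
    · show q.1 = p.1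
      refine Finset.Subset.antisymm ?_ hq.1
      intro y hy
      by_contra h3
      have h4 := (h2 y).1 ⟨⟨hq.2 (hqq hy), h3⟩, fun h4 => h4.2 hy⟩
      rw [h4] at hy
      exact hx1 hy
    · show q.2 = p.2.erase x
      ext y
      rw [Finset.mem_erase]
      constructor
      · intro hy
        refine ⟨?_, hq.2 hy⟩
        rintro rfl
        exact hx2 hy
      · rintro ⟨hy1, hy⟩
        by_contra h3
        exact hy1 ((h2 y).1 ⟨⟨hy, fun h4 => h3 (hqq (hq.1 h4))⟩, fun h4 => h3 h4.1⟩)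

end Pool.Agent.QU
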