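import Pool.Agent.QUN.Defs
import Pool.Agent.QUL.LDual

/-!
# QUN/Dul: duality for the small cases

`Th3` and `NU` pass to the dual: the connectivity function is self-dual, and `U_{3,6}` is self-dual.
-/

set_option autoImplicit false

namespace Pool.Agent.QU

variable {K E : Type} [Field K] [Fintype E] [DecidableEq E]

theorem th3_dual (S : TP K E) {p : Itv E} (hp : p.1 ⊆ p.2) (h : Th3 S.r p) : Th3 S.dual.r (QUB.dp p) := by
  have hgs : gs (QUB.dp p) = gs p := QUB.gs_dp p
  intro A hA h1 h2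
  rw [hgs] at hA h2
  have h3 := h A hA h1 h2
  have h4 : lam (QUB.rd S.r) (QUB.dp p) A = lam S.r p A := QUB.lam_dp hp hA
  change 2 ≤ lam (QUB.rd S.r) (QUB.dp p) A
  rw [h4]
  exact h3

private theorem dul_rd_union {r : Finset E → ℤ} {q : Itv E} (hq : q.1 ⊆ q.2) {A : Finset E}
    (hA : A ⊆ gs q) : QUB.rd r (q.1 ∪ A) =
      q.1.card + A.card + r (q.2ᶜ ∪ (gs q \ A)) - r Finset.univ := by
  have hA1 : ∀ y ∈ A, y ∈ q.2 ∧ y ∉ q.1 := fun y hy => Finset.mem_sdiff.1 (hA hy)
  have e1 : (q.1 ∪ A)ᶜ = q.2ᶜ ∪ (gs q \ A) := by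
    ext y
    have h1 := hA1 y
    have h2 := @hq y
    simp only [gs, Finset.mem_compl, Finset.mem_union, Finset.mem_sdiff]
    tauto
  have c1 : (q.1 ∪ A).card = q.1.card + A.card := by
    apply Finset.card_union_of_disjoint
    rw [Finset.disjoint_left]
    intro y hy hyA
    exact (hA1 y hyA).2 hy
  unfold QUB.rd
  rw [e1, c1]
  push_cast
  ring

theorem nu_dual (S : TP K E) (h : NU S.r) : NU S.dual.r := by
  intro q hq h6 hr hall
  have hgs : gs (QUB.dp q) = gs q := QUB.gs_dp q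
  have hr' : QUB.rd S.r q.2 = QUB.rd S.r q.1 + 3 := hr
  have e2 : q.1 ∪ gs q = q.2 := Finset.union_sdiff_of_subset hq
  have e3 : q.1 ∪ (∅ : Finset E) = q.1 := Finset.union_empty q.1
  have h2 := dul_rd_union (r := S.r) hq (Finset.Subset.refl (gs q))
  have h1 := dul_rd_union (r := S.r) hq (Finset.empty_subset (gs q))
  have e4 : q.2ᶜ ∪ gs q = q.1ᶜ := by
    ext y
    have h2 := @hq y
    simp only [gs, Finset.mem_compl, Finset.mem_union, Finset.mem_sdiff]
    tauto
  rw [e2, h6, Finset.sdiff_self, Finset.union_empty] at h2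
  rw [e3, Finset.card_empty, Finset.sdiff_empty, e4] at h1
  rw [h1, h2] at hr'
  push_cast at hr'
  have h3 : S.r q.1ᶜ = S.r q.2ᶜ + 3 := by linarith
  refine h (QUB.dp q) (QUB.wf_dp hq) (by rw [hgs]; exact h6) h3 ?_
  rw [hgs]
  intro i hi j hj k hk hij hik hjk
  change S.r (q.2ᶜ ∪ {i, j, k}) = S.r q.2ᶜ + 3
  have hs : ({i, j, k} : Finset E) ⊆ gs q := by
    intro y hy
    simp only [Finset.mem_insert, Finset.mem_singleton] at hy
    rcases hy with rfl | rfl | rfl
    · exact hi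
    · exact hj
    · exact hk
  have hc3 : ({i, j, k} : Finset E).card = 3 := Finset.card_eq_three.2 ⟨i, j, k, hij, hik, hjk, rfl⟩
  have hc : (gs q \ {i, j, k}).card = 3 := by
    have := Finset.card_sdiff_add_card_eq_card hs
    rw [hc3, h6] at this
    omega
  obtain ⟨a, b, c, hab, hac, hbc, hN⟩ := Finset.card_eq_three.1 hc
  have hm : ∀ y, y ∈ ({a, b, c} : Finset E) → y ∈ gs q := by
    intro y hy
    rw [← hN] at hy
    exact (Finset.mem_sdiff.1 hy).1
  have h4 := dul_rd_union (r := S.r) hq (Finset.sdiff_subset : gs q \ {i, j, k} ⊆ gs q)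
  rw [hc, Finset.sdiff_sdiff_eq_self hs, hN] at h4
  have h5 : QUB.rd S.r (q.1 ∪ {a, b, c}) = QUB.rd S.r q.1 + 3 :=
    hall a (hm a (by simp)) b (hm b (by simp)) c (hm c (by simp)) hab hac hbc
  rw [h4, h1] at h5
  push_cast at h5
  linarith

end Pool.Agent.QU
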