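import Mathlib
import Pool.Agent.FRM.F4

/-!
# QUN/Fg: five points in the plane over the field with four elements

`dt a b c` is the determinant of three vectors. `fg_six` and `fg_seven` are proved in suitable coordinates (`Fg_tr`: transforming and scaling the
vectors does not change which determinants vanish), where they are the finite checks `Fg_six_core` and `Fg_seven_core`.
-/

set_option autoImplicit false

namespace Pool.Agent.QU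

open Pool.Agent.FRM

/-- the determinant -/
def dt (a b c : Fin 3 → F4) : F4 := (Matrix.of ![a, b, c]).det

private theorem Fg_dt (a b c : Fin 3 → F4) : dt a b c = a 0 * (b 1 * c 2 - b 2 * c 1) - a 1 * (b 0 * c 2 - b 2 * c 0) +
    a 2 * (b 0 * c 1 - b 1 * c 0) := by
  unfold dt
  rw [Matrix.det_fin_three]
  simp
  ring

private theorem Fg_mul (M : Matrix (Fin 3) (Fin 3) F4) (a b c : Fin 3 → F4) :
    dt (Matrix.vecMul a M) (Matrix.vecMul b M) (Matrix.vecMul c M) = dt a b c * M.det := by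
  unfold dt
  rw [← Matrix.det_mul]
  congr 1
  refine Matrix.ext fun i j => ?_
  fin_cases i <;> rfl

private theorem Fg_smul (r s t : F4) (a b c : Fin 3 → F4) : dt (r • a) (s • b) (t • c) = r * s * t * dt a b c := by
  rw [Fg_dt, Fg_dt]
  simp only [Pi.smul_apply, smul_eq_mul]
  ring

private theorem Fg_swap (a b c : Fin 3 → F4) : dt b a c = dt a b c := by
  have h : ∀ x : F4, -x = x := fun x => rfl
  rw [← h (dt a b c), Fg_dt, Fg_dt]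
  ring

private theorem Fg_swap' (a b c : Fin 3 → F4) : dt a c b = dt a b c := by
  have h : ∀ x : F4, -x = x := fun x => rfl
  rw [← h (dt a b c), Fg_dt, Fg_dt]
  ring

private theorem Fg_vec (a b c : F4) (u0 u1 u2 : Fin 3 → F4) :
    Matrix.vecMul ![a, b, c] (Matrix.of ![u0, u1, u2]) = a • u0 + b • u1 + c • u2 := by
  funext j
  simp [Matrix.vecMul, dotProduct, Fin.sum_univ_three]

private theorem Fg_coord {M : Matrix (Fin 3) (Fin 3) F4} (hM : M.det ≠ 0) (u : Fin 3 → F4) :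
    ∃ a b c : F4, u = Matrix.vecMul ![a, b, c] M := by
  have h1 : IsUnit M.det := isUnit_iff_ne_zero.2 hM
  obtain ⟨z, hz⟩ : ∃ z, z = Matrix.vecMul u M⁻¹ := ⟨_, rfl⟩
  refine ⟨z 0, z 1, z 2, ?_⟩
  have h2 : (![z 0, z 1, z 2] : Fin 3 → F4) = z := by
    funext j
    fin_cases j <;> rfl
  rw [h2, hz, Matrix.vecMul_vecMul, Matrix.nonsing_inv_mul _ h1, Matrix.vecMul_one]

private theorem Fg_coord' {v0 v1 v2 : Fin 3 → F4} (h : dt v0 v1 v2 ≠ 0) (u : Fin 3 → F4) :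
    ∃ a b c : F4, u = a • v0 + b • v1 + c • v2 := by
  obtain ⟨a, b, c, hu⟩ := Fg_coord (M := Matrix.of ![v0, v1, v2]) h u
  exact ⟨a, b, c, by rw [hu, Fg_vec]⟩

private theorem Fg_c0 (a b c : F4) (v0 v1 v2 : Fin 3 → F4) :
    dt v1 v2 (a • v0 + b • v1 + c • v2) = a * dt v0 v1 v2 := by
  rw [Fg_dt, Fg_dt]
  simp only [Pi.smul_apply, Pi.add_apply, smul_eq_mul]
  ring

private theorem Fg_c1 (a b c : F4) (v0 v1 v2 : Fin 3 → F4) :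
    dt v2 v0 (a • v0 + b • v1 + c • v2) = b * dt v0 v1 v2 := by
  rw [Fg_dt, Fg_dt]
  simp only [Pi.smul_apply, Pi.add_apply, smul_eq_mul]
  ring

private theorem Fg_c2 (a b c : F4) (v0 v1 v2 : Fin 3 → F4) :
    dt v0 v1 (a • v0 + b • v1 + c • v2) = c * dt v0 v1 v2 := by
  rw [Fg_dt, Fg_dt]
  simp only [Pi.smul_apply, Pi.add_apply, smul_eq_mul]
  ring

private theorem Fg_five : ∀ i : Fin 5, i = 0 ∨ i = 1 ∨ i = 2 ∨ i = 3 ∨ i = 4 := by decide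

private theorem Fg_tr {M : Matrix (Fin 3) (Fin 3) F4} (hM : M.det ≠ 0) {r s t : F4} (hr : r ≠ 0) (hs : s ≠ 0)
    (ht : t ≠ 0) {a b c p q u : Fin 3 → F4} (ha : Matrix.vecMul p M = r • a) (hb : Matrix.vecMul q M = s • b)
    (hc : Matrix.vecMul u M = t • c) : dt a b c = 0 ↔ dt p q u = 0 := by
  have h := Fg_mul M p q u
  rw [ha, hb, hc, Fg_smul] at h
  constructor
  · intro h0
    rw [h0, mul_zero] at h
    exact (mul_eq_zero.1 h.symm).resolve_right hM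
  · intro h0
    rw [h0, zero_mul] at h
    exact (mul_eq_zero.1 h).resolve_left (mul_ne_zero (mul_ne_zero hr hs) ht)

set_option synthInstance.maxSize 100000 in
private theorem Fg_six_core : ∀ b0 : F4, b0 ≠ 0 → ∀ b1 : F4, b1 ≠ 0 → b1 ≠ b0 → ∀ b2 : F4, b2 ≠ 0 → b2 ≠ b0 → b2 ≠ b1 →
    ∀ x0 x1 x2 : F4,
    ¬ (x2 = 0 ∧ x1 = 0 ∧ x2 = x1 ∧ x2 * b1 = x1 * b2) →
    ¬ (x2 = 0 ∧ x0 = 0 ∧ x2 = x0 ∧ x2 * b0 = x0 * b2) →
    ¬ (x1 = 0 ∧ x0 = 0 ∧ x1 = x0 ∧ x1 * b0 = x0 * b1) →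
    ¬ (x2 = x1 ∧ x2 = x0 ∧ x1 = x0 ∧ x0 * (b2 - b1) - x1 * (b2 - b0) + x2 * (b1 - b0) = 0) →
    ¬ (x2 * b1 = x1 * b2 ∧ x2 * b0 = x0 * b2 ∧ x1 * b0 = x0 * b1 ∧
      x0 * (b2 - b1) - x1 * (b2 - b0) + x2 * (b1 - b0) = 0) →
    (x2 ≠ 0 ∧ x1 ≠ 0 ∧ x2 ≠ x1 ∧ x2 * b1 ≠ x1 * b2 ∧ x0 ≠ 0 ∧ x2 ≠ x0 ∧ x2 * b0 ≠ x0 * b2 ∧ x1 ≠ x0 ∧
      x1 * b0 ≠ x0 * b1 ∧ x0 * (b2 - b1) - x1 * (b2 - b0) + x2 * (b1 - b0) ≠ 0) ∨
    (x2 = 0 ∧ x1 = x0) ∨ (x2 = 0 ∧ x1 * b0 = x0 * b1) ∨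
      (x2 = 0 ∧ x0 * (b2 - b1) - x1 * (b2 - b0) + x2 * (b1 - b0) = 0) ∨
    (x1 = 0 ∧ x2 = x0) ∨ (x1 = 0 ∧ x2 * b0 = x0 * b2) ∨
      (x1 = 0 ∧ x0 * (b2 - b1) - x1 * (b2 - b0) + x2 * (b1 - b0) = 0) ∨
    (x2 = x1 ∧ x0 = 0) ∨ (x2 = x1 ∧ x2 * b0 = x0 * b2) ∨ (x2 = x1 ∧ x1 * b0 = x0 * b1) ∨
    (x2 * b1 = x1 * b2 ∧ x0 = 0) ∨ (x2 * b1 = x1 * b2 ∧ x2 = x0) ∨ (x2 * b1 = x1 * b2 ∧ x1 = x0) ∨
    (x0 = 0 ∧ x0 * (b2 - b1) - x1 * (b2 - b0) + x2 * (b1 - b0) = 0) ∨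
    (x2 = x0 ∧ x1 * b0 = x0 * b1) ∨ (x2 * b0 = x0 * b2 ∧ x1 = x0) := by
  decide +kernel

/-- a point `x` which is no multiple of a point of an arc `v` of five points is on no line through two points of the arc or on two of them which have no common point of the arc -/
theorem fg_six (v : Fin 5 → Fin 3 → F4) (x : Fin 3 → F4) (hv : ∀ i j k, i ≠ j → i ≠ k → j ≠ k → dt (v i) (v j) (v k) ≠ 0)
    (hx : ∀ i, ∃ j, j ≠ i ∧ dt x (v i) (v j) ≠ 0) :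
    (∀ i j, i ≠ j → dt x (v i) (v j) ≠ 0) ∨
      ∃ i j k l, i ≠ j ∧ i ≠ k ∧ i ≠ l ∧ j ≠ k ∧ j ≠ l ∧ k ≠ l ∧ dt x (v i) (v j) = 0 ∧ dt x (v k) (v l) = 0 := by
  have h012 := hv 0 1 2 (by decide) (by decide) (by decide)
  obtain ⟨d0, d1, d2, h3⟩ := Fg_coord' h012 (v 3)
  have hd0 : d0 ≠ 0 := by
    have h := hv 1 2 3 (by decide) (by decide) (by decide)
    rw [h3, Fg_c0] at h
    exact left_ne_zero_of_mul h
  have hd1 : d1 ≠ 0 := by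
    have h := hv 2 0 3 (by decide) (by decide) (by decide)
    rw [h3, Fg_c1] at h
    exact left_ne_zero_of_mul h
  have hd2 : d2 ≠ 0 := by
    have h := hv 0 1 3 (by decide) (by decide) (by decide)
    rw [h3, Fg_c2] at h
    exact left_ne_zero_of_mul h
  obtain ⟨M, hMd⟩ : ∃ M : Matrix (Fin 3) (Fin 3) F4, M = Matrix.of ![d0 • v 0, d1 • v 1, d2 • v 2] := ⟨_, rfl⟩
  have hM : M.det ≠ 0 := by
    have h : M.det = dt (d0 • v 0) (d1 • v 1) (d2 • v 2) := by rw [hMd]; rfl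
    rw [h, Fg_smul]
    exact mul_ne_zero (mul_ne_zero (mul_ne_zero hd0 hd1) hd2) h012
  obtain ⟨b0, b1, b2, h4⟩ := Fg_coord hM (v 4)
  obtain ⟨x0, x1, x2, hxx⟩ := Fg_coord hM x
  obtain ⟨w, hw⟩ : ∃ w : Fin 5 → Fin 3 → F4, w = ![![1, 0, 0], ![0, 1, 0], ![0, 0, 1], ![1, 1, 1], ![b0, b1, b2]] :=
    ⟨_, rfl⟩
  have hS : ∀ i, ∃ s : F4, s ≠ 0 ∧ Matrix.vecMul (w i) M = s • v i := by
    intro i
    rcases Fg_five i with rfl | rfl | rfl | rfl | rfl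
    · refine ⟨d0, hd0, ?_⟩
      rw [hw, hMd]
      exact (Fg_vec 1 0 0 _ _ _).trans (by simp)
    · refine ⟨d1, hd1, ?_⟩
      rw [hw, hMd]
      exact (Fg_vec 0 1 0 _ _ _).trans (by simp)
    · refine ⟨d2, hd2, ?_⟩
      rw [hw, hMd]
      exact (Fg_vec 0 0 1 _ _ _).trans (by simp)
    · refine ⟨1, one_ne_zero, ?_⟩
      rw [hw, hMd, h3]
      exact (Fg_vec 1 1 1 _ _ _).trans (by simp)
    · refine ⟨1, one_ne_zero, ?_⟩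
      rw [hw, one_smul, h4]
      rfl
  have T : ∀ i j k, dt (v i) (v j) (v k) = 0 ↔ dt (w i) (w j) (w k) = 0 := by
    intro i j k
    obtain ⟨s, hs, es⟩ := hS i
    obtain ⟨t, ht, et⟩ := hS j
    obtain ⟨r, hr, er⟩ := hS k
    exact Fg_tr hM hs ht hr es et er
  have Tx : ∀ i j, dt x (v i) (v j) = 0 ↔ dt ![x0, x1, x2] (w i) (w j) = 0 := by
    intro i j
    obtain ⟨s, hs, es⟩ := hS i
    obtain ⟨t, ht, et⟩ := hS j
    exact Fg_tr hM one_ne_zero hs ht (by rw [one_smul, hxx]) es et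
  have c0 : b0 ≠ 0 := by
    have h := hv 1 2 4 (by decide) (by decide) (by decide)
    rw [Ne, T, Fg_dt, hw] at h
    simpa using h
  have c1 : b1 ≠ 0 := by
    have h := hv 0 2 4 (by decide) (by decide) (by decide)
    rw [Ne, T, Fg_dt, hw] at h
    simpa using h
  have c2 : b2 ≠ 0 := by
    have h := hv 0 1 4 (by decide) (by decide) (by decide)
    rw [Ne, T, Fg_dt, hw] at h
    simpa using h
  have c10 : b1 ≠ b0 := by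
    have h := hv 2 3 4 (by decide) (by decide) (by decide)
    rw [Ne, T, Fg_dt, hw] at h
    have e : ∀ y z : F4, y - z = 0 ↔ y = z := fun y z => sub_eq_zero
    simpa [e] using h
  have c20 : b2 ≠ b0 := by
    have h := hv 1 3 4 (by decide) (by decide) (by decide)
    rw [Ne, T, Fg_dt, hw] at h
    intro h'
    apply h
    simp [h']
  have c21 : b2 ≠ b1 := by
    have h := hv 0 3 4 (by decide) (by decide) (by decide)
    rw [Ne, T, Fg_dt, hw] at h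
    simpa [sub_eq_zero] using h
  have z01 : dt x (v 0) (v 1) = 0 ↔ x2 = 0 := by
    have h : dt ![x0, x1, x2] (w 0) (w 1) = x2 := by rw [Fg_dt, hw]; simp
    rw [Tx, h]
  have z02 : dt x (v 0) (v 2) = 0 ↔ x1 = 0 := by
    have h : dt ![x0, x1, x2] (w 0) (w 2) = -x1 := by rw [Fg_dt, hw]; simp
    rw [Tx, h, neg_eq_zero]
  have z03 : dt x (v 0) (v 3) = 0 ↔ x2 = x1 := by
    have h : dt ![x0, x1, x2] (w 0) (w 3) = x2 - x1 := by rw [Fg_dt, hw]; simp; ring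
    rw [Tx, h, sub_eq_zero]
  have z04 : dt x (v 0) (v 4) = 0 ↔ x2 * b1 = x1 * b2 := by
    have h : dt ![x0, x1, x2] (w 0) (w 4) = x2 * b1 - x1 * b2 := by rw [Fg_dt, hw]; simp; ring
    rw [Tx, h, sub_eq_zero]
  have z12 : dt x (v 1) (v 2) = 0 ↔ x0 = 0 := by
    have h : dt ![x0, x1, x2] (w 1) (w 2) = x0 := by rw [Fg_dt, hw]; simp
    rw [Tx, h]
  have z13 : dt x (v 1) (v 3) = 0 ↔ x2 = x0 := by
    have h : dt ![x0, x1, x2] (w 1) (w 3) = -(x2 - x0) := by rw [Fg_dt, hw]; simp; ring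
    rw [Tx, h, neg_eq_zero, sub_eq_zero]
  have z14 : dt x (v 1) (v 4) = 0 ↔ x2 * b0 = x0 * b2 := by
    have h : dt ![x0, x1, x2] (w 1) (w 4) = -(x2 * b0 - x0 * b2) := by rw [Fg_dt, hw]; simp; ring
    rw [Tx, h, neg_eq_zero, sub_eq_zero]
  have z23 : dt x (v 2) (v 3) = 0 ↔ x1 = x0 := by
    have h : dt ![x0, x1, x2] (w 2) (w 3) = x1 - x0 := by rw [Fg_dt, hw]; simp; ring
    rw [Tx, h, sub_eq_zero]
  have z24 : dt x (v 2) (v 4) = 0 ↔ x1 * b0 = x0 * b1 := by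
    have h : dt ![x0, x1, x2] (w 2) (w 4) = x1 * b0 - x0 * b1 := by rw [Fg_dt, hw]; simp; ring
    rw [Tx, h, sub_eq_zero]
  have z34 : dt x (v 3) (v 4) = 0 ↔ x0 * (b2 - b1) - x1 * (b2 - b0) + x2 * (b1 - b0) = 0 := by
    have h : dt ![x0, x1, x2] (w 3) (w 4) = x0 * (b2 - b1) - x1 * (b2 - b0) + x2 * (b1 - b0) := by
      rw [Fg_dt, hw]; simp
    rw [Tx, h]
  have key := Fg_six_core b0 c0 b1 c1 c10 b2 c2 c20 c21 x0 x1 x2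
  rw [← z01, ← z02, ← z03, ← z04, ← z12, ← z13, ← z14, ← z23, ← z24, ← z34] at key
  have hp : ∀ i, (∀ j, j ≠ i → dt x (v i) (v j) = 0) → False := by
    intro i h
    obtain ⟨j, hj, hne⟩ := hx i
    exact hne (h j hj)
  have hsw : ∀ i j, dt x (v i) (v j) = 0 → dt x (v j) (v i) = 0 := by
    intro i j h
    rw [Fg_swap']
    exact h
  have key2 := key
    (by
      rintro ⟨a1, a2, a3, a4⟩
      refine hp 0 fun j hj => ?_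
      rcases Fg_five j with rfl | rfl | rfl | rfl | rfl
      · exact absurd rfl hj
      · exact a1
      · exact a2
      · exact a3
      · exact a4)
    (by
      rintro ⟨a1, a2, a3, a4⟩
      refine hp 1 fun j hj => ?_
      rcases Fg_five j with rfl | rfl | rfl | rfl | rfl
      · exact hsw _ _ a1
      · exact absurd rfl hj
      · exact a2
      · exact a3
      · exact a4)
    (by
      rintro ⟨a1, a2, a3, a4⟩
      refine hp 2 fun j hj => ?_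
      rcases Fg_five j with rfl | rfl | rfl | rfl | rfl
      · exact hsw _ _ a1
      · exact hsw _ _ a2
      · exact absurd rfl hj
      · exact a3
      · exact a4)
    (by
      rintro ⟨a1, a2, a3, a4⟩
      refine hp 3 fun j hj => ?_
      rcases Fg_five j with rfl | rfl | rfl | rfl | rfl
      · exact hsw _ _ a1
      · exact hsw _ _ a2
      · exact hsw _ _ a3
      · exact absurd rfl hj
      · exact a4)
    (by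
      rintro ⟨a1, a2, a3, a4⟩
      refine hp 4 fun j hj => ?_
      rcases Fg_five j with rfl | rfl | rfl | rfl | rfl
      · exact hsw _ _ a1
      · exact hsw _ _ a2
      · exact hsw _ _ a3
      · exact hsw _ _ a4
      · exact absurd rfl hj)
  rcases key2 with ⟨a01, a02, a03, a04, a12, a13, a14, a23, a24, a34⟩ | h | h | h | h | h | h | h | h | h | h | h | h | h | h | h
  · left
    replace a01 : dt x (v 0) (v 1) ≠ 0 := fun h => a01 (z01.1 h)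
    replace a02 : dt x (v 0) (v 2) ≠ 0 := fun h => a02 (z02.1 h)
    replace a03 : dt x (v 0) (v 3) ≠ 0 := fun h => a03 (z03.1 h)
    replace a04 : dt x (v 0) (v 4) ≠ 0 := fun h => a04 (z04.1 h)
    replace a12 : dt x (v 1) (v 2) ≠ 0 := fun h => a12 (z12.1 h)
    replace a13 : dt x (v 1) (v 3) ≠ 0 := fun h => a13 (z13.1 h)
    replace a14 : dt x (v 1) (v 4) ≠ 0 := fun h => a14 (z14.1 h)
    replace a23 : dt x (v 2) (v 3) ≠ 0 := fun h => a23 (z23.1 h)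
    replace a24 : dt x (v 2) (v 4) ≠ 0 := fun h => a24 (z24.1 h)
    replace a34 : dt x (v 3) (v 4) ≠ 0 := fun h => a34 (z34.1 h)
    have hsw' : ∀ i j, dt x (v i) (v j) ≠ 0 → dt x (v j) (v i) ≠ 0 := fun i j h h' => h (hsw _ _ h')
    intro i j hij
    rcases Fg_five i with rfl | rfl | rfl | rfl | rfl <;> rcases Fg_five j with rfl | rfl | rfl | rfl | rfl <;>
      first | exact absurd rfl hij | assumption | exact hsw' _ _ (by assumption)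
  · exact Or.inr ⟨0, 1, 2, 3, by decide, by decide, by decide, by decide, by decide, by decide, h.1, h.2⟩
  · exact Or.inr ⟨0, 1, 2, 4, by decide, by decide, by decide, by decide, by decide, by decide, h.1, h.2⟩
  · exact Or.inr ⟨0, 1, 3, 4, by decide, by decide, by decide, by decide, by decide, by decide, h.1, h.2⟩
  · exact Or.inr ⟨0, 2, 1, 3, by decide, by decide, by decide, by decide, by decide, by decide, h.1, h.2⟩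
  · exact Or.inr ⟨0, 2, 1, 4, by decide, by decide, by decide, by decide, by decide, by decide, h.1, h.2⟩
  · exact Or.inr ⟨0, 2, 3, 4, by decide, by decide, by decide, by decide, by decide, by decide, h.1, h.2⟩
  · exact Or.inr ⟨0, 3, 1, 2, by decide, by decide, by decide, by decide, by decide, by decide, h.1, h.2⟩
  · exact Or.inr ⟨0, 3, 1, 4, by decide, by decide, by decide, by decide, by decide, by decide, h.1, h.2⟩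
  · exact Or.inr ⟨0, 3, 2, 4, by decide, by decide, by decide, by decide, by decide, by decide, h.1, h.2⟩
  · exact Or.inr ⟨0, 4, 1, 2, by decide, by decide, by decide, by decide, by decide, by decide, h.1, h.2⟩
  · exact Or.inr ⟨0, 4, 1, 3, by decide, by decide, by decide, by decide, by decide, by decide, h.1, h.2⟩
  · exact Or.inr ⟨0, 4, 2, 3, by decide, by decide, by decide, by decide, by decide, by decide, h.1, h.2⟩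
  · exact Or.inr ⟨1, 2, 3, 4, by decide, by decide, by decide, by decide, by decide, by decide, h.1, h.2⟩
  · exact Or.inr ⟨1, 3, 2, 4, by decide, by decide, by decide, by decide, by decide, by decide, h.1, h.2⟩
  · exact Or.inr ⟨1, 4, 2, 3, by decide, by decide, by decide, by decide, by decide, by decide, h.1, h.2⟩

set_option synthInstance.maxSize 100000 in
private theorem Fg_seven_core : ∀ a3 : F4, a3 ≠ 0 → a3 ≠ 1 → ∀ a4 : F4, a4 ≠ 0 → a4 ≠ 1 → a3 ≠ a4 → ∀ x0 x1 : F4,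
    (x0 ≠ 0 ∨ x1 ≠ 0) → ∀ b2 : F4, 1 ≠ x1 * b2 → x0 * b2 ≠ 1 → ∀ b3 : F4, a3 ≠ x1 * b3 → x0 * b3 ≠ 1 →
    x0 * (b3 - b2 * a3) - x1 * (b3 - b2) + (a3 - 1) ≠ 0 → ∀ b4 : F4, a4 ≠ x1 * b4 → x0 * b4 ≠ 1 →
    x0 * (b4 - b2 * a4) - x1 * (b4 - b2) + (a4 - 1) ≠ 0 →
    x0 * (a3 * b4 - b3 * a4) - x1 * (b4 - b3) + (a4 - a3) ≠ 0 →
    (x1 = 0 ∧ ((b3 ≠ b2 ∧ b4 ≠ b2 ∧ b4 ≠ b3 ∧ (a3 * b4 - b3 * a4) - (b4 - b3) + b2 * (a4 - a3) ≠ 0) ∨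
      (b3 = b2 ∧ b4 = b2 ∧ b4 = b3 ∧ (a3 * b4 - b3 * a4) - (b4 - b3) + b2 * (a4 - a3) = 0))) ∨
    (x0 = 0 ∧ ((b3 ≠ b2 * a3 ∧ b4 ≠ b2 * a4 ∧ a3 * b4 ≠ b3 * a4 ∧ (a3 * b4 - b3 * a4) - (b4 - b3) + b2 * (a4 - a3) ≠ 0) ∨
      (b3 = b2 * a3 ∧ b4 = b2 * a4 ∧ a3 * b4 = b3 * a4 ∧ (a3 * b4 - b3 * a4) - (b4 - b3) + b2 * (a4 - a3) = 0))) ∨
    (x1 = x0 ∧ ((b3 ≠ 0 ∧ b4 ≠ 0 ∧ a3 * b4 ≠ b3 * a4 ∧ b4 ≠ b3) ∨ (b3 = 0 ∧ b4 = 0 ∧ a3 * b4 = b3 * a4 ∧ b4 = b3))) ∨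
    (x1 = x0 * a3 ∧ ((b2 ≠ 0 ∧ b4 ≠ 0 ∧ b4 ≠ b2 * a4 ∧ b4 ≠ b2) ∨ (b2 = 0 ∧ b4 = 0 ∧ b4 = b2 * a4 ∧ b4 = b2))) ∨
    (x1 = x0 * a4 ∧ ((b2 ≠ 0 ∧ b3 ≠ 0 ∧ b3 ≠ b2 * a3 ∧ b3 ≠ b2) ∨ (b2 = 0 ∧ b3 = 0 ∧ b3 = b2 * a3 ∧ b3 = b2))) := by
  decide +kernel

private theorem Fg_srt : ∀ i j k : Fin 5, i < j → j < k → (i = 0 ∧ j = 1 ∧ k = 2) ∨ (i = 0 ∧ j = 1 ∧ k = 3) ∨ (i = 0 ∧ j = 1 ∧ k = 4) ∨
    (i = 0 ∧ j = 2 ∧ k = 3) ∨ (i = 0 ∧ j = 2 ∧ k = 4) ∨ (i = 0 ∧ j = 3 ∧ k = 4) ∨ (i = 1 ∧ j = 2 ∧ k = 3) ∨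
    (i = 1 ∧ j = 2 ∧ k = 4) ∨ (i = 1 ∧ j = 3 ∧ k = 4) ∨ (i = 2 ∧ j = 3 ∧ k = 4) := by decide

private theorem Fg_ext {P : Fin 5 → Fin 5 → Fin 5 → Prop} (h1 : ∀ i j k, P i j k → P j i k)
    (h2 : ∀ i j k, P i j k → P i k j) {a : Fin 5}
    (h : ∀ i j k, i < j → j < k → i ≠ a → j ≠ a → k ≠ a → P i j k) :
    ∀ i j k, i ≠ a → j ≠ a → k ≠ a → i ≠ j → i ≠ k → j ≠ k → P i j k := by
  intro i j k hi hj hk hij hik hjk
  rcases lt_or_gt_of_ne hij with a1 | a1 <;> rcases lt_or_gt_of_ne hik with a2 | a2 <;>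
    rcases lt_or_gt_of_ne hjk with a3 | a3
  · exact h i j k a1 a3 hi hj hk
  · exact h2 _ _ _ (h i k j a2 a3 hi hk hj)
  · exact absurd (lt_trans a1 a3) (not_lt.2 a2.le)
  · exact h2 _ _ _ (h1 _ _ _ (h k i j a2 a1 hk hi hj))
  · exact h1 _ _ _ (h j i k a1 a2 hj hi hk)
  · exact absurd (lt_trans a3 a1) (not_lt.2 a2.le)
  · exact h1 _ _ _ (h2 _ _ _ (h j k i a3 a2 hj hk hi))
  · exact h1 _ _ _ (h2 _ _ _ (h1 _ _ _ (h k j i a3 a1 hk hj hi)))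

private theorem Fg_p0 {P : Fin 5 → Fin 5 → Fin 5 → Prop} (h1 : ∀ i j k, P i j k → P j i k)
    (h2 : ∀ i j k, P i j k → P i k j) (e1 : P 1 2 3) (e2 : P 1 2 4) (e3 : P 1 3 4) (e4 : P 2 3 4) :
    ∀ i j k, i ≠ 0 → j ≠ 0 → k ≠ 0 → i ≠ j → i ≠ k → j ≠ k → P i j k := by
  refine Fg_ext h1 h2 fun i j k hij hjk hi hj hk => ?_
  rcases Fg_srt i j k hij hjk with ⟨rfl, rfl, rfl⟩ | ⟨rfl, rfl, rfl⟩ | ⟨rfl, rfl, rfl⟩ | ⟨rfl, rfl, rfl⟩ |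
    ⟨rfl, rfl, rfl⟩ | ⟨rfl, rfl, rfl⟩ | ⟨rfl, rfl, rfl⟩ | ⟨rfl, rfl, rfl⟩ | ⟨rfl, rfl, rfl⟩ | ⟨rfl, rfl, rfl⟩ <;>
    first | assumption | exact absurd rfl hi | exact absurd rfl hj | exact absurd rfl hk

private theorem Fg_p1 {P : Fin 5 → Fin 5 → Fin 5 → Prop} (h1 : ∀ i j k, P i j k → P j i k)
    (h2 : ∀ i j k, P i j k → P i k j) (e1 : P 0 2 3) (e2 : P 0 2 4) (e3 : P 0 3 4) (e4 : P 2 3 4) :
    ∀ i j k, i ≠ 1 → j ≠ 1 → k ≠ 1 → i ≠ j → i ≠ k → j ≠ k → P i j k := by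
  refine Fg_ext h1 h2 fun i j k hij hjk hi hj hk => ?_
  rcases Fg_srt i j k hij hjk with ⟨rfl, rfl, rfl⟩ | ⟨rfl, rfl, rfl⟩ | ⟨rfl, rfl, rfl⟩ | ⟨rfl, rfl, rfl⟩ |
    ⟨rfl, rfl, rfl⟩ | ⟨rfl, rfl, rfl⟩ | ⟨rfl, rfl, rfl⟩ | ⟨rfl, rfl, rfl⟩ | ⟨rfl, rfl, rfl⟩ | ⟨rfl, rfl, rfl⟩ <;>
    first | assumption | exact absurd rfl hi | exact absurd rfl hj | exact absurd rfl hk

private theorem Fg_p2 {P : Fin 5 → Fin 5 → Fin 5 → Prop} (h1 : ∀ i j k, P i j k → P j i k)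
    (h2 : ∀ i j k, P i j k → P i k j) (e1 : P 0 1 3) (e2 : P 0 1 4) (e3 : P 0 3 4) (e4 : P 1 3 4) :
    ∀ i j k, i ≠ 2 → j ≠ 2 → k ≠ 2 → i ≠ j → i ≠ k → j ≠ k → P i j k := by
  refine Fg_ext h1 h2 fun i j k hij hjk hi hj hk => ?_
  rcases Fg_srt i j k hij hjk with ⟨rfl, rfl, rfl⟩ | ⟨rfl, rfl, rfl⟩ | ⟨rfl, rfl, rfl⟩ | ⟨rfl, rfl, rfl⟩ |
    ⟨rfl, rfl, rfl⟩ | ⟨rfl, rfl, rfl⟩ | ⟨rfl, rfl, rfl⟩ | ⟨rfl, rfl, rfl⟩ | ⟨rfl, rfl, rfl⟩ | ⟨rfl, rfl, rfl⟩ <;>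
    first | assumption | exact absurd rfl hi | exact absurd rfl hj | exact absurd rfl hk

private theorem Fg_p3 {P : Fin 5 → Fin 5 → Fin 5 → Prop} (h1 : ∀ i j k, P i j k → P j i k)
    (h2 : ∀ i j k, P i j k → P i k j) (e1 : P 0 1 2) (e2 : P 0 1 4) (e3 : P 0 2 4) (e4 : P 1 2 4) :
    ∀ i j k, i ≠ 3 → j ≠ 3 → k ≠ 3 → i ≠ j → i ≠ k → j ≠ k → P i j k := by
  refine Fg_ext h1 h2 fun i j k hij hjk hi hj hk => ?_
  rcases Fg_srt i j k hij hjk with ⟨rfl, rfl, rfl⟩ | ⟨rfl, rfl, rfl⟩ | ⟨rfl, rfl, rfl⟩ | ⟨rfl, rfl, rfl⟩ |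
    ⟨rfl, rfl, rfl⟩ | ⟨rfl, rfl, rfl⟩ | ⟨rfl, rfl, rfl⟩ | ⟨rfl, rfl, rfl⟩ | ⟨rfl, rfl, rfl⟩ | ⟨rfl, rfl, rfl⟩ <;>
    first | assumption | exact absurd rfl hi | exact absurd rfl hj | exact absurd rfl hk

private theorem Fg_p4 {P : Fin 5 → Fin 5 → Fin 5 → Prop} (h1 : ∀ i j k, P i j k → P j i k)
    (h2 : ∀ i j k, P i j k → P i k j) (e1 : P 0 1 2) (e2 : P 0 1 3) (e3 : P 0 2 3) (e4 : P 1 2 3) :
    ∀ i j k, i ≠ 4 → j ≠ 4 → k ≠ 4 → i ≠ j → i ≠ k → j ≠ k → P i j k := by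
  refine Fg_ext h1 h2 fun i j k hij hjk hi hj hk => ?_
  rcases Fg_srt i j k hij hjk with ⟨rfl, rfl, rfl⟩ | ⟨rfl, rfl, rfl⟩ | ⟨rfl, rfl, rfl⟩ | ⟨rfl, rfl, rfl⟩ |
    ⟨rfl, rfl, rfl⟩ | ⟨rfl, rfl, rfl⟩ | ⟨rfl, rfl, rfl⟩ | ⟨rfl, rfl, rfl⟩ | ⟨rfl, rfl, rfl⟩ | ⟨rfl, rfl, rfl⟩ <;>
    first | assumption | exact absurd rfl hi | exact absurd rfl hj | exact absurd rfl hk

/-- two points `x`, `y` from which the five points `v` are seen in different directions -/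
theorem fg_seven (v : Fin 5 → Fin 3 → F4) (x y : Fin 3 → F4) (hy : ∀ i j, i ≠ j → dt y (v i) (v j) ≠ 0)
    (hx : ∀ i j, i ≠ j → dt x (v i) (v j) ≠ 0) (hxy : ∃ i, dt x y (v i) ≠ 0) :
    ∃ a, dt x y (v a) = 0 ∧ ((∀ i j k, i ≠ a → j ≠ a → k ≠ a → i ≠ j → i ≠ k → j ≠ k → dt (v i) (v j) (v k) ≠ 0) ∨
      (∀ i j k, i ≠ a → j ≠ a → k ≠ a → i ≠ j → i ≠ k → j ≠ k → dt (v i) (v j) (v k) = 0)) := by
  have h01y : dt (v 0) (v 1) y ≠ 0 := by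
    rw [Fg_swap', Fg_swap]
    exact hy 0 1 (by decide)
  obtain ⟨p0, p1, p2, h2⟩ := Fg_coord' h01y (v 2)
  have hp0 : p0 ≠ 0 := by
    have h := hy 1 2 (by decide)
    rw [Fg_swap, h2, Fg_c0] at h
    exact left_ne_zero_of_mul h
  have hp1 : p1 ≠ 0 := by
    have h := hy 0 2 (by decide)
    rw [h2, Fg_c1] at h
    exact left_ne_zero_of_mul h
  obtain ⟨M, hMd⟩ : ∃ M : Matrix (Fin 3) (Fin 3) F4, M = Matrix.of ![p0 • v 0, p1 • v 1, (1 : F4) • y] := ⟨_, rfl⟩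
  have hM : M.det ≠ 0 := by
    have h : M.det = dt (p0 • v 0) (p1 • v 1) ((1 : F4) • y) := by rw [hMd]; rfl
    rw [h, Fg_smul]
    exact mul_ne_zero (mul_ne_zero (mul_ne_zero hp0 hp1) one_ne_zero) h01y
  obtain ⟨c0, c1, c2, h3⟩ := Fg_coord hM (v 3)
  obtain ⟨d0, d1, d2, h4⟩ := Fg_coord hM (v 4)
  obtain ⟨e0, e1, e2, hxx⟩ := Fg_coord hM x
  have hyM : Matrix.vecMul ![0, 0, 1] M = (1 : F4) • y := by
    rw [hMd]
    exact (Fg_vec 0 0 1 _ _ _).trans (by simp)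
  have h0M : Matrix.vecMul ![1, 0, 0] M = p0 • v 0 := by
    rw [hMd]
    exact (Fg_vec 1 0 0 _ _ _).trans (by simp)
  have h1M : Matrix.vecMul ![0, 1, 0] M = p1 • v 1 := by
    rw [hMd]
    exact (Fg_vec 0 1 0 _ _ _).trans (by simp)
  have h2M : Matrix.vecMul ![1, 1, p2] M = (1 : F4) • v 2 := by
    rw [hMd, h2]
    exact (Fg_vec 1 1 p2 _ _ _).trans (by simp)
  have h3M' : Matrix.vecMul ![c0, c1, c2] M = (1 : F4) • v 3 := by rw [h3, one_smul]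
  have h4M' : Matrix.vecMul ![d0, d1, d2] M = (1 : F4) • v 4 := by rw [h4, one_smul]
  have hxM' : Matrix.vecMul ![e0, e1, e2] M = (1 : F4) • x := by rw [hxx, one_smul]
  have hc0 : c0 ≠ 0 := by
    have h := hy 1 3 (by decide)
    rw [Ne, Fg_tr hM one_ne_zero hp1 one_ne_zero hyM h1M h3M', Fg_dt] at h
    simpa using h
  have hd0 : d0 ≠ 0 := by
    have h := hy 1 4 (by decide)
    rw [Ne, Fg_tr hM one_ne_zero hp1 one_ne_zero hyM h1M h4M', Fg_dt] at h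
    simpa using h
  have he2 : e2 ≠ 0 := by
    have h := hx 0 1 (by decide)
    rw [Ne, Fg_tr hM one_ne_zero hp0 hp1 hxM' h0M h1M, Fg_dt] at h
    simpa using h
  obtain ⟨a3, ha3⟩ : ∃ a, a = c0⁻¹ * c1 := ⟨_, rfl⟩
  obtain ⟨b3, hb3⟩ : ∃ a, a = c0⁻¹ * c2 := ⟨_, rfl⟩
  obtain ⟨a4, ha4⟩ : ∃ a, a = d0⁻¹ * d1 := ⟨_, rfl⟩
  obtain ⟨b4, hb4⟩ : ∃ a, a = d0⁻¹ * d2 := ⟨_, rfl⟩
  obtain ⟨x0, hx0⟩ : ∃ a, a = e2⁻¹ * e0 := ⟨_, rfl⟩
  obtain ⟨x1, hx1⟩ : ∃ a, a = e2⁻¹ * e1 := ⟨_, rfl⟩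
  have h3M : Matrix.vecMul ![1, a3, b3] M = c0⁻¹ • v 3 := by
    have h : (![1, a3, b3] : Fin 3 → F4) = c0⁻¹ • ![c0, c1, c2] := by
      rw [ha3, hb3]
      simp [hc0]
    rw [h, Matrix.smul_vecMul, h3M', one_smul]
  have h4M : Matrix.vecMul ![1, a4, b4] M = d0⁻¹ • v 4 := by
    have h : (![1, a4, b4] : Fin 3 → F4) = d0⁻¹ • ![d0, d1, d2] := by
      rw [ha4, hb4]
      simp [hd0]
    rw [h, Matrix.smul_vecMul, h4M', one_smul]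
  have hxM : Matrix.vecMul ![x0, x1, 1] M = e2⁻¹ • x := by
    have h : (![x0, x1, 1] : Fin 3 → F4) = e2⁻¹ • ![e0, e1, e2] := by
      rw [hx0, hx1]
      simp [he2]
    rw [h, Matrix.smul_vecMul, hxM', one_smul]
  have k3 : c0⁻¹ ≠ 0 := inv_ne_zero hc0
  have k4 : d0⁻¹ ≠ 0 := inv_ne_zero hd0
  have kx : e2⁻¹ ≠ 0 := inv_ne_zero he2
  obtain ⟨w, hw⟩ : ∃ w : Fin 5 → Fin 3 → F4, w = ![![1, 0, 0], ![0, 1, 0], ![1, 1, p2], ![1, a3, b3], ![1, a4, b4]] :=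
    ⟨_, rfl⟩
  have hS : ∀ i, ∃ s : F4, s ≠ 0 ∧ Matrix.vecMul (w i) M = s • v i := by
    intro i
    rcases Fg_five i with rfl | rfl | rfl | rfl | rfl
    · exact ⟨p0, hp0, by rw [hw]; exact h0M⟩
    · exact ⟨p1, hp1, by rw [hw]; exact h1M⟩
    · exact ⟨1, one_ne_zero, by rw [hw]; exact h2M⟩
    · exact ⟨c0⁻¹, k3, by rw [hw]; exact h3M⟩
    · exact ⟨d0⁻¹, k4, by rw [hw]; exact h4M⟩
  have T : ∀ i j k, dt (v i) (v j) (v k) = 0 ↔ dt (w i) (w j) (w k) = 0 := by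
    intro i j k
    obtain ⟨s, hs, es⟩ := hS i
    obtain ⟨t, ht, et⟩ := hS j
    obtain ⟨r, hr, er⟩ := hS k
    exact Fg_tr hM hs ht hr es et er
  have Tx : ∀ i j, dt x (v i) (v j) = 0 ↔ dt ![x0, x1, 1] (w i) (w j) = 0 := by
    intro i j
    obtain ⟨s, hs, es⟩ := hS i
    obtain ⟨t, ht, et⟩ := hS j
    exact Fg_tr hM kx hs ht hxM es et
  have Ty : ∀ i j, dt y (v i) (v j) = 0 ↔ dt ![0, 0, 1] (w i) (w j) = 0 := by
    intro i j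
    obtain ⟨s, hs, es⟩ := hS i
    obtain ⟨t, ht, et⟩ := hS j
    exact Fg_tr hM one_ne_zero hs ht hyM es et
  have Txy : ∀ i, dt x y (v i) = 0 ↔ dt ![x0, x1, 1] ![0, 0, 1] (w i) = 0 := by
    intro i
    obtain ⟨s, hs, es⟩ := hS i
    exact Fg_tr hM kx one_ne_zero hs hxM hyM es
  have q3 : a3 ≠ 0 := by
    intro h
    refine hy 0 3 (by decide) ((Ty 0 3).2 ?_)
    rw [Fg_dt, hw, h]
    simp
  have q3' : a3 ≠ 1 := by
    intro h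
    refine hy 2 3 (by decide) ((Ty 2 3).2 ?_)
    rw [Fg_dt, hw, h]
    simp
  have q4 : a4 ≠ 0 := by
    intro h
    refine hy 0 4 (by decide) ((Ty 0 4).2 ?_)
    rw [Fg_dt, hw, h]
    simp
  have q4' : a4 ≠ 1 := by
    intro h
    refine hy 2 4 (by decide) ((Ty 2 4).2 ?_)
    rw [Fg_dt, hw, h]
    simp
  have q34 : a3 ≠ a4 := by
    intro h
    refine hy 3 4 (by decide) ((Ty 3 4).2 ?_)
    rw [Fg_dt, hw, h]
    simp
  have qxy : x0 ≠ 0 ∨ x1 ≠ 0 := by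
    by_contra hcon
    rw [not_or, not_not, not_not] at hcon
    obtain ⟨i, hi⟩ := hxy
    refine hi ((Txy i).2 ?_)
    rw [Fg_dt, hcon.1, hcon.2]
    simp
  have x02 : 1 ≠ x1 * p2 := by
    intro h
    refine hx 0 2 (by decide) ((Tx 0 2).2 ?_)
    rw [Fg_dt, hw]
    simp [← h]
  have x12 : x0 * p2 ≠ 1 := by
    intro h
    refine hx 1 2 (by decide) ((Tx 1 2).2 ?_)
    rw [Fg_dt, hw]
    simp [h]
  have x03 : a3 ≠ x1 * b3 := by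
    intro h
    refine hx 0 3 (by decide) ((Tx 0 3).2 ?_)
    rw [Fg_dt, hw]
    simp [← h]
  have x13 : x0 * b3 ≠ 1 := by
    intro h
    refine hx 1 3 (by decide) ((Tx 1 3).2 ?_)
    rw [Fg_dt, hw]
    simp [h]
  have x23 : x0 * (b3 - p2 * a3) - x1 * (b3 - p2) + (a3 - 1) ≠ 0 := by
    intro h
    refine hx 2 3 (by decide) ((Tx 2 3).2 ?_)
    rw [← h, Fg_dt, hw]
    simp
  have x04 : a4 ≠ x1 * b4 := by
    intro h
    refine hx 0 4 (by decide) ((Tx 0 4).2 ?_)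
    rw [Fg_dt, hw]
    simp [← h]
  have x14 : x0 * b4 ≠ 1 := by
    intro h
    refine hx 1 4 (by decide) ((Tx 1 4).2 ?_)
    rw [Fg_dt, hw]
    simp [h]
  have x24 : x0 * (b4 - p2 * a4) - x1 * (b4 - p2) + (a4 - 1) ≠ 0 := by
    intro h
    refine hx 2 4 (by decide) ((Tx 2 4).2 ?_)
    rw [← h, Fg_dt, hw]
    simp
  have x34 : x0 * (a3 * b4 - b3 * a4) - x1 * (b4 - b3) + (a4 - a3) ≠ 0 := by
    intro h
    refine hx 3 4 (by decide) ((Tx 3 4).2 ?_)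
    rw [← h, Fg_dt, hw]
    simp
  have t012 : dt (v 0) (v 1) (v 2) = 0 ↔ p2 = 0 := by
    have h : dt (w 0) (w 1) (w 2) = p2 := by rw [Fg_dt, hw]; simp
    rw [T, h]
  have t013 : dt (v 0) (v 1) (v 3) = 0 ↔ b3 = 0 := by
    have h : dt (w 0) (w 1) (w 3) = b3 := by rw [Fg_dt, hw]; simp
    rw [T, h]
  have t014 : dt (v 0) (v 1) (v 4) = 0 ↔ b4 = 0 := by
    have h : dt (w 0) (w 1) (w 4) = b4 := by rw [Fg_dt, hw]; simp
    rw [T, h]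
  have t023 : dt (v 0) (v 2) (v 3) = 0 ↔ b3 = p2 * a3 := by
    have h : dt (w 0) (w 2) (w 3) = b3 - p2 * a3 := by rw [Fg_dt, hw]; simp
    rw [T, h, sub_eq_zero]
  have t024 : dt (v 0) (v 2) (v 4) = 0 ↔ b4 = p2 * a4 := by
    have h : dt (w 0) (w 2) (w 4) = b4 - p2 * a4 := by rw [Fg_dt, hw]; simp
    rw [T, h, sub_eq_zero]
  have t034 : dt (v 0) (v 3) (v 4) = 0 ↔ a3 * b4 = b3 * a4 := by
    have h : dt (w 0) (w 3) (w 4) = a3 * b4 - b3 * a4 := by rw [Fg_dt, hw]; simp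
    rw [T, h, sub_eq_zero]
  have t123 : dt (v 1) (v 2) (v 3) = 0 ↔ b3 = p2 := by
    have h : dt (w 1) (w 2) (w 3) = -(b3 - p2) := by rw [Fg_dt, hw]; simp
    rw [T, h, neg_eq_zero, sub_eq_zero]
  have t124 : dt (v 1) (v 2) (v 4) = 0 ↔ b4 = p2 := by
    have h : dt (w 1) (w 2) (w 4) = -(b4 - p2) := by rw [Fg_dt, hw]; simp
    rw [T, h, neg_eq_zero, sub_eq_zero]
  have t134 : dt (v 1) (v 3) (v 4) = 0 ↔ b4 = b3 := by
    have h : dt (w 1) (w 3) (w 4) = -(b4 - b3) := by rw [Fg_dt, hw]; simp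
    rw [T, h, neg_eq_zero, sub_eq_zero]
  have t234 : dt (v 2) (v 3) (v 4) = 0 ↔ (a3 * b4 - b3 * a4) - (b4 - b3) + p2 * (a4 - a3) = 0 := by
    have h : dt (w 2) (w 3) (w 4) = (a3 * b4 - b3 * a4) - (b4 - b3) + p2 * (a4 - a3) := by rw [Fg_dt, hw]; simp
    rw [T, h]
  have r0 : x1 = 0 → dt x y (v 0) = 0 := by
    intro h
    rw [Txy, Fg_dt, hw]
    simp [h]
  have r1 : x0 = 0 → dt x y (v 1) = 0 := by
    intro h
    rw [Txy, Fg_dt, hw]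
    simp [h]
  have r2 : x1 = x0 → dt x y (v 2) = 0 := by
    intro h
    rw [Txy, Fg_dt, hw]
    simp [h]
  have r3 : x1 = x0 * a3 → dt x y (v 3) = 0 := by
    intro h
    rw [Txy, Fg_dt, hw]
    simp [h]
  have r4 : x1 = x0 * a4 → dt x y (v 4) = 0 := by
    intro h
    rw [Txy, Fg_dt, hw]
    simp [h]
  have s1 : ∀ i j k, dt (v i) (v j) (v k) = 0 → dt (v j) (v i) (v k) = 0 := fun i j k h => by rw [Fg_swap, h]
  have s2 : ∀ i j k, dt (v i) (v j) (v k) = 0 → dt (v i) (v k) (v j) = 0 := fun i j k h => by rw [Fg_swap', h]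
  have s1' : ∀ i j k, dt (v i) (v j) (v k) ≠ 0 → dt (v j) (v i) (v k) ≠ 0 := fun i j k h => by rw [Fg_swap]; exact h
  have s2' : ∀ i j k, dt (v i) (v j) (v k) ≠ 0 → dt (v i) (v k) (v j) ≠ 0 := fun i j k h => by rw [Fg_swap']; exact h
  rcases Fg_seven_core a3 q3 q3' a4 q4 q4' q34 x0 x1 qxy p2 x02 x12 b3 x03 x13 x23 b4 x04 x14 x24 x34 with
    ⟨h, ⟨g1, g2, g3, g4⟩ | ⟨g1, g2, g3, g4⟩⟩ | ⟨h, ⟨g1, g2, g3, g4⟩ | ⟨g1, g2, g3, g4⟩⟩ |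
    ⟨h, ⟨g1, g2, g3, g4⟩ | ⟨g1, g2, g3, g4⟩⟩ | ⟨h, ⟨g1, g2, g3, g4⟩ | ⟨g1, g2, g3, g4⟩⟩ |
    ⟨h, ⟨g1, g2, g3, g4⟩ | ⟨g1, g2, g3, g4⟩⟩
  · exact ⟨0, r0 h, Or.inl (Fg_p0 s1' s2' (fun e => g1 (t123.1 e)) (fun e => g2 (t124.1 e)) (fun e => g3 (t134.1 e))
      (fun e => g4 (t234.1 e)))⟩
  · exact ⟨0, r0 h, Or.inr (Fg_p0 s1 s2 (t123.2 g1) (t124.2 g2) (t134.2 g3) (t234.2 g4))⟩
  · exact ⟨1, r1 h, Or.inl (Fg_p1 s1' s2' (fun e => g1 (t023.1 e)) (fun e => g2 (t024.1 e)) (fun e => g3 (t034.1 e))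
      (fun e => g4 (t234.1 e)))⟩
  · exact ⟨1, r1 h, Or.inr (Fg_p1 s1 s2 (t023.2 g1) (t024.2 g2) (t034.2 g3) (t234.2 g4))⟩
  · exact ⟨2, r2 h, Or.inl (Fg_p2 s1' s2' (fun e => g1 (t013.1 e)) (fun e => g2 (t014.1 e)) (fun e => g3 (t034.1 e))
      (fun e => g4 (t134.1 e)))⟩
  · exact ⟨2, r2 h, Or.inr (Fg_p2 s1 s2 (t013.2 g1) (t014.2 g2) (t034.2 g3) (t134.2 g4))⟩
  · exact ⟨3, r3 h, Or.inl (Fg_p3 s1' s2' (fun e => g1 (t012.1 e)) (fun e => g2 (t014.1 e)) (fun e => g3 (t024.1 e))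
      (fun e => g4 (t124.1 e)))⟩
  · exact ⟨3, r3 h, Or.inr (Fg_p3 s1 s2 (t012.2 g1) (t014.2 g2) (t024.2 g3) (t124.2 g4))⟩
  · exact ⟨4, r4 h, Or.inl (Fg_p4 s1' s2' (fun e => g1 (t012.1 e)) (fun e => g2 (t013.1 e)) (fun e => g3 (t023.1 e))
      (fun e => g4 (t123.1 e)))⟩
  · exact ⟨4, r4 h, Or.inr (Fg_p4 s1 s2 (t012.2 g1) (t013.2 g2) (t023.2 g3) (t123.2 g4))⟩

end Pool.Agent.QU
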