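import Pool.Agent.QUN.Defs
import Pool.Agent.QUL.LRank
import Pool.Agent.FRM.F4

/-!
# QUN/Vec: a box of rank three as a set of vectors in a three-dimensional space

`vec_exists`: `van U p.2 ≤ van U p.1` has codimension three (`S.hU`); let `c₀`, `c₁`, `c₂` be a basis of a complement, `v x i = cᵢ x`. For `A ⊆ p.2` the space of `α : Fin 3 → K` with `∑ i, α i * v x i = 0` for all `x ∈ A`
is isomorphic to `van U (p.1 ∪ A) / van U p.2`, which has dimension `S.r p.2 - S.r (p.1 ∪ A)`. For `A = {i, j, k}` it is zero iff the determinant is not zero.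
-/

set_option autoImplicit false

namespace Pool.Agent.QU

variable {K E : Type} [Field K] [Fintype E] [DecidableEq E]

theorem vec_exists (S : TP K E) {p : Itv E} (hp : p.1 ⊆ p.2) (h : S.r p.2 = S.r p.1 + 3) : ∃ v : E → Fin 3 → K,
    ∀ i ∈ p.2, ∀ j ∈ p.2, ∀ k ∈ p.2, (S.r (p.1 ∪ {i, j, k}) = S.r p.1 + 3 ↔ (Matrix.of ![v i, v j, v k]).det ≠ 0) := by
  classical
  have hBA : van S.U p.2 ≤ van S.U p.1 := by
    intro c hc
    exact ⟨hc.1, fun x hx => hc.2 x (hp hx)⟩
  obtain ⟨D, hD⟩ := (van S.U p.2).exists_isCompl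
  set C : Submodule K (E → K) := D ⊓ van S.U p.1 with hC
  have hsup : van S.U p.2 ⊔ C = van S.U p.1 := by
    rw [hC, ← sup_inf_assoc_of_le D hBA, hD.sup_eq_top, top_inf_eq]
  have hinf : van S.U p.2 ⊓ C = ⊥ := by
    rw [hC, ← inf_assoc, hD.inf_eq_bot, bot_inf_eq]
  have hfr : Module.finrank K C = 3 := by
    have h1 := Submodule.finrank_sup_add_finrank_inf_eq (van S.U p.2) C
    rw [hsup, hinf, finrank_bot] at h1
    have h2 := S.hU p.1
    have h3 := S.hU p.2
    omega
  let b := Module.finBasisOfFinrankEq K C hfr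
  refine ⟨fun x m => (b m : E → K) x, ?_⟩
  have hmul : ∀ (i j k : E) (α : Fin 3 → K), ∀ t : Fin 3,
      (Matrix.of ![fun m => (b m : E → K) i, fun m => (b m : E → K) j,
        fun m => (b m : E → K) k]).mulVec α t
      = ((∑ m, α m • b m : C) : E → K) (![i, j, k] t) := by
    intro i j k α t
    have h1 : ∀ x : E, ((∑ m, α m • b m : C) : E → K) x = ∑ m, (b m : E → K) x * α m := by
      intro x
      rw [Submodule.coe_sum, Finset.sum_apply]
      apply Finset.sum_congr rfl
      intro m _
      rw [Submodule.coe_smul, Pi.smul_apply, smul_eq_mul, mul_comm]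
    rw [h1]
    fin_cases t <;> rfl
  intro i hi j hj k hk
  have hsub : p.1 ∪ {i, j, k} ⊆ p.2 := by
    intro x hx
    rcases Finset.mem_union.1 hx with hx | hx
    · exact hp hx
    · simp only [Finset.mem_insert, Finset.mem_singleton] at hx
      rcases hx with rfl | rfl | rfl
      · exact hi
      · exact hj
      · exact hk
  have hle : van S.U p.2 ≤ van S.U (p.1 ∪ {i, j, k}) := by
    intro c hc
    exact ⟨hc.1, fun x hx => hc.2 x (hsub hx)⟩
  constructor
  · intro hr hdet
    obtain ⟨α, hα, hMα⟩ := Matrix.exists_mulVec_eq_zero_iff.2 hdet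
    have heq : van S.U p.2 = van S.U (p.1 ∪ {i, j, k}) := by
      apply Submodule.eq_of_le_of_finrank_eq hle
      have h2 := S.hU p.2
      have h3 := S.hU (p.1 ∪ {i, j, k})
      omega
    set w : C := ∑ m, α m • b m with hw
    have hwv : ∀ t : Fin 3, (w : E → K) (![i, j, k] t) = 0 := by
      intro t
      rw [← hmul i j k α t, hMα]
      rfl
    have hwB : (w : E → K) ∈ van S.U p.2 := by
      rw [heq]
      have h1 : (w : E → K) ∈ van S.U p.1 := (Submodule.mem_inf.1 w.2).2
      refine ⟨h1.1, ?_⟩
      intro x hx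
      rcases Finset.mem_union.1 hx with hx | hx
      · exact h1.2 x hx
      · simp only [Finset.mem_insert, Finset.mem_singleton] at hx
        rcases hx with rfl | rfl | rfl
        · exact hwv 0
        · exact hwv 1
        · exact hwv 2
    have hw0 : w = 0 := by
      have h1 : (w : E → K) ∈ van S.U p.2 ⊓ C := ⟨hwB, w.2⟩
      rw [hinf, Submodule.mem_bot] at h1
      exact Subtype.ext h1
    apply hα
    funext m
    have h1 := (Fintype.linearIndependent_iff.1 b.linearIndependent) α (hw ▸ hw0) m
    exact h1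
  · intro hdet
    have heq : van S.U (p.1 ∪ {i, j, k}) ≤ van S.U p.2 := by
      intro w hw
      have h1 : w ∈ van S.U p.2 ⊔ C := by
        rw [hsup]
        exact ⟨hw.1, fun x hx => hw.2 x (Finset.mem_union_left _ hx)⟩
      obtain ⟨b0, hb0, c, hc, hbc⟩ := Submodule.mem_sup.1 h1
      have hcv : ∀ x ∈ ({i, j, k} : Finset E), c x = 0 := by
        intro x hx
        have h2 : w x = 0 := hw.2 x (Finset.mem_union_right _ hx)
        have h3 : b0 x = 0 := hb0.2 x (hsub (Finset.mem_union_right _ hx))
        have h4 := congrFun hbc x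
        rw [Pi.add_apply, h3, zero_add, h2] at h4
        exact h4
      have hrep : (∑ m, (b.repr ⟨c, hc⟩ m) • b m : C) = ⟨c, hc⟩ := b.sum_repr ⟨c, hc⟩
      have hM0 : (Matrix.of ![fun m => (b m : E → K) i, fun m => (b m : E → K) j,
          fun m => (b m : E → K) k]).mulVec (fun m => b.repr ⟨c, hc⟩ m) = 0 := by
        funext t
        rw [hmul i j k _ t, hrep]
        show c (![i, j, k] t) = 0
        fin_cases t
        · exact hcv i (by simp)
        · exact hcv j (by simp)
        · exact hcv k (by simp)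
      by_cases hα : (fun m => b.repr ⟨c, hc⟩ m) = 0
      · have hc0 : (⟨c, hc⟩ : C) = 0 := by
          rw [← hrep]
          apply Finset.sum_eq_zero
          intro m _
          have h2 := congrFun hα m
          have h3 : b.repr ⟨c, hc⟩ m = 0 := h2
          rw [h3, zero_smul]
        have hc1 : c = 0 := congrArg Subtype.val hc0
        rw [← hbc, hc1, add_zero]
        exact hb0
      · exact absurd (Matrix.exists_mulVec_eq_zero_iff.1 ⟨_, hα, hM0⟩) hdet
    have h4 : van S.U (p.1 ∪ {i, j, k}) = van S.U p.2 := le_antisymm heq hle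
    have h2 := S.hU p.2
    have h3 := S.hU (p.1 ∪ {i, j, k})
    rw [h4] at h3
    omega

end Pool.Agent.QU
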