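import Pool.Agent.QUN.Th
import Pool.Agent.QUN.Vec
import Pool.Agent.QUN.Fg
import Pool.Agent.QUN.Dul

/-!
# QUN/Sev: nondegeneracy for seven elements, the remaining five are rich

Main case: `q = rm true x (rm false y p)` is rich of rank two: `q.1 = insert y p.1`, `gs q` has five elements, `S.r (insert i (insert j (insert y p.1))) = S.r (insert y p.1) + 2 = S.r p.1 + 3` for `i ≠ j` in `gs q` (`th3_con1`), `S.r p.2 = S.r p.1 + 3`
(`th3_del1`). Suppose that `ND` fails. `X = p.1 ∪ {x, i, j}`: if `S.r (p.1 ∪ {x, i, j}) = S.r p.1 + 2` then `S.r (X.erase x) = S.r X` and `S.r (insert y (p.1 ∪ X)) = S.r (p.1 ∪ X) + 1`, so `ND` holds; so `S.r (p.1 ∪ {x, i, j}) = S.r p.1 + 3` for all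
`i ≠ j` in `gs q`. `vec_exists`, `fg_seven` for the vectors of the elements of `gs q` (`hxy`: otherwise all `i` are in the closure of `{x, y}`). It gives `a` with `S.r (p.1 ∪ {x, y, a}) = S.r p.1 + 2`. First alternative: all triples of `gs p \ {a}` have rank
three (`{x, y, i}`, `i ≠ a`: otherwise `a`, `i` are in the closure of `{x, y}` and `{y, a, i}` has rank two): `hNU (rm true a p)`. Second alternative: the four elements of `gs q \ {a}` have rank two, so
`lam S.r p {x, y, a} = 2 + 2 - 3 = 1`, against `Th3`.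
Rank three: then the dual box is in the main case: `S.dual`, `QUB.dp p`, with `x` and `y` exchanged: `rm true y (rm false x (dp p)) = dp (rm false y (rm true x p))` (`QUB.rm_dp`, `QUB.rm_comm`) is rich (`rich_dual`) of rank two (`QUB.rd`). It gives
`ND S.dual.r (dp p) y x true false`; `nd_dual` for `S.dual` gives `ND S.dual.dual.r (dp (dp p)) y x false true`; `QUB.rd_rd`, `QUB.dp_dp`; and `ND .. y x false true` is `ND .. x y true false` by definition.
-/

set_option autoImplicit false

open QUB

namespace Pool.Agent.QU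

open Pool.Agent.FRM

variable {E : Type} [Fintype E] [DecidableEq E]

omit [Fintype E] in
private theorem sev_u3 (A : Finset E) (i j k : E) : A ∪ {i, j, k} = insert i (insert j (insert k A)) := by
  ext z
  simp only [Finset.mem_union, Finset.mem_insert, Finset.mem_singleton]
  tauto

omit [Fintype E] in
private theorem sev_u2 (A : Finset E) (i j : E) : A ∪ {i, j} = insert i (insert j A) := by
  ext z
  simp only [Finset.mem_union, Finset.mem_insert, Finset.mem_singleton]
  tauto

omit [Fintype E] in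
private theorem sev_up3 {r : Finset E → ℤ} (hr : Rk r) (A : Finset E) (i j k : E) :
    r (insert i (insert j (insert k A))) ≤ r A + 3 := by
  have h1 := hr.unit A k
  have h2 := hr.unit (insert k A) j
  have h3 := hr.unit (insert j (insert k A)) i
  omega

omit [Fintype E] in
private theorem sev_cl {r : Finset E → ℤ} (hr : Rk r) {A : Finset E} (B : Finset E)
    (h : ∀ k ∈ B, r (insert k A) = r A) : r (A ∪ B) = r A := by
  induction B using Finset.induction_on with
  | empty => rw [Finset.union_empty]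
  | insert b B hb ih =>
    have h1 := ih fun k hk => h k (Finset.mem_insert_of_mem hk)
    have h2 := marg hr (Finset.subset_union_left (s₁ := A) (s₂ := B)) b
    have h3 := h b (Finset.mem_insert_self b B)
    have h4 := hr.mono (A ∪ B) (insert b (A ∪ B)) (Finset.subset_insert _ _)
    rw [Finset.union_insert]
    omega

omit [Fintype E] in
private theorem sev_x {r : Finset E → ℤ} (hr : Rk r) {p : Itv E} (hp : p.1 ⊆ p.2) {x y i j : E} (hx : x ∈ gs p)
    (hi : i ∈ gs p) (hj : j ∈ gs p) (hxi : x ≠ i) (hxj : x ≠ j)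
    (h : r (insert y (insert i (insert j p.1))) = r p.1 + 3) (hr3 : r p.2 = r p.1 + 3) (hy : y ∈ gs p)
    (hnd : ¬ ND r p x y true false) : r (insert x (insert i (insert j p.1))) = r p.1 + 3 := by
  by_contra hne
  apply hnd
  have hsub : insert x (insert i (insert j p.1)) ⊆ p.2 := by
    intro z hz
    simp only [Finset.mem_insert] at hz
    rcases hz with rfl | rfl | rfl | hz
    · exact (Finset.mem_sdiff.1 hx).1
    · exact (Finset.mem_sdiff.1 hi).1
    · exact (Finset.mem_sdiff.1 hj).1
    · exact hp hz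
  have h1 := sev_up3 hr p.1 x i j
  have h2 := hr.unit (insert i (insert j p.1)) y
  have h3 := hr.mono (insert i (insert j p.1)) (insert x (insert i (insert j p.1))) (Finset.subset_insert _ _)
  refine ⟨insert x (insert i (insert j p.1)), hsub, Finset.mem_insert_self _ _, ?_, ?_⟩
  · rw [Finset.erase_insert]
    · omega
    · simp only [Finset.mem_insert, not_or]
      exact ⟨hxi, hxj, (Finset.mem_sdiff.1 hx).2⟩
  · have h4 : p.1 ∪ insert x (insert i (insert j p.1)) = insert x (insert i (insert j p.1)) :=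
      Finset.union_eq_right.2 (((Finset.subset_insert _ _).trans (Finset.subset_insert _ _)).trans
        (Finset.subset_insert _ _))
    rw [h4]
    have h5 := hr.mono (insert y (insert i (insert j p.1))) (insert y (insert x (insert i (insert j p.1))))
      (Finset.insert_subset_insert _ (Finset.subset_insert _ _))
    have h6 := hr.mono (insert y (insert x (insert i (insert j p.1)))) p.2
      (Finset.insert_subset (Finset.mem_sdiff.1 hy).1 hsub)
    omega

private theorem sev_rk (S : TP F4 E) : Rk S.r :=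
  ⟨S.r_empty, fun _ _ h => S.r_mono h, fun A x => S.r_insert_le x A, fun A B => S.r_submod A B⟩

omit [Fintype E] in
private theorem sev_line {r : Finset E → ℤ} (hr : Rk r) {A : Finset E} {x y i j : E}
    (hc : r (insert x (insert y A)) = r A + 2) (h : r (insert y (insert i (insert j A))) = r A + 3)
    (h1 : r (insert x (insert y (insert i A))) ≠ r A + 3) (h2 : r (insert x (insert y (insert j A))) ≠ r A + 3) :
    False := by
  have a1 := sev_up3 hr A x y i
  have a2 := sev_up3 hr A x y j
  have e1 : insert x (insert y (insert i A)) = insert i (insert x (insert y A)) := by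
    rw [Finset.insert_comm y i, Finset.insert_comm x i]
  have e2 : insert x (insert y (insert j A)) = insert j (insert x (insert y A)) := by
    rw [Finset.insert_comm y j, Finset.insert_comm x j]
  rw [e1] at h1 a1
  rw [e2] at h2 a2
  have h3 := marg hr (Finset.subset_insert j (insert x (insert y A))) i
  have h4 : insert y (insert i (insert j A)) ⊆ insert i (insert j (insert x (insert y A))) := by
    intro z hz
    simp only [Finset.mem_insert] at hz ⊢
    tauto
  have h5 := hr.mono _ _ h4
  omega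

private theorem sev_main (S : TP F4 E) (hNU : NU S.r) {p : Itv E} (hp : p.1 ⊆ p.2) (h3 : Th3 S.r p)
    (hn : (gs p).card = 7) {x y : E} (hx : x ∈ gs p) (hy : y ∈ gs p) (hxy : x ≠ y)
    (h2 : S.r (p.2.erase x) = S.r (insert y p.1) + 2)
    (hR : ∀ i ∈ ((gs p).erase y).erase x, ∀ j ∈ ((gs p).erase y).erase x, i ≠ j →
      S.r (insert y p.1 ∪ {i, j}) = S.r (insert y p.1) + 2) : ND S.r p x y true false := by
  by_contra hnd
  have hr := sev_rk S
  have hdel := th3_del1 hr hp h3 (by omega) hx
  have hcon := th3_con1 hr hp h3 (by omega) hy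
  have hc2 := th3_con2 hr hp h3 (by omega) hx hy hxy
  have hr3 : S.r p.2 = S.r p.1 + 3 := by omega
  generalize hG : ((gs p).erase y).erase x = G at hR
  have hG5 : G.card = 5 := by
    rw [← hG, Finset.card_erase_of_mem (Finset.mem_erase.2 ⟨hxy, hx⟩), Finset.card_erase_of_mem hy, hn]
  have hGp : ∀ i, i ∈ G ↔ i ≠ x ∧ i ≠ y ∧ i ∈ gs p := by
    intro i
    rw [← hG, Finset.mem_erase, Finset.mem_erase]
  have hyij : ∀ i ∈ G, ∀ j ∈ G, i ≠ j → S.r (insert y (insert i (insert j p.1))) = S.r p.1 + 3 := by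
    intro i hi j hj hij
    have h4 := hR i hi j hj hij
    rw [sev_u2, Finset.insert_comm j y, Finset.insert_comm i y] at h4
    omega
  have hxij : ∀ i ∈ G, ∀ j ∈ G, i ≠ j → S.r (insert x (insert i (insert j p.1))) = S.r p.1 + 3 := by
    intro i hi j hj hij
    have hi' := (hGp i).1 hi
    have hj' := (hGp j).1 hj
    exact sev_x hr hp hx hi'.2.2 hj'.2.2 (Ne.symm hi'.1) (Ne.symm hj'.1) (hyij i hi j hj hij) hr3 hy hnd
  obtain ⟨v, hv⟩ := vec_exists S hp hr3
  have hv' : ∀ i ∈ gs p, ∀ j ∈ gs p, ∀ k ∈ gs p,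
      (S.r (insert i (insert j (insert k p.1))) = S.r p.1 + 3 ↔ dt (v i) (v j) (v k) ≠ 0) := by
    intro i hi j hj k hk
    have h4 := hv i (Finset.mem_sdiff.1 hi).1 j (Finset.mem_sdiff.1 hj).1 k (Finset.mem_sdiff.1 hk).1
    rw [sev_u3] at h4
    exact h4
  obtain ⟨e⟩ : Nonempty (Fin 5 ≃ G) := ⟨(Finset.equivFinOfCardEq hG5).symm⟩
  have hne : ∀ i j, i ≠ j → (e i).1 ≠ (e j).1 := fun i j hij h => hij (e.injective (Subtype.ext h))
  have heg : ∀ i, (e i).1 ∈ gs p := fun i => ((hGp _).1 (e i).2).2.2
  obtain ⟨a, ha, hcase⟩ := fg_seven (fun k => v (e k).1) (v x) (v y)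
    (fun i j hij => (hv' y hy _ (heg i) _ (heg j)).1 (hyij _ (e i).2 _ (e j).2 (hne i j hij)))
    (fun i j hij => (hv' x hx _ (heg i) _ (heg j)).1 (hxij _ (e i).2 _ (e j).2 (hne i j hij)))
    (by
      by_contra hall
      have hall' : ∀ i, dt (v x) (v y) (v (e i).1) = 0 := by
        intro i
        by_contra h4
        exact hall ⟨i, h4⟩
      have h01 : (0 : Fin 5) ≠ 1 := by decide
      exact sev_line hr hc2 (hyij _ (e 0).2 _ (e 1).2 (hne _ _ h01))
        (fun h4 => (hv' x hx y hy _ (heg 0)).1 h4 (hall' 0)) (fun h4 => (hv' x hx y hy _ (heg 1)).1 h4 (hall' 1)))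
  have haG : (e a).1 ∈ G := (e a).2
  have hag : (e a).1 ∈ gs p := heg a
  have hxya : S.r (insert x (insert y (insert (e a).1 p.1))) ≠ S.r p.1 + 3 := fun h4 =>
    (hv' x hx y hy _ hag).1 h4 ha
  have hsurj : ∀ i ∈ G, i ≠ (e a).1 → ∃ k, k ≠ a ∧ (e k).1 = i := by
    intro i hi hia
    obtain ⟨k, hk⟩ := e.surjective ⟨i, hi⟩
    have hk' : (e k).1 = i := by rw [hk]
    refine ⟨k, ?_, hk'⟩
    intro h4
    exact hia (by rw [← hk', h4])
  rcases hcase with hcase | hcase
  · -- the deletion of `a` is the uniform matroid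
    have hxyi : ∀ i ∈ G, i ≠ (e a).1 → S.r (insert x (insert y (insert i p.1))) = S.r p.1 + 3 := by
      intro i hi hia
      by_contra h4
      exact sev_line hr hc2 (hyij i hi _ haG hia) h4 hxya
    have hijk : ∀ i ∈ G, ∀ j ∈ G, ∀ k ∈ G, i ≠ (e a).1 → j ≠ (e a).1 → k ≠ (e a).1 → i ≠ j → i ≠ k → j ≠ k →
        S.r (insert i (insert j (insert k p.1))) = S.r p.1 + 3 := by
      intro i hi j hj k hk hia hja hka hij hik hjk
      obtain ⟨i', hi', rfl⟩ := hsurj i hi hia
      obtain ⟨j', hj', rfl⟩ := hsurj j hj hja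
      obtain ⟨k', hk', rfl⟩ := hsurj k hk hka
      refine (hv' _ (heg i') _ (heg j') _ (heg k')).2 ?_
      exact hcase i' j' k' hi' hj' hk' (fun h4 => hij (by rw [h4])) (fun h4 => hik (by rw [h4]))
        (fun h4 => hjk (by rw [h4]))
    have hq : gs (QUB.rm true (e a).1 p) = (gs p).erase (e a).1 := gs_rm _ _ _
    refine hNU (QUB.rm true (e a).1 p) (wf_rm hp hag) ?_ ?_ ?_
    · rw [hq, Finset.card_erase_of_mem hag, hn]
    · show S.r (p.2.erase (e a).1) = S.r p.1 + 3
      rw [th3_del1 hr hp h3 (by omega) hag, hr3]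
    · rw [hq]
      intro i hi j hj k hk hij hik hjk
      show S.r (p.1 ∪ {i, j, k}) = S.r p.1 + 3
      rw [sev_u3]
      obtain ⟨hia, hi⟩ := Finset.mem_erase.1 hi
      obtain ⟨hja, hj⟩ := Finset.mem_erase.1 hj
      obtain ⟨hka, hk⟩ := Finset.mem_erase.1 hk
      have key1 : ∀ u ∈ G, ∀ w ∈ G, u ≠ (e a).1 → w ≠ (e a).1 → u ≠ w → ∀ z, z = x ∨ z = y →
          S.r (insert z (insert u (insert w p.1))) = S.r p.1 + 3 := by
        rintro u hu w hw - - huw z (rfl | rfl)
        · exact hxij u hu w hw huw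
        · exact hyij u hu w hw huw
      have key2 : ∀ u ∈ G, u ≠ (e a).1 → ∀ z z', (z = x ∨ z = y) → (z' = x ∨ z' = y) → z ≠ z' →
          S.r (insert z (insert z' (insert u p.1))) = S.r p.1 + 3 := by
        rintro u hu hua z z' (rfl | rfl) (rfl | rfl) hzz
        · exact absurd rfl hzz
        · exact hxyi u hu hua
        · rw [Finset.insert_comm]
          exact hxyi u hu hua
        · exact absurd rfl hzz
      have hcl : ∀ z ∈ gs p, (z = x ∨ z = y) ∨ z ∈ G := by
        intro z hz
        by_cases h4 : z = x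
        · exact Or.inl (Or.inl h4)
        · by_cases h5 : z = y
          · exact Or.inl (Or.inr h5)
          · exact Or.inr ((hGp z).2 ⟨h4, h5, hz⟩)
      rcases hcl i hi with hi1 | hi1 <;> rcases hcl j hj with hj1 | hj1 <;> rcases hcl k hk with hk1 | hk1
      · exfalso
        rcases hi1 with rfl | rfl <;> rcases hj1 with rfl | rfl <;> rcases hk1 with rfl | rfl <;> tauto
      · exact key2 k hk1 hka i j hi1 hj1 hij
      · rw [Finset.insert_comm j k]
        exact key2 j hj1 hja i k hi1 hk1 hik
      · exact key1 j hj1 k hk1 hja hka hjk i hi1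
      · rw [Finset.insert_comm i j, Finset.insert_comm i k]
        exact key2 i hi1 hia j k hj1 hk1 hjk
      · rw [Finset.insert_comm i j]
        exact key1 i hi1 k hk1 hia hka hik j hj1
      · rw [Finset.insert_comm j k, Finset.insert_comm i k]
        exact key1 i hi1 j hj1 hia hja hij k hk1
      · exact hijk i hi1 j hj1 k hk1 hia hja hka hij hik hjk
  · -- the four remaining elements are on a line
    have hB : 1 < (G.erase (e a).1).card := by
      rw [Finset.card_erase_of_mem haG, hG5]
      norm_num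
    obtain ⟨b1, hb1, b2, hb2, hb⟩ := Finset.one_lt_card.1 hB
    obtain ⟨hb1a, hb1G⟩ := Finset.mem_erase.1 hb1
    obtain ⟨hb2a, hb2G⟩ := Finset.mem_erase.1 hb2
    have h12 : S.r p.1 + 2 ≤ S.r (insert b1 (insert b2 p.1)) := by
      have h4 := hyij b1 hb1G b2 hb2G hb
      have h5 := hr.unit (insert b1 (insert b2 p.1)) y
      omega
    have h12' : S.r (insert b1 (insert b2 p.1)) ≤ S.r p.1 + 2 := by
      have h4 := hr.unit p.1 b2
      have h5 := hr.unit (insert b2 p.1) b1
      omega
    have hcl : S.r (insert b1 (insert b2 p.1) ∪ G.erase (e a).1) = S.r (insert b1 (insert b2 p.1)) := by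
      refine sev_cl hr _ fun k hk => ?_
      obtain ⟨hka, hkG⟩ := Finset.mem_erase.1 hk
      by_cases h1 : k = b1
      · rw [h1, Finset.insert_eq_of_mem (Finset.mem_insert_self _ _)]
      by_cases h1' : k = b2
      · rw [h1', Finset.insert_eq_of_mem (Finset.mem_insert_of_mem (Finset.mem_insert_self _ _))]
      obtain ⟨i', hi', hei⟩ := hsurj k hkG hka
      obtain ⟨j', hj', hej⟩ := hsurj b1 hb1G hb1a
      obtain ⟨k', hk', hek⟩ := hsurj b2 hb2G hb2a
      have h4 := hcase i' j' k' hi' hj' hk' (fun h5 => h1 (by rw [← hei, ← hej, h5]))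
        (fun h5 => h1' (by rw [← hei, ← hek, h5])) (fun h5 => hb (by rw [← hej, ← hek, h5]))
      have h5 : S.r (insert k (insert b1 (insert b2 p.1))) ≠ S.r p.1 + 3 := by
        intro h6
        rw [← hei, ← hej, ← hek] at h6
        exact (hv' _ (heg i') _ (heg j') _ (heg k')).1 h6 h4
      have h6 := sev_up3 hr p.1 k b1 b2
      have h7 := hr.mono (insert b1 (insert b2 p.1)) (insert k (insert b1 (insert b2 p.1))) (Finset.subset_insert _ _)
      omega
    have hAsub : ({x, y, (e a).1} : Finset E) ⊆ gs p := by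
      intro z hz
      simp only [Finset.mem_insert, Finset.mem_singleton] at hz
      rcases hz with rfl | rfl | rfl
      · exact hx
      · exact hy
      · exact hag
    have hax : (e a).1 ≠ x := ((hGp _).1 haG).1
    have hay : (e a).1 ≠ y := ((hGp _).1 haG).2.1
    have hAc : ({x, y, (e a).1} : Finset E).card = 3 := by
      rw [Finset.card_insert_of_notMem, Finset.card_insert_of_notMem, Finset.card_singleton]
      · rw [Finset.mem_singleton]
        exact Ne.symm hay
      · simp only [Finset.mem_insert, Finset.mem_singleton, not_or]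
        exact ⟨hxy, Ne.symm hax⟩
    have hlam := h3 {x, y, (e a).1} hAsub (by omega) (by
      rw [Finset.card_sdiff_of_subset hAsub]
      omega)
    unfold QUB.lam at hlam
    have h4 : p.2 \ {x, y, (e a).1} ⊆ insert b1 (insert b2 p.1) ∪ G.erase (e a).1 := by
      intro z hz
      obtain ⟨hz2, hz3⟩ := Finset.mem_sdiff.1 hz
      simp only [Finset.mem_insert, Finset.mem_singleton, not_or] at hz3
      by_cases hz1 : z ∈ p.1
      · exact Finset.mem_union_left _ (Finset.mem_insert_of_mem (Finset.mem_insert_of_mem hz1))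
      · exact Finset.mem_union_right _ (Finset.mem_erase.2 ⟨hz3.2.2, (hGp z).2 ⟨hz3.1, hz3.2.1,
          Finset.mem_sdiff.2 ⟨hz2, hz1⟩⟩⟩)
    have h5 := hr.mono _ _ h4
    rw [sev_u3] at hlam
    have h6 := sev_up3 hr p.1 x y (e a).1
    omega

theorem seven (S : TP F4 E) (hNU : NU S.r) {p : Itv E} (hp : p.1 ⊆ p.2) (hc : Cn S.r p) (h3 : Th3 S.r p) (hn : (gs p).card = 7) {x y : E}
    (hx : x ∈ gs p) (hy : y ∈ gs p) (hxy : x ≠ y) (hR : Rich S.r (QUB.rm true x (QUB.rm false y p))) : ND S.r p x y true false := by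
  have hR' := hR
  obtain ⟨hq, h5, h⟩ := hR
  have hgs : gs (QUB.rm true x (QUB.rm false y p)) = ((gs p).erase y).erase x := by rw [gs_rm, gs_rm]
  rcases h with ⟨h2, h⟩ | ⟨h2, h⟩
  · rw [hgs] at h
    exact sev_main S hNU hp h3 hn hx hy hxy h2 h
  · have hD := rich_dual S hR'
    have hgd : gs (QUB.dp p) = gs p := gs_dp p
    have e1 : QUB.rm true y (QUB.rm false x (QUB.dp p)) = QUB.dp (QUB.rm true x (QUB.rm false y p)) := by
      rw [QUB.rm_dp, QUB.rm_dp, Bool.not_false, Bool.not_true, QUB.rm_comm]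
    rw [← e1] at hD
    have hgs' : gs (QUB.rm true y (QUB.rm false x (QUB.dp p))) = ((gs (QUB.dp p)).erase x).erase y := by
      rw [gs_rm, gs_rm]
    obtain ⟨hqd, h5d, hd⟩ := hD
    rcases hd with ⟨h2d, hd⟩ | ⟨h2d, hd⟩
    · rw [hgs'] at hd
      have h6 := sev_main S.dual (nu_dual S hNU) (wf_dp hp) (th3_dual S hp h3) (by rw [hgd, hn])
        (by rw [hgd]; exact hy) (by rw [hgd]; exact hx) (Ne.symm hxy) h2d hd
      have h7 := nd_dual S.dual (by rw [hgd]; exact hy) (by rw [hgd]; exact hx) (Ne.symm hxy) h6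
      have e2 : S.dual.dual.r = S.r := QUB.rd_rd (sev_rk S)
      rw [e2, QUB.dp_dp] at h7
      exact h7
    · exfalso
      rw [e1] at h2d
      generalize QUB.rm true x (QUB.rm false y p) = q at *
      have h6 : QUB.rd S.r q.1ᶜ = QUB.rd S.r q.2ᶜ + 3 := h2d
      unfold QUB.rd at h6
      rw [compl_compl, compl_compl] at h6
      have h7 := Finset.card_sdiff_add_card_eq_card hq
      have h8 := Finset.card_add_card_compl q.1
      have h9 := Finset.card_add_card_compl q.2
      have h10 : (q.2 \ q.1).card = 5 := h5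
      omega

end Pool.Agent.QU
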