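import Pool.Agent.QUN.Defs
import Pool.Agent.QUL.LRank
import Pool.Agent.QUL.LHom

/-!
# QUN/Chd: a rigid element

`T = dg l` on `rm true x p`, `T₂ = T - dg l` vanishes there and is in `InV`. `S.spt_one` for `insert x (p.1 ∪ A)` and `h1`: `d₀ ∈ spt W (insert x (p.1 ∪ A))`, `d₀ x = 1`; in the same way `d₁` for `B`. For `c ∈ van U (p.1 ∪ A)`: `c x = 0`
(`S.van_eq_zero`, `h1`), so `c` and `d₀` are disjoint and `T₂ c d₀ = 0`. For `c ∈ van U (p.1 ∪ B)`: `T₂ c d₁ = 0`, and `T₂ c (d₀ - d₁) = 0` because `d₀ - d₁ ∈ spt W (p.2.erase x)`; so `T₂ c d₀ = 0`. By `S.hU` and `h3`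
`van U (p.1 ∪ A) ⊔ van U (p.1 ∪ B) = van U (insert x p.1)` (the intersection is `van_union`; `Submodule.eq_of_le_of_finrank_eq`), so `T₂ c d₀ = 0` for all `c ∈ van U p.1` with `c x = 0`, so there is `k` with `T₂ c d₀ = k * c x` for all
`c ∈ van U p.1` (take `c₀` with `c₀ x = 1` if there is one). For all `c`, `d` of the box `T₂ c d = T₂ c (d - d x • d₀) + d x * T₂ c d₀ = k * c x * d x`, the diagonal form `dg (Pi.single x k)`.
-/

set_option autoImplicit false

open Module (finrank)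

namespace Pool.Agent.QU

variable {K E : Type} [Field K] [Fintype E] [DecidableEq E]

/-- `x` is the intersection of the spans of `A` and of `B` -/
theorem chord (S : TP K E) {p : Itv E} (hp : p.1 ⊆ p.2) {x : E} (hx : x ∈ gs p) {A B : Finset E} (hA : A ⊆ (gs p).erase x)
    (hB : B ⊆ (gs p).erase x) (h1 : S.r (insert x (p.1 ∪ A)) = S.r (p.1 ∪ A)) (h2 : S.r (insert x (p.1 ∪ B)) = S.r (p.1 ∪ B))
    (h3 : S.r (p.1 ∪ A) + S.r (p.1 ∪ B) = S.r (p.1 ∪ (A ∪ B)) + S.r (insert x p.1)) {T : Fm K E} (hT : InV S.U S.W p T)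
    (h : EqD S.U S.W (QUB.rm true x p) T 0) : EqD S.U S.W p T 0 := by
  obtain ⟨hx2, hx1⟩ := Finset.mem_sdiff.1 hx
  obtain ⟨l, hl⟩ := h
  have hT2 : InV S.U S.W p (T - dg l) := hT.sub (dg_inV p l)
  have hz : ∀ c ∈ van S.U p.1, ∀ d ∈ spt S.W p.2, d x = 0 → (T - dg l) c d = 0 := by
    intro c hc d hd hdx
    have hd' : d ∈ spt S.W (p.2.erase x) := by
      refine ⟨hd.1, fun y hy => ?_⟩
      by_cases hyx : y = x
      · rw [hyx]
        exact hdx
      · exact hd.2 y fun hy2 => hy (Finset.mem_erase.2 ⟨hyx, hy2⟩)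
    have h4 := hl c hc d hd'
    rw [zero_add] at h4
    rw [LinearMap.sub_apply, LinearMap.sub_apply, h4, sub_self]
  have hd : ∀ X : Finset E, X ⊆ (gs p).erase x → S.r (insert x (p.1 ∪ X)) = S.r (p.1 ∪ X) →
      ∃ d ∈ spt S.W p.2, d x = 1 ∧ ∀ c ∈ van S.U (p.1 ∪ X), (T - dg l) c d = 0 := by
    intro X hX hr
    have hxX : x ∉ p.1 ∪ X := by
      intro h4
      rcases Finset.mem_union.1 h4 with h4 | h4
      · exact hx1 h4
      · exact (Finset.mem_erase.1 (hX h4)).1 rfl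
    obtain ⟨d, hd1, hd2⟩ := S.spt_one (G := insert x (p.1 ∪ X)) (Finset.mem_insert_self _ _)
      (by rw [Finset.erase_insert hxX, hr])
    have hG : insert x (p.1 ∪ X) ⊆ p.2 := by
      refine Finset.insert_subset hx2 (Finset.union_subset hp fun y hy => ?_)
      exact (Finset.mem_sdiff.1 (Finset.mem_erase.1 (hX hy)).2).1
    refine ⟨d, spt_mono hG hd1, hd2, fun c hc => ?_⟩
    refine hT2 c (van_anti Finset.subset_union_left hc) d (spt_mono hG hd1) fun y => ?_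
    by_cases hy : y ∈ insert x (p.1 ∪ X)
    · rcases Finset.mem_insert.1 hy with rfl | hy
      · rw [S.van_eq_zero hr c hc, zero_mul]
      · rw [hc.2 y hy, zero_mul]
    · rw [hd1.2 y hy, mul_zero]
  obtain ⟨d₀, hd0, hd0x, hd0c⟩ := hd A hA h1
  obtain ⟨d₁, hd1, hd1x, hd1c⟩ := hd B hB h2
  have hB' : ∀ c ∈ van S.U (p.1 ∪ B), (T - dg l) c d₀ = 0 := by
    intro c hc
    have h4 : (T - dg l) c (d₀ - d₁) = 0 :=
      hz c (van_anti Finset.subset_union_left hc) _ ((spt S.W p.2).sub_mem hd0 hd1)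
        (by rw [Pi.sub_apply, hd0x, hd1x, sub_self])
    rw [map_sub, hd1c c hc, sub_zero] at h4
    exact h4
  have hsup : van S.U (p.1 ∪ A) ⊔ van S.U (p.1 ∪ B) = van S.U (insert x p.1) := by
    have hle : van S.U (p.1 ∪ A) ⊔ van S.U (p.1 ∪ B) ≤ van S.U (insert x p.1) := by
      have h4 : ∀ X : Finset E, S.r (insert x (p.1 ∪ X)) = S.r (p.1 ∪ X) →
          van S.U (p.1 ∪ X) ≤ van S.U (insert x p.1) := by
        intro X hr c hc
        refine ⟨hc.1, fun y hy => ?_⟩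
        rcases Finset.mem_insert.1 hy with rfl | hy
        · exact S.van_eq_zero hr c hc
        · exact hc.2 y (Finset.mem_union_left _ hy)
      exact sup_le (h4 A h1) (h4 B h2)
    refine Submodule.eq_of_le_of_finrank_eq hle ?_
    have h4 := Submodule.finrank_sup_add_finrank_inf_eq (van S.U (p.1 ∪ A)) (van S.U (p.1 ∪ B))
    rw [← van_union, ← Finset.union_union_distrib_left] at h4
    have e1 := S.hU (p.1 ∪ A)
    have e2 := S.hU (p.1 ∪ B)
    have e3 := S.hU (p.1 ∪ (A ∪ B))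
    have e4 := S.hU (insert x p.1)
    have h5 : (finrank K ↥(van S.U (p.1 ∪ A) ⊔ van S.U (p.1 ∪ B)) : ℤ) +
        finrank K (van S.U (p.1 ∪ (A ∪ B))) =
        finrank K (van S.U (p.1 ∪ A)) + finrank K (van S.U (p.1 ∪ B)) := by exact_mod_cast h4
    have h6 : (finrank K ↥(van S.U (p.1 ∪ A) ⊔ van S.U (p.1 ∪ B)) : ℤ) =
        finrank K (van S.U (insert x p.1)) := by linarith
    exact_mod_cast h6
  have hx0 : ∀ c ∈ van S.U p.1, c x = 0 → (T - dg l) c d₀ = 0 := by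
    intro c hc hcx
    have h4 : c ∈ van S.U (insert x p.1) := by
      refine ⟨hc.1, fun y hy => ?_⟩
      rcases Finset.mem_insert.1 hy with rfl | hy
      · exact hcx
      · exact hc.2 y hy
    rw [← hsup] at h4
    obtain ⟨a, ha, b, hb, rfl⟩ := Submodule.mem_sup.1 h4
    rw [map_add, LinearMap.add_apply, hd0c a ha, hB' b hb, add_zero]
  obtain ⟨k, hk⟩ : ∃ k : K, ∀ c ∈ van S.U p.1, (T - dg l) c d₀ = k * c x := by
    by_cases h4 : ∀ c ∈ van S.U p.1, c x = 0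
    · exact ⟨0, fun c hc => by rw [hx0 c hc (h4 c hc), zero_mul]⟩
    · push Not at h4
      obtain ⟨c₀, hc0, hc0x⟩ := h4
      refine ⟨(T - dg l) c₀ d₀ * (c₀ x)⁻¹, fun c hc => ?_⟩
      have h5 : c - (c x * (c₀ x)⁻¹) • c₀ ∈ van S.U p.1 :=
        (van S.U p.1).sub_mem hc ((van S.U p.1).smul_mem _ hc0)
      have h6 : (c - (c x * (c₀ x)⁻¹) • c₀) x = 0 := by
        rw [Pi.sub_apply, Pi.smul_apply, smul_eq_mul, mul_assoc, inv_mul_cancel₀ hc0x, mul_one, sub_self]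
      have h7 := hx0 _ h5 h6
      rw [map_sub, LinearMap.sub_apply, map_smul, LinearMap.smul_apply, smul_eq_mul] at h7
      rw [sub_eq_zero.1 h7]
      ring
  refine ⟨l + Pi.single x k, fun c hc d hd => ?_⟩
  have h4 : (T - dg l) c (d - d x • d₀) = 0 := by
    refine hz c hc _ ((spt S.W p.2).sub_mem hd ((spt S.W p.2).smul_mem _ hd0)) ?_
    rw [Pi.sub_apply, Pi.smul_apply, smul_eq_mul, hd0x, mul_one, sub_self]
  rw [map_sub, map_smul, smul_eq_mul, hk c hc, LinearMap.sub_apply, LinearMap.sub_apply] at h4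
  rw [zero_add, dg_add, LinearMap.add_apply, LinearMap.add_apply, dg_single]
  have h5 := sub_eq_zero.1 h4
  rw [sub_eq_iff_eq_add.1 h5]
  ring

end Pool.Agent.QU
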