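import Pool.Agent.QUN.Th
import Pool.Agent.QUN.Vec
import Pool.Agent.QUN.Fg
import Pool.Agent.QUN.Chd
import Pool.Agent.QUN.Dul

/-!
# QUN/Six: six elements, one of them is removed and the rest is rich
-/

set_option autoImplicit false

open QUB

namespace Pool.Agent.QU

open Pool.Agent.FRM

variable {E : Type} [Fintype E] [DecidableEq E]

private theorem six_rk (S : TP F4 E) : Rk S.r :=
  ⟨S.r_empty, fun _ _ h => S.r_mono h, fun A x => S.r_insert_le x A, fun A B => S.r_submod A B⟩

private theorem six_van_eq (S : TP F4 E) {p : Itv E} (hp : p.1 ⊆ p.2) (h : S.r p.2 = S.r p.1 + 2) {x y : E}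
    (hx : x ∈ gs p) (hy : y ∈ gs p) (hxy : S.r (insert x (insert y p.1)) = S.r p.1 + 2) {c : E → F4}
    (hc : c ∈ van S.U p.1) (hcx : c x = 0) (hcy : c y = 0) : ∀ z ∈ p.2, c z = 0 := by
  have hsub : insert x (insert y p.1) ⊆ p.2 := by
    intro z hz
    rw [Finset.mem_insert, Finset.mem_insert] at hz
    rcases hz with rfl | rfl | hz
    · exact (Finset.mem_sdiff.1 hx).1
    · exact (Finset.mem_sdiff.1 hy).1
    · exact hp hz
  have hle : van S.U p.2 ≤ van S.U (insert x (insert y p.1)) := van_anti hsub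
  have h1 := S.hU p.2
  have h2 := S.hU (insert x (insert y p.1))
  have h3 : Module.finrank F4 (van S.U p.2) = Module.finrank F4 (van S.U (insert x (insert y p.1))) := by
    have : (Module.finrank F4 (van S.U p.2) : ℤ) = Module.finrank F4 (van S.U (insert x (insert y p.1))) := by
      rw [h1, h2, h, hxy]
    exact_mod_cast this
  have h4 := Submodule.eq_of_le_of_finrank_eq hle h3
  have h5 : c ∈ van S.U (insert x (insert y p.1)) := by
    refine ⟨hc.1, fun z hz => ?_⟩
    rw [Finset.mem_insert, Finset.mem_insert] at hz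
    rcases hz with rfl | rfl | hz
    · exact hcx
    · exact hcy
    · exact hc.2 z hz
  rw [← h4] at h5
  exact h5.2

theorem line_six (S : TP F4 E) {p : Itv E} (hp : p.1 ⊆ p.2) (h : S.r p.2 = S.r p.1 + 2)
    (h2 : ∀ i ∈ gs p, ∀ j ∈ gs p, i ≠ j → S.r (insert i (insert j p.1)) = S.r p.1 + 2) : (gs p).card ≤ 5 := by
  classical
  by_cases hc1 : (gs p).card ≤ 1
  · omega
  obtain ⟨i, hi, j, hj, hij⟩ := Finset.one_lt_card.1 (not_le.1 hc1)
  have hr := six_rk S
  have hij2 := h2 i hi j hj hij
  have hji2 := h2 j hj i hi hij.symm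
  have a1 := hr.unit p.1 j
  have a2 := hr.unit (insert j p.1) i
  have a3 := hr.unit p.1 i
  have a4 := hr.unit (insert i p.1) j
  obtain ⟨c₀, hc₀, hc₀i⟩ := S.van_one (C := insert j p.1) (x := i) (by linarith)
  obtain ⟨c₁, hc₁, hc₁j⟩ := S.van_one (C := insert i p.1) (x := j) (by linarith)
  have hc₀j : c₀ j = 0 := hc₀.2 j (Finset.mem_insert_self _ _)
  have hc₁i : c₁ i = 0 := hc₁.2 i (Finset.mem_insert_self _ _)
  have hv₀ : c₀ ∈ van S.U p.1 := van_anti (Finset.subset_insert _ _) hc₀
  have hv₁ : c₁ ∈ van S.U p.1 := van_anti (Finset.subset_insert _ _) hc₁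
  have hi2 : i ∈ p.2 := (Finset.mem_sdiff.1 hi).1
  have hj2 : j ∈ p.2 := (Finset.mem_sdiff.1 hj).1
  have key : ∀ x ∈ gs p, ∀ y ∈ gs p, x ≠ y → c₀ x * c₁ y ≠ c₀ y * c₁ x := by
    intro x hx y hy hxy hdet
    have hz := h2 x hx y hy hxy
    have k1 := six_van_eq S hp h hx hy hz (c := c₁ x • c₀ - c₀ x • c₁)
      ((van S.U p.1).sub_mem ((van S.U p.1).smul_mem _ hv₀) ((van S.U p.1).smul_mem _ hv₁))
      (by simp only [Pi.sub_apply, Pi.smul_apply, smul_eq_mul]; ring)
      (by simp only [Pi.sub_apply, Pi.smul_apply, smul_eq_mul]; linear_combination -hdet)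
    have k2 := k1 i hi2
    have k3 := k1 j hj2
    simp only [Pi.sub_apply, Pi.smul_apply, smul_eq_mul, hc₀i, hc₁i, hc₀j, hc₁j, mul_one, mul_zero, sub_zero,
      zero_sub, neg_eq_zero] at k2 k3
    have k4 := six_van_eq S hp h hx hy hz (c := c₁ y • c₀ - c₀ y • c₁)
      ((van S.U p.1).sub_mem ((van S.U p.1).smul_mem _ hv₀) ((van S.U p.1).smul_mem _ hv₁))
      (by simp only [Pi.sub_apply, Pi.smul_apply, smul_eq_mul]; linear_combination hdet)
      (by simp only [Pi.sub_apply, Pi.smul_apply, smul_eq_mul]; ring)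
    have k5 := k4 j hj2
    simp only [Pi.sub_apply, Pi.smul_apply, smul_eq_mul, hc₀j, hc₁j, mul_one, mul_zero,
      zero_sub, neg_eq_zero] at k5
    have k6 := six_van_eq S hp h hx hy hz hv₀ k3 k5 i hi2
    rw [hc₀i] at k6
    exact one_ne_zero k6
  let g : E → Option F4 := fun x => if c₁ x = 0 then none else some (c₀ x / c₁ x)
  have hg : Set.InjOn g (gs p) := by
    intro x hx y hy hxy
    by_contra hne
    have hk := key x (Finset.mem_coe.1 hx) y (Finset.mem_coe.1 hy) hne
    change (if c₁ x = 0 then none else some (c₀ x / c₁ x)) = (if c₁ y = 0 then none else some (c₀ y / c₁ y)) at hxy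
    split_ifs at hxy with q1 q2 q2
    · rw [q1, q2, mul_zero, mul_zero] at hk
      exact hk rfl
    · rw [Option.some.injEq, div_eq_div_iff q1 q2] at hxy
      exact hk hxy
  have hcard := Finset.card_le_card_of_injOn g (fun x _ => Finset.mem_univ (g x)) hg
  have h5 : (Finset.univ : Finset (Option F4)).card = 5 := by
    rw [Finset.card_univ, Fintype.card_option]
    rfl
  omega

private theorem six_true (S : TP F4 E) (hNU : NU S.r) {p : Itv E} (hp : p.1 ⊆ p.2) (h3 : Th3 S.r p) (hn : (gs p).card = 6) {x : E}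
    (hx : x ∈ gs p) (hR : Rich S.r (QUB.rm true x p)) {T : Fm F4 E} (hT : InV S.U S.W p T) (h : EqD S.U S.W (QUB.rm true x p) T 0) :
    EqD S.U S.W p T 0 := by
  classical
  have hr := six_rk S
  have hn4 : 4 ≤ (gs p).card := by omega
  have hgq : gs (QUB.rm true x p) = (gs p).erase x := QUB.gs_rm true x p
  have hdel : S.r (p.2.erase x) = S.r p.2 := th3_del1 hr hp h3 hn4 hx
  obtain ⟨_, h5, hR⟩ := hR
  have hx2 : x ∈ p.2 := (Finset.mem_sdiff.1 hx).1
  rcases hR with ⟨hR1, _⟩ | ⟨hR1, hR2⟩
  · exfalso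
    have hR1' : S.r (p.2.erase x) = S.r p.1 + 2 := hR1
    have := line_six S hp (by linarith) (fun i hi j hj hij => th3_con2 hr hp h3 hn4 hi hj hij)
    omega
  · have hR1' : S.r (p.2.erase x) = S.r p.1 + 3 := hR1
    have hr3 : S.r p.2 = S.r p.1 + 3 := by linarith
    have hq3 : ∀ i ∈ gs (QUB.rm true x p), ∀ j ∈ gs (QUB.rm true x p), ∀ k ∈ gs (QUB.rm true x p), i ≠ j → i ≠ k → j ≠ k →
        S.r (p.1 ∪ {i, j, k}) = S.r p.1 + 3 := hR2
    obtain ⟨v, hv⟩ := vec_exists S hp hr3
    let e := (Finset.equivFinOfCardEq h5).symm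
    let w : Fin 5 → E := fun a => (e a : E)
    have hwm : ∀ a, w a ∈ gs (QUB.rm true x p) := fun a => (e a).2
    have hwi : ∀ a b, a ≠ b → w a ≠ w b := by
      intro a b hab he
      exact hab (e.injective (Subtype.ext he))
    have hws : ∀ y ∈ gs (QUB.rm true x p), ∃ a, w a = y := by
      intro y hy
      refine ⟨e.symm ⟨y, hy⟩, ?_⟩
      change ((e (e.symm ⟨y, hy⟩) : _) : E) = y
      rw [Equiv.apply_symm_apply]
    have hwp : ∀ a, w a ∈ gs p ∧ w a ≠ x := by
      intro a
      have h1 := hwm a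
      rw [hgq, Finset.mem_erase] at h1
      exact ⟨h1.2, h1.1⟩
    have hw2 : ∀ a, w a ∈ p.2 := fun a => (Finset.mem_sdiff.1 (hwp a).1).1
    have hdv : ∀ a b c, a ≠ b → a ≠ c → b ≠ c → dt (v (w a)) (v (w b)) (v (w c)) ≠ 0 := by
      intro a b c hab hac hbc
      exact (hv _ (hw2 a) _ (hw2 b) _ (hw2 c)).1
        (hq3 _ (hwm a) _ (hwm b) _ (hwm c) (hwi a b hab) (hwi a c hac) (hwi b c hbc))
    have hcon : ∀ a, S.r (insert x (insert (w a) p.1)) = S.r p.1 + 2 := fun a =>
      th3_con2 hr hp h3 hn4 hx (hwp a).1 (hwp a).2.symm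
    have hset3 : ∀ y z u : E, p.1 ∪ {y, z, u} = insert y (insert z (insert u p.1)) := by
      intro y z u
      ext s
      simp only [Finset.mem_union, Finset.mem_insert, Finset.mem_singleton]
      tauto
    -- the triples with `x` of determinant zero
    have hzero : ∀ a b, dt (v x) (v (w a)) (v (w b)) = 0 → S.r (insert x (insert (w a) (insert (w b) p.1))) = S.r p.1 + 2 := by
      intro a b hd
      have h1 : ¬ S.r (p.1 ∪ {x, w a, w b}) = S.r p.1 + 3 := fun he =>
        (hv _ hx2 _ (hw2 a) _ (hw2 b)).1 he hd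
      rw [hset3] at h1
      have h2 := hr.mono (insert x (insert (w a) p.1)) (insert x (insert (w a) (insert (w b) p.1)))
        (Finset.insert_subset_insert _ (Finset.insert_subset_insert _ (Finset.subset_insert _ _)))
      have h3' := hr.unit (insert (w a) (insert (w b) p.1)) x
      have h4 := hr.unit (insert (w b) p.1) (w a)
      have h5' := hr.unit p.1 (w b)
      have h6 := hcon a
      omega
    have hxx : ∀ a, ∃ b, b ≠ a ∧ dt (v x) (v (w a)) (v (w b)) ≠ 0 := by
      intro a
      by_contra hcon2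
      push Not at hcon2
      obtain ⟨b, c, hb, hc, hbc⟩ : ∃ b c : Fin 5, b ≠ a ∧ c ≠ a ∧ b ≠ c := by
        clear hcon2
        revert a
        decide
      have k1 := hzero a b (hcon2 b hb)
      have k2 := hzero a c (hcon2 c hc)
      have k3 := hr.sub (insert x (insert (w a) (insert (w b) p.1))) (insert x (insert (w a) (insert (w c) p.1)))
      have k4 := hr.mono (insert x (insert (w a) p.1))
        (insert x (insert (w a) (insert (w b) p.1)) ∩ insert x (insert (w a) (insert (w c) p.1)))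
        (Finset.subset_inter
          (Finset.insert_subset_insert _ (Finset.insert_subset_insert _ (Finset.subset_insert _ _)))
          (Finset.insert_subset_insert _ (Finset.insert_subset_insert _ (Finset.subset_insert _ _))))
      have k5 := hq3 _ (hwm a) _ (hwm b) _ (hwm c) (hwi a b hb.symm) (hwi a c hc.symm) (hwi b c hbc)
      have k6 := hr.mono (p.1 ∪ {w a, w b, w c})
        (insert x (insert (w a) (insert (w b) p.1)) ∪ insert x (insert (w a) (insert (w c) p.1))) (by
          intro s hs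
          simp only [Finset.mem_union, Finset.mem_insert, Finset.mem_singleton] at hs ⊢
          tauto)
      have k7 := hcon a
      omega
    rcases fg_six (fun a => v (w a)) (v x) hdv hxx with hA | ⟨i, j, k, l, hij, hik, hil, hjk, hjl, hkl, hA, hB⟩
    · exfalso
      have hxab : ∀ a b, a ≠ b → S.r (p.1 ∪ {x, w a, w b}) = S.r p.1 + 3 := fun a b hab =>
        (hv _ hx2 _ (hw2 a) _ (hw2 b)).2 (hA a b hab)
      have hxyz : ∀ y ∈ gs p, ∀ z ∈ gs p, y ≠ x → z ≠ x → y ≠ z → S.r (p.1 ∪ {x, y, z}) = S.r p.1 + 3 := by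
        intro y hy z hz hyx hzx hyz
        obtain ⟨a, rfl⟩ := hws y (by rw [hgq]; exact Finset.mem_erase.2 ⟨hyx, hy⟩)
        obtain ⟨b, rfl⟩ := hws z (by rw [hgq]; exact Finset.mem_erase.2 ⟨hzx, hz⟩)
        exact hxab a b (fun he => hyz (by rw [he]))
      refine hNU p hp hn hr3 ?_
      intro y hy z hz u hu hyz hyu hzu
      by_cases e1 : y = x
      · subst e1
        exact hxyz z hz u hu hyz.symm hyu.symm hzu
      · by_cases e2 : z = x
        · subst e2
          rw [Finset.insert_comm y z]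
          exact hxyz y hy u hu e1 hzu.symm hyu
        · by_cases e3 : u = x
          · subst e3
            rw [Finset.pair_comm z u, Finset.insert_comm y u]
            exact hxyz y hy z hz e1 e2 hyz
          · refine hq3 y ?_ z ?_ u ?_ hyz hyu hzu <;> rw [hgq]
            · exact Finset.mem_erase.2 ⟨e1, hy⟩
            · exact Finset.mem_erase.2 ⟨e2, hz⟩
            · exact Finset.mem_erase.2 ⟨e3, hu⟩
    · have hset2 : ∀ y z : E, p.1 ∪ {y, z} = insert y (insert z p.1) := by
        intro y z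
        ext s
        simp only [Finset.mem_union, Finset.mem_insert, Finset.mem_singleton]
        tauto
      have hsub : ∀ a b, ({w a, w b} : Finset E) ⊆ (gs p).erase x := by
        intro a b s hs
        rw [Finset.mem_insert, Finset.mem_singleton] at hs
        rcases hs with rfl | rfl
        · exact Finset.mem_erase.2 ⟨(hwp a).2, (hwp a).1⟩
        · exact Finset.mem_erase.2 ⟨(hwp b).2, (hwp b).1⟩
      have hpair : ∀ a b, a ≠ b → S.r (p.1 ∪ {w a, w b}) = S.r p.1 + 2 := by
        intro a b hab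
        rw [hset2]
        exact th3_con2 hr hp h3 hn4 (hwp a).1 (hwp b).1 (hwi a b hab)
      refine chord S hp hx (A := {w i, w j}) (B := {w k, w l}) (hsub i j) (hsub k l) ?_ ?_ ?_ hT h
      · rw [hpair i j hij, hset2]
        exact hzero i j hA
      · rw [hpair k l hkl, hset2]
        exact hzero k l hB
      · rw [hpair i j hij, hpair k l hkl, th3_con1 hr hp h3 hn4 hx]
        have k1 := hq3 _ (hwm i) _ (hwm j) _ (hwm k) (hwi i j hij) (hwi i k hik) (hwi j k hjk)
        have k2 := hr.mono (p.1 ∪ {w i, w j, w k}) (p.1 ∪ ({w i, w j} ∪ {w k, w l})) (by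
          intro s hs
          simp only [Finset.mem_union, Finset.mem_insert, Finset.mem_singleton] at hs ⊢
          tauto)
        have k3 := hr.mono (p.1 ∪ ({w i, w j} ∪ {w k, w l})) p.2 (by
          intro s hs
          simp only [Finset.mem_union, Finset.mem_insert, Finset.mem_singleton] at hs
          rcases hs with hs | (rfl | rfl) | (rfl | rfl)
          · exact hp hs
          · exact hw2 i
          · exact hw2 j
          · exact hw2 k
          · exact hw2 l)
        omega

theorem six (S : TP F4 E) (hNU : NU S.r) {p : Itv E} (hp : p.1 ⊆ p.2) (hc : Cn S.r p) (h3 : Th3 S.r p) (hn : (gs p).card = 6) {x : E} {t : Bool}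
    (hx : x ∈ gs p) (hR : Rich S.r (QUB.rm t x p)) {T : Fm F4 E} (hT : InV S.U S.W p T) (h : EqD S.U S.W (QUB.rm t x p) T 0) :
    EqD S.U S.W p T 0 := by
  cases t
  · have hz : LinearMap.flip (0 : Fm F4 E) = 0 := rfl
    have hrm : QUB.rm true x (QUB.dp p) = QUB.dp (QUB.rm false x p) := QUB.rm_dp true x p
    have hgs : gs (QUB.dp p) = gs p := QUB.gs_dp p
    have hmain := six_true S.dual (nu_dual S hNU) (p := QUB.dp p) (QUB.wf_dp hp) (th3_dual S hp h3)
      (by rw [hgs]; exact hn) (x := x) (by rw [hgs]; exact hx) (by rw [hrm]; exact rich_dual S hR)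
      (T := LinearMap.flip T) (inV_dual.2 hT) (by
        rw [hrm, ← hz]
        exact eqD_dual.2 h)
    rw [← hz] at hmain
    exact eqD_dual.1 hmain
  · exact six_true S hNU hp h3 hn hx hR hT h

end Pool.Agent.QU
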