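import Pool.Agent.QUN.Th
import Pool.Agent.QUL.LTh

/-!
# QUN/Sxn: nondegeneracy for six elements without rich minors

`u` is deleted, `v` contracted, the remaining elements `N` form a four point line. `Ln r q N'` for `q = rm true u (rm false v p)` and `(gs q).card = 4` give `N' = gs q`, `Y = q.1` (`Y` is disjoint from `N'` and contained in `q.2`), so
`r q.2 = r q.1 + 2` and `r (insert i (insert j q.1)) = r q.1 + 2` for `i ≠ j` in `N = gs q`, with `q.1 = insert v p.1`; so `r p.2 = r p.1 + 3` (`th3_con1`, `th3_del1`) and `{v, i, j}` is independent over `p.1`.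
Write `ρ A = r (p.1 ∪ A) - r p.1`. Suppose that `ND` fails. Taking `X = p.1 ∪ {u, i, j}` (`ND .. true false` needs `r (X.erase u) = r X` and `r (insert v (p.1 ∪ X)) = r (p.1 ∪ X) + 1`) we see `ρ {u, i, j} = 3` for all `i ≠ j` in `N`
(if `ρ {u, i, j} = 2 = ρ {i, j}` then `v` is not in the closure, as `ρ {v, i, j} = 3`). Not all `ρ {u, v, i}`, `i ∈ N`, are `3`: otherwise `rm false v p` is `U_{2,5}`, rich, against `hR`. Let `ρ {u, v, a} = 2`; for `i ≠ a` `ρ {u, v, i} = 3` (otherwise
`a`, `i` are in the closure of `{u, v}` and `ρ {v, a, i} = 2`). If the three elements of `N \ {a}` have rank three then all triples of `gs p \ {a}` have rank three and `rm true a p` is `U_{3,5}`, rich, against `hR`. So they have rank two, and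
`lam r p {u, v, a} = ρ {u, v, a} + ρ (N \ {a}) - 3 = 2 + 2 - 3 = 1`, against `Th3`.
-/

set_option autoImplicit false

open QUB

namespace Pool.Agent.QU

variable {E : Type} [DecidableEq E] {r : Finset E → ℤ} {p : Itv E}

private theorem sxn_line (hp : p.1 ⊆ p.2) (hn : (gs p).card = 6) {u v : E} (hu : u ∈ gs p)
    (hv : v ∈ gs p) (huv : u ≠ v) (hN : HasLn r (QUB.rm true u (QUB.rm false v p))) :
    r (p.2.erase u) = r (insert v p.1) + 2 ∧
      ∀ i ∈ ((gs p).erase u).erase v, ∀ j ∈ ((gs p).erase u).erase v, i ≠ j →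
        r (p.1 ∪ {v, i, j}) = r (insert v p.1) + 2 := by
  obtain ⟨N, hN4, Y, hY1, hY2, hd, hr1, hr2⟩ := hN
  have hu2 : u ∈ p.2 := (Finset.mem_sdiff.1 hu).1
  have hu1 : u ∉ p.1 := (Finset.mem_sdiff.1 hu).2
  have hv2 : v ∈ p.2 := (Finset.mem_sdiff.1 hv).1
  have hv1 : v ∉ p.1 := (Finset.mem_sdiff.1 hv).2
  have hY1' : insert v p.1 ⊆ Y := hY1
  have hY2' : Y ∪ N ⊆ p.2.erase u := hY2
  have hvY : v ∈ Y := hY1' (Finset.mem_insert_self _ _)
  have hpY : p.1 ⊆ Y := (Finset.subset_insert _ _).trans hY1'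
  have hsub : N ⊆ ((gs p).erase u).erase v := by
    intro x hx
    have hxY : x ∉ Y := Finset.disjoint_left.1 hd hx
    have hx2 := hY2' (Finset.mem_union_right _ hx)
    rw [Finset.mem_erase] at hx2
    refine Finset.mem_erase.2 ⟨fun h => hxY (h ▸ hvY), Finset.mem_erase.2 ⟨hx2.1, Finset.mem_sdiff.2 ⟨hx2.2, fun h => hxY (hpY h)⟩⟩⟩
  have hcard : (((gs p).erase u).erase v).card = 4 := by
    rw [Finset.card_erase_of_mem (Finset.mem_erase.2 ⟨huv.symm, hv⟩), Finset.card_erase_of_mem hu, hn]
  have hNe : N = ((gs p).erase u).erase v := Finset.eq_of_subset_of_card_le hsub (by rw [hcard, hN4])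
  have hYe : Y = insert v p.1 := by
    apply Finset.Subset.antisymm _ hY1'
    intro x hx
    by_contra hxn
    rw [Finset.mem_insert, not_or] at hxn
    have hx2 := hY2' (Finset.mem_union_left _ hx)
    rw [Finset.mem_erase] at hx2
    have hxN : x ∈ N := by
      rw [hNe]
      exact Finset.mem_erase.2 ⟨hxn.1, Finset.mem_erase.2 ⟨hx2.1, Finset.mem_sdiff.2 ⟨hx2.2, hxn.2⟩⟩⟩
    exact (Finset.disjoint_left.1 hd hxN) hx
  have hun : Y ∪ N = p.2.erase u := by
    rw [hNe, hYe]
    ext x
    simp only [Finset.mem_union, Finset.mem_insert, Finset.mem_erase, gs, Finset.mem_sdiff]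
    constructor
    · rintro ((h | h) | h)
      · rw [h]
        exact ⟨huv.symm, hv2⟩
      · exact ⟨fun hxu => hu1 (hxu ▸ h), hp h⟩
      · exact ⟨h.2.1, h.2.2.1⟩
    · rintro ⟨h1, h2⟩
      by_cases h4 : x = v
      · exact Or.inl (Or.inl h4)
      · by_cases h5 : x ∈ p.1
        · exact Or.inl (Or.inr h5)
        · exact Or.inr ⟨h4, h1, h2, h5⟩
  constructor
  · rw [← hun, hr1, hYe]
  · intro i hi j hj hij
    have := hr2 i (hNe ▸ hi) j (hNe ▸ hj) hij
    rw [hYe] at this
    rw [← this]
    congr 1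
    ext x
    simp only [Finset.mem_union, Finset.mem_insert, Finset.mem_singleton]
    tauto

/-- all triples avoiding `a` -/
private theorem sxn_trip {C G : Finset E} {u v a : E} {c : ℤ} (huv : u ≠ v)
    (hau : a ≠ u) (hav : a ≠ v) (ha : a ∈ G \ C)
    (hu : u ∈ G \ C) (hv : v ∈ G \ C) (hn : (G \ C).card = 6)
    (hU : ∀ i ∈ ((G \ C).erase u).erase v, ∀ j ∈ ((G \ C).erase u).erase v, i ≠ j → r (C ∪ {u, i, j}) = c)
    (hV : ∀ i ∈ ((G \ C).erase u).erase v, ∀ j ∈ ((G \ C).erase u).erase v, i ≠ j → r (C ∪ {v, i, j}) = c)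
    (hUV : ∀ i ∈ ((G \ C).erase u).erase v, i ≠ a → r (C ∪ {u, v, i}) = c)
    (hE : r (C ∪ (((G \ C).erase u).erase v).erase a) = c)
    {S : Finset E} (hS : S ⊆ (G \ C).erase a) (hSc : S.card = 3) : r (C ∪ S) = c := by
  have hmem : ∀ x ∈ S, x ≠ u → x ≠ v → x ∈ ((G \ C).erase u).erase v := by
    intro x hx h1 h2
    exact Finset.mem_erase.2 ⟨h2, Finset.mem_erase.2 ⟨h1, (Finset.mem_erase.1 (hS hx)).2⟩⟩
  have hna : ∀ x ∈ S, x ≠ a := fun x hx => (Finset.mem_erase.1 (hS hx)).1
  by_cases hSu : u ∈ S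
  · by_cases hSv : v ∈ S
    · have h1 : ((S.erase u).erase v).card = 1 := by
        rw [Finset.card_erase_of_mem (Finset.mem_erase.2 ⟨huv.symm, hSv⟩), Finset.card_erase_of_mem hSu, hSc]
      obtain ⟨i, hi⟩ := Finset.card_eq_one.1 h1
      have hiS : i ∈ (S.erase u).erase v := by
        rw [hi]
        exact Finset.mem_singleton_self i
      rw [Finset.mem_erase, Finset.mem_erase] at hiS
      have hSe : S = {u, v, i} := by
        rw [← Finset.insert_erase hSu, ← Finset.insert_erase (Finset.mem_erase.2 ⟨huv.symm, hSv⟩), hi]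
      rw [hSe]
      exact hUV i (hmem i hiS.2.2 hiS.2.1 hiS.1) (hna i hiS.2.2)
    · have h1 : (S.erase u).card = 2 := by
        rw [Finset.card_erase_of_mem hSu, hSc]
      obtain ⟨i, j, hij, he⟩ := Finset.card_eq_two.1 h1
      have hiS : i ∈ S.erase u := by
        rw [he]
        exact Finset.mem_insert_self _ _
      have hjS : j ∈ S.erase u := by
        rw [he]
        exact Finset.mem_insert_of_mem (Finset.mem_singleton_self _)
      rw [Finset.mem_erase] at hiS hjS
      have hSe : S = {u, i, j} := by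
        rw [← Finset.insert_erase hSu, he]
      rw [hSe]
      exact hU i (hmem i hiS.2 hiS.1 (fun h => hSv (h ▸ hiS.2))) j (hmem j hjS.2 hjS.1 (fun h => hSv (h ▸ hjS.2))) hij
  · by_cases hSv : v ∈ S
    · have h1 : (S.erase v).card = 2 := by
        rw [Finset.card_erase_of_mem hSv, hSc]
      obtain ⟨i, j, hij, he⟩ := Finset.card_eq_two.1 h1
      have hiS : i ∈ S.erase v := by
        rw [he]
        exact Finset.mem_insert_self _ _
      have hjS : j ∈ S.erase v := by
        rw [he]
        exact Finset.mem_insert_of_mem (Finset.mem_singleton_self _)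
      rw [Finset.mem_erase] at hiS hjS
      have hSe : S = {v, i, j} := by
        rw [← Finset.insert_erase hSv, he]
      rw [hSe]
      exact hV i (hmem i hiS.2 (fun h => hSu (h ▸ hiS.2)) hiS.1) j (hmem j hjS.2 (fun h => hSu (h ▸ hjS.2)) hjS.1) hij
    · have hsub : S ⊆ (((G \ C).erase u).erase v).erase a := by
        intro x hx
        exact Finset.mem_erase.2 ⟨hna x hx, hmem x hx (fun h => hSu (h ▸ hx)) (fun h => hSv (h ▸ hx))⟩
      have hcd : ((((G \ C).erase u).erase v).erase a).card = 3 := by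
        rw [Finset.card_erase_of_mem (Finset.mem_erase.2 ⟨hav, Finset.mem_erase.2 ⟨hau, ha⟩⟩),
          Finset.card_erase_of_mem (Finset.mem_erase.2 ⟨huv.symm, hv⟩), Finset.card_erase_of_mem hu, hn]
      rw [Finset.eq_of_subset_of_card_le hsub (by rw [hcd, hSc])]
      exact hE

theorem six_nd (hr : Rk r) (hp : p.1 ⊆ p.2) (hc : Cn r p) (h3 : Th3 r p) (hn : (gs p).card = 6) (hR : ¬ HasRich r p) {u v : E} (hu : u ∈ gs p)
    (hv : v ∈ gs p) (huv : u ≠ v) (hN : HasLn r (QUB.rm true u (QUB.rm false v p))) : ND r p u v true false := by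
  obtain ⟨hl1, hl2⟩ := sxn_line hp hn hu hv huv hN
  have hn4 : 4 ≤ (gs p).card := by omega
  have hcv := th3_con1 hr hp h3 hn4 hv
  have hdu := th3_del1 hr hp h3 hn4 hu
  have hG : r p.2 = r p.1 + 3 := by omega
  have hu2 : u ∈ p.2 := (Finset.mem_sdiff.1 hu).1
  have hu1 : u ∉ p.1 := (Finset.mem_sdiff.1 hu).2
  have hv2 : v ∈ p.2 := (Finset.mem_sdiff.1 hv).1
  have hv1 : v ∉ p.1 := (Finset.mem_sdiff.1 hv).2
  by_contra hnd
  have hgs : ∀ x, x ∈ ((gs p).erase u).erase v → x ∈ gs p := fun x hx =>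
    (Finset.mem_erase.1 (Finset.mem_erase.1 hx).2).2
  have hV : ∀ i ∈ ((gs p).erase u).erase v, ∀ j ∈ ((gs p).erase u).erase v, i ≠ j → r (p.1 ∪ {v, i, j}) = r p.1 + 3 := by
    intro i hi j hj hij
    rw [hl2 i hi j hj hij]
    omega
  -- step 1
  have hU : ∀ i ∈ ((gs p).erase u).erase v, ∀ j ∈ ((gs p).erase u).erase v, i ≠ j → r (p.1 ∪ {u, i, j}) = r p.1 + 3 := by
    intro i hi j hj hij
    by_contra hne
    have hi' := hgs i hi
    have hj' := hgs j hj
    have hiu : i ≠ u := (Finset.mem_erase.1 (Finset.mem_erase.1 hi).2).1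
    have hju : j ≠ u := (Finset.mem_erase.1 (Finset.mem_erase.1 hj).2).1
    have h2 := th3_con2 hr hp h3 hn4 hi' hj' hij
    have e1 : p.1 ∪ {u, i, j} = insert u (insert i (insert j p.1)) := by
      ext x
      simp only [Finset.mem_union, Finset.mem_insert, Finset.mem_singleton]
      tauto
    have e2 : (p.1 ∪ {u, i, j}).erase u = insert i (insert j p.1) := by
      rw [e1]
      apply Finset.erase_insert
      simp only [Finset.mem_insert, not_or]
      exact ⟨hiu.symm, hju.symm, hu1⟩
    have h4 := hr.unit (insert i (insert j p.1)) u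
    have h5 := hr.mono _ _ (Finset.subset_insert u (insert i (insert j p.1)))
    rw [← e1] at h4 h5
    have h6 : r (p.1 ∪ {u, i, j}) = r p.1 + 2 := by omega
    apply hnd
    refine ⟨p.1 ∪ {u, i, j}, ?_, ?_, ?_, ?_⟩
    · intro x hx
      simp only [Finset.mem_union, Finset.mem_insert, Finset.mem_singleton] at hx
      rcases hx with hx | rfl | rfl | rfl
      · exact hp hx
      · exact hu2
      · exact (Finset.mem_sdiff.1 hi').1
      · exact (Finset.mem_sdiff.1 hj').1
    · exact Finset.mem_union_right _ (Finset.mem_insert_self _ _)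
    · rw [e2, h6, h2]
    · have e3 : p.1 ∪ (p.1 ∪ {u, i, j}) = p.1 ∪ {u, i, j} := by
        rw [← Finset.union_assoc, Finset.union_self]
      rw [e3]
      have h7 := hr.unit (p.1 ∪ {u, i, j}) v
      have h8 := hr.mono (p.1 ∪ {v, i, j}) (insert v (p.1 ∪ {u, i, j})) (by
        intro x hx
        simp only [Finset.mem_union, Finset.mem_insert, Finset.mem_singleton] at hx ⊢
        tauto)
      rw [hV i hi j hj hij] at h8
      omega
  -- lower bounds for triples with u, v
  have huv2 := th3_con2 hr hp h3 hn4 hu hv huv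
  have huve : ∀ i, p.1 ∪ {u, v, i} = insert i (insert u (insert v p.1)) := by
    intro i
    ext x
    simp only [Finset.mem_union, Finset.mem_insert, Finset.mem_singleton]
    tauto
  have hlow : ∀ i, r p.1 + 2 ≤ r (p.1 ∪ {u, v, i}) ∧ r (p.1 ∪ {u, v, i}) ≤ r p.1 + 3 := by
    intro i
    rw [huve i]
    have h1 := hr.unit (insert u (insert v p.1)) i
    have h2 := hr.mono _ _ (Finset.subset_insert i (insert u (insert v p.1)))
    constructor <;> omega
  -- step 2
  have hex : ∃ a ∈ ((gs p).erase u).erase v, r (p.1 ∪ {u, v, a}) = r p.1 + 2 := by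
    by_contra hno
    push Not at hno
    have hall : ∀ i ∈ ((gs p).erase u).erase v, r (p.1 ∪ {u, v, i}) = r p.1 + 3 := by
      intro i hi
      have := hno i hi
      have := hlow i
      omega
    apply hR
    refine ⟨(insert v p.1, p.2), ⟨Finset.subset_insert _ _, Finset.Subset.refl _⟩, ?_, ?_, Or.inl ⟨?_, ?_⟩⟩
    · exact Finset.insert_subset hv2 hp
    · have hg := QUB.gs_rm false v p
      have hg' : gs (insert v p.1, p.2) = (gs p).erase v := hg
      rw [hg', Finset.card_erase_of_mem hv, hn]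
    · show r p.2 = r (insert v p.1) + 2
      omega
    · have hg' : gs (insert v p.1, p.2) = (gs p).erase v := QUB.gs_rm false v p
      rw [hg']
      intro i hi j hj hij
      show r (insert v p.1 ∪ {i, j}) = r (insert v p.1) + 2
      rw [Finset.mem_erase] at hi hj
      by_cases hiu : i = u
      · have hju : j ≠ u := fun h => hij (hiu.trans h.symm)
        have hjm : j ∈ ((gs p).erase u).erase v := Finset.mem_erase.2 ⟨hj.1, Finset.mem_erase.2 ⟨hju, hj.2⟩⟩
        have e : insert v p.1 ∪ {i, j} = p.1 ∪ {u, v, j} := by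
          rw [hiu]
          ext x
          simp only [Finset.mem_union, Finset.mem_insert, Finset.mem_singleton]
          tauto
        rw [e, hall j hjm]
        omega
      · by_cases hju : j = u
        · have him : i ∈ ((gs p).erase u).erase v := Finset.mem_erase.2 ⟨hi.1, Finset.mem_erase.2 ⟨hiu, hi.2⟩⟩
          have e : insert v p.1 ∪ {i, j} = p.1 ∪ {u, v, i} := by
            rw [hju]
            ext x
            simp only [Finset.mem_union, Finset.mem_insert, Finset.mem_singleton]
            tauto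
          rw [e, hall i him]
          omega
        · have him : i ∈ ((gs p).erase u).erase v := Finset.mem_erase.2 ⟨hi.1, Finset.mem_erase.2 ⟨hiu, hi.2⟩⟩
          have hjm : j ∈ ((gs p).erase u).erase v := Finset.mem_erase.2 ⟨hj.1, Finset.mem_erase.2 ⟨hju, hj.2⟩⟩
          have e : insert v p.1 ∪ {i, j} = p.1 ∪ {v, i, j} := by
            ext x
            simp only [Finset.mem_union, Finset.mem_insert, Finset.mem_singleton]
            tauto
          rw [e, hV i him j hjm hij]
          omega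
  obtain ⟨a, ha, haR⟩ := hex
  have hav : a ≠ v := (Finset.mem_erase.1 ha).1
  have hau : a ≠ u := (Finset.mem_erase.1 (Finset.mem_erase.1 ha).2).1
  have hag : a ∈ gs p := hgs a ha
  -- step 3
  have hUV : ∀ i ∈ ((gs p).erase u).erase v, i ≠ a → r (p.1 ∪ {u, v, i}) = r p.1 + 3 := by
    intro i hi hia
    by_contra hne
    have h2 := hlow i
    have h4 : r (p.1 ∪ {u, v, i}) = r p.1 + 2 := by omega
    have h5 := hr.sub (p.1 ∪ {u, v, i}) (p.1 ∪ {u, v, a})
    have h6 := hr.mono (insert u (insert v p.1)) ((p.1 ∪ {u, v, i}) ∩ (p.1 ∪ {u, v, a})) (by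
      intro x hx
      simp only [Finset.mem_inter, Finset.mem_union, Finset.mem_insert, Finset.mem_singleton] at hx ⊢
      tauto)
    have h7 := hr.mono (p.1 ∪ {v, i, a}) ((p.1 ∪ {u, v, i}) ∪ (p.1 ∪ {u, v, a})) (by
      intro x hx
      simp only [Finset.mem_union, Finset.mem_insert, Finset.mem_singleton] at hx ⊢
      tauto)
    rw [hV i hi a ha hia] at h7
    omega
  -- step 4
  have hcd : ((((gs p).erase u).erase v).erase a).card = 3 := by
    rw [Finset.card_erase_of_mem ha, Finset.card_erase_of_mem (Finset.mem_erase.2 ⟨huv.symm, hv⟩), Finset.card_erase_of_mem hu, hn]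
  have hlast : r (p.1 ∪ (((gs p).erase u).erase v).erase a) ≠ r p.1 + 3 := by
    intro hE
    apply hR
    refine ⟨(p.1, p.2.erase a), ⟨Finset.Subset.refl _, Finset.erase_subset _ _⟩, ?_, ?_, Or.inr ⟨?_, ?_⟩⟩
    · intro x hx
      exact Finset.mem_erase.2 ⟨fun h => (Finset.mem_sdiff.1 hag).2 (h ▸ hx), hp hx⟩
    · have hg' : gs (p.1, p.2.erase a) = (gs p).erase a := QUB.gs_rm true a p
      rw [hg', Finset.card_erase_of_mem hag, hn]
    · show r (p.2.erase a) = r p.1 + 3
      rw [th3_del1 hr hp h3 hn4 hag, hG]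
    · have hg' : gs (p.1, p.2.erase a) = (gs p).erase a := QUB.gs_rm true a p
      rw [hg']
      intro i hi j hj k hk hij hik hjk
      show r (p.1 ∪ {i, j, k}) = r p.1 + 3
      apply sxn_trip (G := p.2) huv hau hav hag hu hv hn hU hV hUV hE
      · intro x hx
        simp only [Finset.mem_insert, Finset.mem_singleton] at hx
        rcases hx with rfl | rfl | rfl
        · exact hi
        · exact hj
        · exact hk
      · exact Finset.card_eq_three.2 ⟨i, j, k, hij, hik, hjk, rfl⟩
  -- step 5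
  have hA : ({u, v, a} : Finset E) ⊆ gs p := by
    intro x hx
    simp only [Finset.mem_insert, Finset.mem_singleton] at hx
    rcases hx with rfl | rfl | rfl
    · exact hu
    · exact hv
    · exact hag
  have hAc : ({u, v, a} : Finset E).card = 3 := Finset.card_eq_three.2 ⟨u, v, a, huv, hau.symm, hav.symm, rfl⟩
  have hAd : (gs p \ {u, v, a}).card = 3 := by
    rw [Finset.card_sdiff_of_subset hA, hAc, hn]
  have hlam := h3 {u, v, a} hA (by omega) (by omega)
  have e5 : p.2 \ {u, v, a} = p.1 ∪ (((gs p).erase u).erase v).erase a := by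
    ext x
    simp only [Finset.mem_union, Finset.mem_insert, Finset.mem_singleton, Finset.mem_erase, gs, Finset.mem_sdiff, not_or]
    constructor
    · rintro ⟨h1, h2, h4, h5⟩
      by_cases h6 : x ∈ p.1
      · exact Or.inl h6
      · exact Or.inr ⟨h5, h4, h2, h1, h6⟩
    · rintro (h | h)
      · exact ⟨hp h, fun hx => hu1 (hx ▸ h), fun hx => hv1 (hx ▸ h), fun hx => (Finset.mem_sdiff.1 hag).2 (hx ▸ h)⟩
      · exact ⟨h.2.2.2.1, h.2.2.1, h.2.1, h.1⟩
  unfold lam at hlam
  rw [e5] at hlam
  have hmono := hr.mono (p.1 ∪ (((gs p).erase u).erase v).erase a) p.2 (by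
    rw [← e5]
    exact Finset.sdiff_subset)
  omega

end Pool.Agent.QU
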