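import Pool.Agent.QUN.NbOut
import Pool.Agent.QUN.Ci
import Pool.Agent.QUN.G
import Pool.Agent.QUN.Nrm
import Pool.Agent.QUN.Lnb
import Pool.Agent.QUN.Sxn
import Pool.Agent.QUN.Six
import Pool.Agent.QUN.Sev
import Pool.Agent.QUL.LStrong
import Pool.Agent.QUL.LTransR
import Pool.Agent.QUL.LTransV

/-!
# QUN/Main: Theorem U (assembly)

`p` connected and `Ok`, no `U_{3,6}` minor, `T` in `V(p)`. If `T` is diagonal on some rich minor of `p`, or if `p` has no rich minor, then `T` is diagonal on `p`.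
-/

set_option autoImplicit false

open QUB

namespace Pool.Agent.QU

open Pool.Agent.FRM

variable {E : Type} [Fintype E] [DecidableEq E]

section

variable {K : Type} [Field K]

private theorem m_sep (S : TP K E) {p : Itv E} (hp : p.1 ⊆ p.2) (hc : Cn S.r p)
    (ho : Ok S.r p) (h3 : ¬ Th3 S.r p) :
    ∃ A ⊆ gs p, 2 ≤ A.card ∧ 2 ≤ (gs p \ A).card ∧ QUB.lam S.r p A = 1 ∧ ¬ Hv S.r p (gs p \ A) := by
  unfold Th3 at h3
  push Not at h3
  obtain ⟨A, hA, h1, h2, h4⟩ := h3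
  have h5 : 1 ≤ lam S.r p A := hc A hA (Finset.card_pos.1 (by omega)) (Finset.card_pos.1 (by omega))
  have h6 : lam S.r p A = 1 := by omega
  by_cases h7 : QUB.Hv S.r p A
  · exact ⟨A, hA, h1, h2, h6, fun h8 => ho A hA h6.le ⟨h7, h8⟩⟩
  · have e : gs p \ (gs p \ A) = A := Finset.sdiff_sdiff_eq_self hA
    refine ⟨gs p \ A, Finset.sdiff_subset, h2, ?_, ?_, ?_⟩
    · rw [e]
      exact h1
    · have h8 : lam S.r p (gs p \ A) = lam S.r p A := QUB.lam_compl S.r hp hA
      rw [h8]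
      exact h6
    · rw [e]
      exact h7

private theorem m_dg {U W : Submodule K (E → K)} {p : Itv E} (l : E → K) :
    EqD U W p (dg l) 0 := ⟨l, by rw [zero_add]; exact EqOn.rfl⟩

/-- the light half takes care of itself -/
private theorem m_two (S : TP K E) {p : Itv E} (hp : p.1 ⊆ p.2) {A : Finset E}
    (hA : A ⊆ gs p) (hl : lam S.r p A = 1) (hlight : ¬ QUB.Hv S.r p (gs p \ A)) {T T' : Fm K E}
    (hT : InV S.U S.W p T) (hT' : InV S.U S.W p T') {X : Finset E} {b : E}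
    (hX : Half S.r p A X b) (h1 : EqD S.U S.W (hb p A X b) T T') : EqD S.U S.W p T T' := by
  have hB : gs p \ A ⊆ gs p := Finset.sdiff_subset
  have hlB : lam S.r p (gs p \ A) = 1 := by
    have h8 : lam S.r p (gs p \ A) = lam S.r p A := QUB.lam_compl S.r hp hA
    rw [h8]
    exact hl
  obtain ⟨X', a, hX'⟩ := half_exists S.rk hp hB hlB
  obtain ⟨f, g, hk⟩ := kink_exists S hp hA hl
  obtain ⟨s1, s2, s3, s4⟩ := half_sub hp hB hX'
  have hno := half_light hp hB hX' hlight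
  have hs : Sub (hb p (gs p \ A) X' a) p := ⟨s1, s2⟩
  have d1 := bin_diag S s3 hno (hT.mono hs)
  have d2 := bin_diag S s3 hno (hT'.mono hs)
  obtain ⟨k, hk2⟩ := dec_uniq S hp hA hl hk hX hX' hT hT' h1 (d1.trans d2.symm)
  obtain ⟨w, hw1, hw2⟩ := bin_hom S s3 hno
  obtain ⟨k2, -, hk3⟩ := kink_diag S hp hA hl hk hX' hw2 (hw1 a (by
    rw [s4]
    exact Finset.mem_insert_self _ _))
  have h2 : EqD S.U S.W p (kf f g) 0 := hk3.eqD.trans (m_dg _)
  have h3 : EqD S.U S.W p (T' + k • kf f g) (T' + k • (0 : Fm K E)) := EqD.rfl.add (h2.smul k)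
  rw [smul_zero, add_zero] at h3
  exact hk2.trans h3

private theorem m_half_card {p : Itv E} {A : Finset E} (hA : A ⊆ gs p) {b : E}
    (h2 : 2 ≤ (gs p \ A).card) : (insert b A).card < (gs p).card := by
  have h1 := Finset.card_insert_le b A
  have h3 := Finset.card_sdiff_add_card_eq_card hA
  omega

private theorem m_rm_card {p : Itv E} {u : E} (hu : u ∈ gs p) (t : Bool) :
    (gs (QUB.rm t u p)).card < (gs p).card := by
  rw [QUB.gs_rm]
  exact Finset.card_erase_lt_of_mem hu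

private theorem m_four (S : TP K E) {p : Itv E} (hp : p.1 ⊆ p.2) (hc : QUB.Cn S.r p)
    (h3 : Th3 S.r p) (hN : ∃ N, QUB.Ln S.r p N) (hn : (gs p).card = 4) {T : Fm K E}
    (hT : InV S.U S.W p T) : EqD S.U S.W p T 0 := by
  have h4 := (th3_four S.rk hp hc h3 hn).1
  refine dim_all S hp (fun l hl => hom_cn S hp hc hN hl) ?_ hT
  have h5 : S.r p.2 - S.r p.1 = 2 := by omega
  rw [h5, hn]
  norm_num

private theorem m_big {p : Itv E} {r : Finset E → ℤ} (hN : ∃ N, QUB.Ln r p N) :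
    4 ≤ (gs p).card := by
  obtain ⟨N, hN⟩ := hN
  have h1 : N ⊆ gs p := QUB.Ln.sub hN
  have h2 := Finset.card_le_card h1
  have h3 := hN.1
  omega

/-- the split `(w, s, X)` is compatible with `T` -/
private def Wt (S : TP K E) (p : Itv E) (T : Fm K E) (w : E) (s : Bool) (X : Finset E) : Prop :=
  ¬ HasRich S.r p ∨ ∃ q, Sub q (QUB.rm s w p) ∧ Rich S.r q ∧ EqD S.U S.W q T 0 ∧ (X ∩ gs q).card ≤ 1

private theorem m_min (S : TP K E) {p : Itv E} {T : Fm K E}
    (h : ∃ w ∈ gs p, ∃ s X, Nbs S.r p w s X ∧ Wt S p T w s X) :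
    ∃ w ∈ gs p, ∃ s X, Nbs S.r p w s X ∧ Wt S p T w s X ∧
      ∀ w' ∈ gs p, ∀ s' X', Nbs S.r p w' s' X' → Wt S p T w' s' X' → X.card ≤ X'.card := by
  classical
  obtain ⟨w, hw, s, X, h1, h2⟩ := h
  have hex : ∃ n, ∃ w ∈ gs p, ∃ s X, Nbs S.r p w s X ∧ Wt S p T w s X ∧ X.card = n :=
    ⟨_, w, hw, s, X, h1, h2, rfl⟩
  obtain ⟨w₀, hw₀, s₀, X₀, h3, h4, h5⟩ := Nat.find_spec hex
  refine ⟨w₀, hw₀, s₀, X₀, h3, h4, fun w' hw' s' X' h6 h7 => ?_⟩
  rw [h5]
  exact Nat.find_min' hex ⟨w', hw', s', X', h6, h7, rfl⟩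

/-- moving the rich minor past the removal of an element of `X` -/
private theorem m_move (S : TP K E) {p : Itv E} (hp : p.1 ⊆ p.2) (hc : Cn S.r p) (h3 : Th3 S.r p) (hn : 4 ≤ (gs p).card) {w : E} {s : Bool}
    {X : Finset E} (hw : w ∈ gs p) (hnb : Nbs S.r p w s X) {T : Fm K E} (hT : InV S.U S.W p T) {e : E} (he : e ∈ X) {t : Bool}
    (ce : Cn S.r (QUB.rm t e (QUB.rm s w p))) {q : Itv E} (hq : Sub q (QUB.rm s w p)) (hR : Rich S.r q) (hD : EqD S.U S.W q T 0)
    (hcard : (X ∩ gs q).card ≤ 1) :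
    ∃ q', Sub q' (QUB.rm t e (QUB.rm s w p)) ∧ Rich S.r q' ∧ EqD S.U S.W q' T 0 ∧ (X ∩ gs q').card ≤ 1 := by
  have hX := hnb.1
  have hvX := hnb.2.2.1
  have hvY := hnb.2.2.2
  have hr := S.rk
  obtain ⟨P, hPd⟩ : ∃ P, P = QUB.rm s w p := ⟨_, rfl⟩
  rw [← hPd] at ce hq ⊢
  have hP : P.1 ⊆ P.2 := by rw [hPd]; exact wf_rm hp hw
  have gP : gs P = (gs p).erase w := by rw [hPd]; exact QUB.gs_rm s w p
  have cP : Cn S.r P := by rw [hPd]; exact th3_cn hr hp hc h3 hn hw s
  have hXP : X ⊆ gs P := by rw [gP]; exact hX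
  have hY : gs P \ X ⊆ gs P := Finset.sdiff_subset
  have eY : gs P \ (gs P \ X) = X := Finset.sdiff_sdiff_eq_self hXP
  have hX3 : 3 ≤ X.card := hvX.card
  have hY3 : 3 ≤ (gs P \ X).card := by rw [gP]; exact hvY.card
  have lX : QUB.lam S.r P X ≤ 1 := by rw [hPd]; exact hnb.2.1
  have lY1 : QUB.lam S.r P (gs P \ X) ≤ 1 := by rw [QUB.lam_compl S.r hP hXP]; exact lX
  have lY : QUB.lam S.r P (gs P \ X) = 1 := by
    have h1 := cP (gs P \ X) hY (Finset.card_pos.1 (by omega)) (by rw [eY]; exact Finset.card_pos.1 (by omega))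
    omega
  have heP : e ∈ gs P := hXP he
  have hYe : gs P \ X ⊆ (gs P).erase e := fun y hy =>
    Finset.mem_erase.2 ⟨fun h => (Finset.mem_sdiff.1 hy).2 (h ▸ he), hY hy⟩
  have hPe : (QUB.rm t e P).1 ⊆ (QUB.rm t e P).2 := wf_rm hP heP
  have gPe : gs (QUB.rm t e P) = (gs P).erase e := QUB.gs_rm t e P
  have hYe' : gs P \ X ⊆ gs (QUB.rm t e P) := by rw [gPe]; exact hYe
  have lYe : QUB.lam S.r (QUB.rm t e P) (gs P \ X) = 1 := by
    have h1 := lam_rm_le hr (t := t) heP hYe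
    have h2 := ce (gs P \ X) hYe' (Finset.card_pos.1 (by omega)) (by
      have h4 : 1 < X.card := by omega
      obtain ⟨f, hf, hfe⟩ := Finset.exists_mem_ne h4 e
      refine ⟨f, Finset.mem_sdiff.2 ⟨?_, fun h => (Finset.mem_sdiff.1 h).2 hf⟩⟩
      rw [gPe]
      exact Finset.mem_erase.2 ⟨hfe, hXP hf⟩)
    omega
  obtain ⟨X', b, hH⟩ := half_exists hr hPe hYe' lYe
  obtain ⟨h1, h2, h4, h5⟩ := half_rm_out hr hP hY (z := e) (s := t) (by rw [eY]; exact he) lY lYe hH
  obtain ⟨q', hq1, hq2, hq3⟩ := transport S hP hY lY h1 hq hR (by rw [eY]; exact hcard) (hT.mono (by rw [hPd]; exact rm_sub s w p)) hD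
  obtain ⟨-, -, -, g4⟩ := half_sub hP hY h1
  refine ⟨q', ⟨h4.trans hq1.1, hq1.2.trans h5⟩, hq2, hq3, ?_⟩
  have hgs : gs q' ⊆ insert b (gs P \ X) := by
    rw [← g4]
    intro y hy
    have hy' := Finset.mem_sdiff.1 hy
    exact Finset.mem_sdiff.2 ⟨hq1.2 hy'.1, fun h => hy'.2 (hq1.1 h)⟩
  have hsub : X ∩ gs q' ⊆ {b} := by
    intro y hy
    have hy' := Finset.mem_inter.1 hy
    rcases Finset.mem_insert.1 (hgs hy'.2) with rfl | h
    · exact Finset.mem_singleton_self _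
    · exact absurd hy'.1 (Finset.mem_sdiff.1 h).2
  exact (Finset.card_le_card hsub).trans (by rw [Finset.card_singleton])

/-- `T` is diagonal on a rich minor of `v`, or `p` has no rich minor -/
private def Sd2 (S : TP K E) (p v : Itv E) (T : Fm K E) : Prop :=
  (∃ q, Sub q v ∧ Rich S.r q ∧ EqD S.U S.W q T 0) ∨ ¬ HasRich S.r p

end

/-- the induction hypothesis -/
private def IH (S : TP F4 E) (p : Itv E) : Prop :=
  ∀ q : Itv E, (gs q).card < (gs p).card → q.1 ⊆ q.2 → Cn S.r q → Ok S.r q → ∀ T : Fm F4 E, InV S.U S.W q T → Sd S q T →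
    EqD S.U S.W q T 0

/-- the case of a compatible split -/
private theorem m_nb (S : TP F4 E) {p : Itv E} (ih : IH S p) (hp : p.1 ⊆ p.2) (hc : Cn S.r p) (ho : Ok S.r p) (h3 : Th3 S.r p)
    {T : Fm F4 E} (hT : InV S.U S.W p T) (h : ∃ w ∈ gs p, ∃ s X, Nbs S.r p w s X ∧ Wt S p T w s X) : EqD S.U S.W p T 0 := by
  have hr := S.rk
  obtain ⟨w, hw, s, X, hn, hW, hmin⟩ := m_min S h
  have hX := hn.1
  have hvX := hn.2.2.1
  have hvY := hn.2.2.2
  have hX3 : 3 ≤ X.card := hvX.card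
  have hY3 : 3 ≤ ((gs p).erase w \ X).card := hvY.card
  have hXp : X ⊆ gs p := hX.trans (Finset.erase_subset _ _)
  have hn7 : 7 ≤ (gs p).card := by
    have h1 := Finset.card_sdiff_add_card_eq_card hX
    have h2 := Finset.card_erase_add_one hw
    omega
  have hmw : Mn1 S.r p w s X := by
    intro A hA hAX
    have h1 := Finset.card_lt_card hAX
    have h2 := hmin w hw s A hA (by
      rcases hW with h | ⟨q, h1, h2, h4, h5⟩
      · exact Or.inl h
      · exact Or.inr ⟨q, h1, h2, h4, (Finset.card_le_card (Finset.inter_subset_inter_right hAX.1)).trans h5⟩)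
    omega
  have hme : ∀ e ∈ X, ∀ t, Cn S.r (QUB.rm t e (QUB.rm s w p)) → Mn1 S.r p e t X := by
    intro e he t ce A hA hAX
    have h1 := Finset.card_lt_card hAX
    have h2 := hmin e (hXp he) t A hA (by
      rcases hW with h | ⟨q, h1, h2, h4, h5⟩
      · exact Or.inl h
      · obtain ⟨q', g1, g2, g3, g4⟩ := m_move S hp hc h3 (by omega) hw hn hT he ce h1 h2 h4 h5
        refine Or.inr ⟨q', ?_, g2, g3, (Finset.card_le_card (Finset.inter_subset_inter_right hAX.1)).trans g4⟩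
        rw [rm_comm t s] at g1
        exact (rm_sub s w (QUB.rm t e p)).trans g1)
    omega
  have hD : ∀ e ∈ X, ∀ t, GE S.r p w s e t → EqD S.U S.W (QUB.rm t e p) T 0 := by
    intro e he t hG
    refine ih (QUB.rm t e p) (m_rm_card (hXp he) t) (wf_rm hp (hXp he)) (th3_cn hr hp hc h3 (by omega) (hXp he) t) hG.2 T
      (hT.mono (rm_sub t e p)) ?_
    rcases hW with h | ⟨q, h1, h2, h4, h5⟩
    · exact Or.inr fun ⟨q, hq, hR⟩ => h ⟨q, (rm_sub t e p).trans hq, hR⟩
    · obtain ⟨q', g1, g2, g3, g4⟩ := m_move S hp hc h3 (by omega) hw hn hT he hG.1 h1 h2 h4 h5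
      rw [rm_comm t s] at g1
      exact Or.inl ⟨q', (rm_sub s w (QUB.rm t e p)).trans g1, g2, g3⟩
  rcases nb_out hr hp hc ho h3 hw hn hmw hme with h | h
  · obtain ⟨t, e, he, f, hf, hef, ge, gf, c, l⟩ := h
    exact g_same S hp h3 (by omega) hef (hXp he) (hXp hf) hT (hD e he t ge) (hD f hf t gf) c l
  · obtain ⟨a, ha, b, hb', c, hcX, hab, hac, hbc, ga, gb, gc, c1, l1, c2, l2, hnt⟩ := h
    exact g_path S hp h3 (by omega) hab hac hbc (hXp ha) (hXp hb') (hXp hcX) hT (hD a ha _ ga) (hD b hb' _ gb)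
      (hD c hcX _ gc) c1 l1 c2 l2 hnt

/-- no compatible split -/
private theorem m_ci (S : TP F4 E) (hNU : NU S.r) {p : Itv E} (ih : IH S p) (hp : p.1 ⊆ p.2) (hc : Cn S.r p) (h3 : Th3 S.r p)
    (hn : 7 ≤ (gs p).card) (hN : HasLn S.r p)
    {T : Fm F4 E} (hT : InV S.U S.W p T) (hS : Sd S p T)
    (hI : ∀ w ∈ gs p, ∀ s, Sd2 S p (QUB.rm s w p) T → Ok S.r (QUB.rm s w p)) : EqD S.U S.W p T 0 := by
  have hr := S.rk
  have hD : ∀ x ∈ gs p, ∀ t, Sd2 S p (QUB.rm t x p) T → EqD S.U S.W (QUB.rm t x p) T 0 := by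
    intro x hx t h
    refine ih (QUB.rm t x p) (m_rm_card hx t) (wf_rm hp hx) (th3_cn hr hp hc h3 (by omega) hx t) (hI x hx t h) T
      (hT.mono (rm_sub t x p)) ?_
    rcases h with h | h
    · exact Or.inl h
    · exact Or.inr fun ⟨q, k1, k2⟩ => h ⟨q, (rm_sub t x p).trans k1, k2⟩
  -- the core box
  obtain ⟨q, hq, hqq, hqc, hql, hqn, hcard, hseed, hsw⟩ : ∃ q : Itv E, Sub q p ∧ q.1 ⊆ q.2 ∧ Cn S.r q ∧ HasLn S.r q ∧ Nrm S.r p q ∧
      ((gs q).card = 4 ∨ Rich S.r q) ∧ (∀ v : Itv E, Sub q v → Sub v p → Sd2 S p v T) ∧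
      (∀ (q' v v' : Itv E), SameM S.r q q' → q'.1 ⊆ q'.2 → Sub q' v → Sub v p → Sub q' v' → EqD S.U S.W v' T 0 → Sd2 S p v T) := by
    by_cases hR : HasRich S.r p
    · obtain ⟨q₀, h1, h2, h4⟩ := hS.resolve_right (not_not.2 hR)
      obtain ⟨q, g1, g2, g3, g4, g5⟩ := nrm_exists S h1 h2.1
      have gR := same_rich g2 g3 h2
      refine ⟨q, g1, g2, rich_cn hr gR, ?_, g4, Or.inr gR, fun v hv _ => Or.inl ⟨q, hv, gR, g5 T h4⟩, ?_⟩
      · have h5 : (gs q).Nonempty := by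
          rw [← Finset.card_pos, gR.2.1]
          omega
        obtain ⟨x, hx⟩ := h5
        obtain ⟨N, hN, -⟩ := rich_ln hr gR hx
        exact ⟨N, hN⟩
      · intro q' v v' k1 k2 k3 _ k5 k6
        exact Or.inl ⟨q', k3, same_rich k2 k1 gR, k6.mono k5⟩
    · obtain ⟨q₀, h1, h2, h4, h5, h6⟩ := line_box hr hN
      obtain ⟨q, g1, g2, g3, g4, -⟩ := nrm_exists S h1 h2
      refine ⟨q, g1, g2, same_cn h2 g2 g3 h5, same_ln h2 g2 g3 h6, g4, Or.inl (by rw [g3.1]; exact h4), ?_, ?_⟩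
      · exact fun v _ hv => Or.inr hR
      · exact fun _ v _ _ _ _ hv _ _ => Or.inr hR
  have hqne : (gs q).Nonempty := by
    rw [← Finset.card_pos]
    rcases hcard with h | h
    · omega
    · rw [h.2.1]
      omega
  have hgs : gs q ⊆ gs p := fun y hy => by
    have hy' := Finset.mem_sdiff.1 hy
    exact Finset.mem_sdiff.2 ⟨hq.2 hy'.1, fun h => hy'.2 (hq.1 h)⟩
  have hsd : (gs p \ gs q).card + (gs q).card = (gs p).card := Finset.card_sdiff_add_card_eq_card hgs
  by_cases h3m : 3 ≤ (gs p \ gs q).card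
  · rcases ci_path hr hp hc h3 (by omega) hqq hq hqc hqne hqn h3m with h | h
    · obtain ⟨x, hx, y, hy, hxy, t, h1, h2⟩ := h
      have s1 : Sub q (QUB.rm t y p) := (rm_sub t x (QUB.rm t y p)).trans h1
      have s2 : Sub q (QUB.rm t x p) := by
        rw [rm_comm t t] at h1
        exact (rm_sub t y (QUB.rm t x p)).trans h1
      exact g_same S hp h3 (by omega) hxy hx hy hT (hD x hx t (hseed _ s2 (rm_sub t x p)))
        (hD y hy t (hseed _ s1 (rm_sub t y p))) h2 (hql.mono h1)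
    · obtain ⟨a, ha, b, hb', c, hcc, hab, hac, hbc, t, h1, c1, c2⟩ := h
      have s1 : Sub q (QUB.rm t a (QUB.rm (!t) b p)) := by
        rw [rm_comm (!t) t, rm_comm t t] at h1
        exact (rm_sub t c (QUB.rm t a (QUB.rm (!t) b p))).trans h1
      have s2 : Sub q (QUB.rm t c (QUB.rm (!t) b p)) := by
        rw [rm_comm (!t) t] at h1
        exact (rm_sub t a (QUB.rm t c (QUB.rm (!t) b p))).trans h1
      have sb : Sub q (QUB.rm (!t) b p) := (rm_sub t a _).trans s1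
      have sa : Sub q (QUB.rm t a p) := by
        rw [rm_comm t (!t)] at s1
        exact (rm_sub (!t) b _).trans s1
      have sc : Sub q (QUB.rm t c p) := by
        rw [rm_comm t (!t)] at s2
        exact (rm_sub (!t) b _).trans s2
      have da := hD a ha t (hseed _ sa (rm_sub t a p))
      have db := hD b hb' (!t) (hseed _ sb (rm_sub (!t) b p))
      have dc := hD c hcc t (hseed _ sc (rm_sub t c p))
      by_cases hnt : NT S.r p t a b c
      · exact g_path S hp h3 (by omega) hab hac hbc ha hb' hcc hT da db dc c1 (hql.mono s1) c2 (hql.mono s2) hnt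
      · obtain ⟨⟨q', k1, k2, k3⟩, k4⟩ := ci_swap hr hp hc h3 (by omega) hqq ha hb' hcc hab hac hbc h1 hnt
        have k5 : Sub q' (QUB.rm t a p) := (rm_sub (!t) c (QUB.rm t a p)).trans k1
        have k6 : Sub q' (QUB.rm (!t) c p) := by
          rw [rm_comm (!t) t] at k1
          exact (rm_sub t a (QUB.rm (!t) c p)).trans k1
        have dc' := hD c hcc (!t) (hsw q' (QUB.rm (!t) c p) (QUB.rm t a p) k3 k2 k6 (rm_sub (!t) c p) k5 da)
        have hnt' := nt_flip hr hp h3 (by omega) ha hb' hcc hab hac hbc hnt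
        refine g_path S (s := !t) hp h3 (by omega) hab.symm hbc hac hb' ha hcc hT db ?_ dc' ?_ ?_ ?_ ?_ (nt_comm hnt').1
        · rw [Bool.not_not]
          exact da
        · rw [Bool.not_not, rm_comm (!t) t]
          exact c1
        · rw [Bool.not_not, rm_comm (!t) t]
          exact hql.mono s1
        · rw [Bool.not_not]
          exact k4
        · rw [Bool.not_not]
          exact (same_ln hqq k2 k3 hql).mono k1
  · -- seven elements
    have hR : Rich S.r q := by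
      rcases hcard with h | h
      · omega
      · exact h
    have h5 := hR.2.1
    have hn7 : (gs p).card = 7 := by omega
    obtain ⟨x, hx, y, hy, hxy, t, s, rfl⟩ := ci_pair hp hqq hq (by omega)
    have sy : Sub (QUB.rm t x (QUB.rm s y p)) (QUB.rm s y p) := rm_sub t x (QUB.rm s y p)
    have sx : Sub (QUB.rm t x (QUB.rm s y p)) (QUB.rm t x p) := by
      rw [rm_comm t s]
      exact rm_sub s y (QUB.rm t x p)
    have dx := hD x hx t (hseed _ sx (rm_sub t x p))
    have dy := hD y hy s (hseed _ sy (rm_sub s y p))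
    cases t <;> cases s
    · exact g_same S hp h3 (by omega) hxy hx hy hT dx dy hqc hql
    · refine g_pair S hp hxy hx hy hT dx dy hqc hql ?_
      have h6 := seven S hNU hp hc h3 hn7 hy hx hxy.symm (by rw [rm_comm true false]; exact hR)
      exact h6
    · exact g_pair S hp hxy hx hy hT dx dy hqc hql (seven S hNU hp hc h3 hn7 hx hy hxy hR)
    · exact g_same S hp h3 (by omega) hxy hx hy hT dx dy hqc hql

/-- six elements, no rich minor -/
private theorem m_six (S : TP F4 E) {p : Itv E} (ih : IH S p) (hp : p.1 ⊆ p.2) (hc : Cn S.r p) (h3 : Th3 S.r p)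
    (hn : (gs p).card = 6) (hN : HasLn S.r p) {T : Fm F4 E} (hT : InV S.U S.W p T) (hR : ¬ HasRich S.r p) : EqD S.U S.W p T 0 := by
  have hr := S.rk
  have hD : ∀ x ∈ gs p, ∀ t, EqD S.U S.W (QUB.rm t x p) T 0 := by
    intro x hx t
    have h1 := m_rm_card hx t
    exact ih (QUB.rm t x p) h1 (wf_rm hp hx) (th3_cn hr hp hc h3 (by omega) hx t) (ok_small (by omega)) T
      (hT.mono (rm_sub t x p)) (Or.inr fun ⟨q', k1, k2⟩ => hR ⟨q', (rm_sub t x p).trans k1, k2⟩)
  obtain ⟨q₀, h1, h2, h4, h5, h6⟩ := line_box hr hN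
  have hgs : gs q₀ ⊆ gs p := fun y hy => by
    have hy' := Finset.mem_sdiff.1 hy
    exact Finset.mem_sdiff.2 ⟨h1.2 hy'.1, fun h => hy'.2 (h1.1 h)⟩
  have hsd : (gs p \ gs q₀).card + (gs q₀).card = (gs p).card := Finset.card_sdiff_add_card_eq_card hgs
  obtain ⟨x, hx, y, hy, hxy, t, s, rfl⟩ := ci_pair hp h2 h1 (by omega)
  have dx := hD x hx t
  have dy := hD y hy s
  cases t <;> cases s
  · exact g_same S hp h3 (by omega) hxy hx hy hT dx dy h5 h6
  · refine g_pair S hp hxy hx hy hT dx dy h5 h6 ?_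
    have h7 := six_nd hr hp hc h3 hn hR hy hx hxy.symm (by rw [rm_comm true false]; exact h6)
    exact h7
  · exact g_pair S hp hxy hx hy hT dx dy h5 h6 (six_nd hr hp hc h3 hn hR hx hy hxy h6)
  · exact g_same S hp h3 (by omega) hxy hx hy hT dx dy h5 h6

private theorem m_step (S : TP F4 E) (hNU : NU S.r) {p : Itv E} (ih : IH S p) (hp : p.1 ⊆ p.2) (hc : Cn S.r p) (ho : Ok S.r p)
    {T : Fm F4 E} (hT : InV S.U S.W p T) (hS : Sd S p T) : EqD S.U S.W p T 0 := by
  have hr := S.rk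
  by_cases hN : HasLn S.r p
  swap
  · exact bin_diag S hp (not_exists.1 hN) hT
  by_cases h3 : Th3 S.r p
  swap
  · obtain ⟨A, hA, hA2, hB2, hl, hlight⟩ := m_sep S hp hc ho h3
    obtain ⟨X, b, hX⟩ := half_exists hr hp hA hl
    obtain ⟨s1, s2, s3, s4⟩ := half_sub hp hA hX
    have hs : Sub (hb p A X b) p := ⟨s1, s2⟩
    refine m_two S hp hA hl hlight hT InV.zero hX ?_
    refine ih (hb p A X b) (by rw [s4]; exact m_half_card hA hB2) s3 (half_cn hr hp hA hl hX hc) (half_ok hr hp hA hl hX ho) T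
      (hT.mono hs) ?_
    rcases hS with ⟨q, h1, h2, h4⟩ | h
    · left
      have h5 : ((gs p \ A) ∩ gs q).card ≤ 1 := by
        rcases rich_side hr hp hA hl.le h1 h2 with h | h
        · exfalso
          obtain ⟨x, hx⟩ : (gs q).Nonempty := by
            rw [← Finset.card_pos, h2.2.1]
            omega
          obtain ⟨N, hN, -⟩ := rich_ln hr h2 hx
          have hNp : QUB.Ln S.r p N := by
            obtain ⟨k1, Y, k2, k3, k4⟩ := hN
            exact ⟨k1, Y, h1.1.trans k2, k3.trans h1.2, k4⟩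
          refine hlight ⟨N, hNp, ?_⟩
          have hNq : N ⊆ gs q := QUB.Ln.sub hN
          have hNg : N ⊆ gs p := QUB.Ln.sub hNp
          have h6 : (N ∩ A).card ≤ 1 := by
            refine (Finset.card_le_card ?_).trans h
            intro y hy
            have hy' := Finset.mem_inter.1 hy
            exact Finset.mem_inter.2 ⟨hy'.2, hNq hy'.1⟩
          have h7 : N ⊆ (N ∩ A) ∪ (N ∩ (gs p \ A)) := by
            intro y hy
            by_cases hyA : y ∈ A
            · exact Finset.mem_union_left _ (Finset.mem_inter.2 ⟨hy, hyA⟩)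
            · exact Finset.mem_union_right _ (Finset.mem_inter.2 ⟨hy, Finset.mem_sdiff.2 ⟨hNg hy, hyA⟩⟩)
          have h8 := (Finset.card_le_card h7).trans (Finset.card_union_le _ _)
          have h9 := hN.1
          omega
        · exact h
      exact transport S hp hA hl hX h1 h2 h5 hT h4
    · exact Or.inr fun ⟨q, k1, k2⟩ => h ⟨q, hs.trans k1, k2⟩
  have hbig := m_big hN
  by_cases h4 : (gs p).card = 4
  · exact m_four S hp hc h3 hN h4 hT
  by_cases h5 : (gs p).card = 5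
  · have hR := th3_five hr hp hc h3 h5
    rcases hS with ⟨q, k1, k2, k3⟩ | h
    · have h6 := box_eq hp k2.1 k1 (by rw [h5, k2.2.1])
      rw [h6] at k3
      exact k3
    · exact absurd ⟨p, Sub.rfl, hR⟩ h
  by_cases h6 : (gs p).card = 6
  · by_cases hR : HasRich S.r p
    · obtain ⟨q, k1, k2, k3⟩ := hS.resolve_right (not_not.2 hR)
      obtain ⟨x, hx, t, rfl⟩ := ci_single hp k2.1 k1 (by rw [h6, k2.2.1])
      exact six S hNU hp hc h3 h6 hx k2 hT k3
    · exact m_six S ih hp hc h3 h6 hN hT hR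
  by_cases hW : ∃ w ∈ gs p, ∃ s X, Nbs S.r p w s X ∧ Wt S p T w s X
  · exact m_nb S ih hp hc ho h3 hT hW
  · refine m_ci S hNU ih hp hc h3 (by omega) hN hT hS ?_
    intro w hw s hSw A hA hl hh
    have gw : gs (QUB.rm s w p) = (gs p).erase w := QUB.gs_rm s w p
    have hA' : A ⊆ (gs p).erase w := by rw [← gw]; exact hA
    have hwf : (QUB.rm s w p).1 ⊆ (QUB.rm s w p).2 := wf_rm hp hw
    have n1 : Nbs S.r p w s A := ⟨hA', hl, hh.1, by rw [← gw]; exact hh.2⟩
    have eA : (gs p).erase w \ ((gs p).erase w \ A) = A := Finset.sdiff_sdiff_eq_self hA'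
    have n2 : Nbs S.r p w s ((gs p).erase w \ A) := by
      refine ⟨Finset.sdiff_subset, ?_, by rw [← gw]; exact hh.2, ?_⟩
      · rw [← gw, QUB.lam_compl S.r hwf hA]
        exact hl
      · rw [eA]
        exact hh.1
    rcases hSw with ⟨q, k1, k2, k3⟩ | h
    · rcases rich_side hr hwf hA hl k1 k2 with h | h
      · exact hW ⟨w, hw, s, A, n1, Or.inr ⟨q, k1, k2, k3, h⟩⟩
      · exact hW ⟨w, hw, s, _, n2, Or.inr ⟨q, k1, k2, k3, by rw [← gw]; exact h⟩⟩
    · exact hW ⟨w, hw, s, A, n1, Or.inl h⟩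

/-- **Theorem U.** `p` connected and `Ok`, no `U_{3,6}` minor, `T` in `V(p)`. If `T` is diagonal on some rich minor of `p`, or if `p` has no rich
minor, then `T` is diagonal on `p`. -/
theorem thmU (S : TP F4 E) (hNU : NU S.r) (p : Itv E) (hp : p.1 ⊆ p.2) (hc : Cn S.r p) (ho : Ok S.r p) {T : Fm F4 E}
    (hT : InV S.U S.W p T) (hS : Sd S p T) : EqD S.U S.W p T 0 := by
  induction hn : (gs p).card using Nat.strong_induction_on generalizing p T with
  | _ n ih =>
    subst hn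
    exact m_step S hNU (fun q hq h1 h2 h3 T' h4 h5 => ih _ hq q h1 h2 h3 h4 h5 rfl) hp hc ho hT hS

end Pool.Agent.QU
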