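import Pool.Agent.QUB.Move
import Pool.Agent.QUL.LTh
import Pool.Agent.QUL.LBase

/-!
# QUN (layer D of (Q4), item UN): definitions

`NT r p t a b c`: `a`, `b`, `c` are independent (`t = false`) or coindependent (`t = true`) in `p`, that is, `{a, b, c}` is no triangle / no triad.
`Nrm r p q`: `q.1 \ p.1` is independent over `p.1` and `p.2 \ q.2` is coindependent.
`NU`: no minor is `U_{3,6}`.
-/

set_option autoImplicit false

namespace Pool.Agent.QU

variable {E : Type} [DecidableEq E]

/-- no side of a split at `x` of type `t` is properly contained in `X` -/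
def Mn1 (r : Finset E → ℤ) (p : Itv E) (x : E) (t : Bool) (X : Finset E) : Prop :=
  ∀ A : Finset E, QUB.Nbs r p x t A → ¬ A ⊂ X

/-- there is a four point line minor -/
def HasLn (r : Finset E → ℤ) (q : Itv E) : Prop := ∃ N, QUB.Ln r q N

/-- `{a, b, c}` is no triad (`t = true`) resp. no triangle (`t = false`) -/
def NT (r : Finset E → ℤ) (p : Itv E) (t : Bool) (a b c : E) : Prop :=
  match t with
  | true => r (((p.2.erase a).erase b).erase c) = r p.2
  | false => r (insert a (insert b (insert c p.1))) = r p.1 + 3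

/-- `{e, f}` is a series pair (`t = true`) resp. a parallel pair (`t = false`) or contains a coloop resp. a loop -/
def Ser (r : Finset E → ℤ) (p : Itv E) (t : Bool) (e f : E) : Prop :=
  match t with
  | true => r ((p.2.erase e).erase f) + 1 ≤ r p.2
  | false => r (insert e (insert f p.1)) ≤ r p.1 + 1

/-- the box `q` of `p` contracts an independent set and deletes a coindependent set -/
def Nrm (r : Finset E → ℤ) (p q : Itv E) : Prop :=
  r q.1 = r p.1 + (q.1 \ p.1).card ∧ r q.2 = r p.2

/-- no `U_{3,6}` minor -/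
def NU (r : Finset E → ℤ) : Prop :=
  ∀ q : Itv E, q.1 ⊆ q.2 → (gs q).card = 6 → r q.2 = r q.1 + 3 →
    ¬ ∀ i ∈ gs q, ∀ j ∈ gs q, ∀ k ∈ gs q, i ≠ j → i ≠ k → j ≠ k → r (q.1 ∪ {i, j, k}) = r q.1 + 3

/-- the same matroid on the same ground set -/
def SameM (r : Finset E → ℤ) (q q' : Itv E) : Prop :=
  gs q' = gs q ∧ ∀ A ⊆ gs q, r (q'.1 ∪ A) - r q'.1 = r (q.1 ∪ A) - r q.1

section

variable {K : Type} [Field K] [Fintype E]

/-- `p` has a rich minor on which `T` is diagonal, or no rich minor at all -/
def Sd (S : TP K E) (p : Itv E) (T : Fm K E) : Prop :=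
  (∃ q, Sub q p ∧ Rich S.r q ∧ EqD S.U S.W q T 0) ∨ ¬ HasRich S.r p

end

end Pool.Agent.QU
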