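import Pool.Agent.QUD.Arc
import Pool.Agent.QUY.Cut
import Pool.Agent.QUY.Dua
import Pool.Agent.QUN.Defs

/-!
# QUN/NuC: minors of the class `Cls` and the exclusion of `U_{3,6}`

`exists_minor`: for a box `q` there is `L'` of the class whose rank function is the one of the box. `nu_of_cls`: no box is `U_{3,6}`.
-/

set_option autoImplicit false

noncomputable section

open scoped Classical

namespace Pool.Agent.QUN

open Pool.Agent.FRM Pool.Agent.QUS Pool.Agent.QUE Pool.Agent.QUY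
open Pool.Agent.QU (Itv)
open QUB (gs)

variable {E : Type} [Fintype E] {L : Submodule F4 (E → F4)}

/-- the box `q` as a matroid of the class -/
theorem exists_minor (h : Cls L) {q : Itv E} (hq : q.1 ⊆ q.2) :
    ∃ L' : Submodule F4 (E → F4), Cls L' ∧ (∀ A ⊆ gs q, rk L' A = rk L (q.1 ∪ A) - rk L q.1) ∧
      rk L' Finset.univ = rk L q.2 - rk L q.1 := by
  have key : ∀ A ⊆ gs q, rk (rst (WW (rst (WW L) q.1ᶜ)) (gs q)) A = rk L (q.1 ∪ A) - rk L q.1 := by
    intro A hA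
    have hd : Disjoint A q.1 := Finset.disjoint_left.2 fun x hx => (Finset.mem_sdiff.1 (hA hx)).2
    rw [rk_rst_sub hA, rk_ww]
    unfold QUB.rd
    rw [rk_rst, rk_rst, rk_ww]
    unfold QUB.rd
    have e1 : (Aᶜ ∩ q.1ᶜ)ᶜ = q.1 ∪ A := by
      ext x
      simp only [Finset.mem_compl, Finset.mem_inter, Finset.mem_union]
      tauto
    have e2 : (Finset.univ ∩ q.1ᶜ)ᶜ = q.1 := by
      ext x
      simp
    have e3 : Finset.univ ∩ q.1ᶜ = q.1ᶜ := Finset.univ_inter _
    have e4 : Aᶜ ∩ q.1ᶜ = (q.1 ∪ A)ᶜ := by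
      rw [← e1, compl_compl]
    rw [e1, e2, e3, e4]
    have h1 : ((q.1 ∪ A)ᶜ.card : ℤ) = Fintype.card E - (q.1.card + A.card) := by
      rw [Finset.card_compl, Finset.card_union_of_disjoint hd.symm]
      have h2 : q.1.card + A.card ≤ Fintype.card E := by
        rw [← Finset.card_union_of_disjoint hd.symm]
        exact Finset.card_le_univ _
      push_cast [Nat.cast_sub h2]
      ring
    have h2 : (q.1ᶜ.card : ℤ) = Fintype.card E - q.1.card := by
      rw [Finset.card_compl, Nat.cast_sub (Finset.card_le_univ _)]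
    rw [h1, h2]
    ring
  refine ⟨rst (WW (rst (WW L) q.1ᶜ)) (gs q), cls_rst (cls_ww (cls_rst (cls_ww h) _)) _, key, ?_⟩
  have h1 := key (gs q) (Finset.Subset.refl _)
  have e1 : q.1 ∪ gs q = q.2 := Finset.union_sdiff_of_subset hq
  rw [e1] at h1
  rw [← h1, rk_rst, rk_rst, Finset.univ_inter, Finset.inter_self]

/-- six different elements -/
private theorem six_elt {A : Finset E} (h : A.card = 6) : ∃ a b c d e f : E, a ∈ A ∧ b ∈ A ∧ c ∈ A ∧ d ∈ A ∧ e ∈ A ∧ f ∈ A ∧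
    a ≠ b ∧ a ≠ c ∧ a ≠ d ∧ a ≠ e ∧ a ≠ f ∧ b ≠ c ∧ b ≠ d ∧ b ≠ e ∧ b ≠ f ∧ c ≠ d ∧ c ≠ e ∧ c ≠ f ∧ d ≠ e ∧ d ≠ f ∧ e ≠ f := by
  obtain ⟨g, -⟩ : ∃ g : Fin 6 ≃ {x // x ∈ A}, g = g := ⟨(Finset.equivFinOfCardEq h).symm, rfl⟩
  have hne : ∀ i j : Fin 6, i ≠ j → (g i : E) ≠ g j := fun i j hij hh => hij (g.injective (Subtype.ext hh))
  exact ⟨g 0, g 1, g 2, g 3, g 4, g 5, (g 0).2, (g 1).2, (g 2).2, (g 3).2, (g 4).2, (g 5).2, hne _ _ (by decide), hne _ _ (by decide),
    hne _ _ (by decide), hne _ _ (by decide), hne _ _ (by decide), hne _ _ (by decide), hne _ _ (by decide), hne _ _ (by decide),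
    hne _ _ (by decide), hne _ _ (by decide), hne _ _ (by decide), hne _ _ (by decide), hne _ _ (by decide), hne _ _ (by decide),
    hne _ _ (by decide)⟩

theorem nu_of_cls (h : Cls L) : QU.NU (rk L) := by
  intro q hq h6 hr hall
  obtain ⟨L', ⟨Φ, hΦ, hU⟩, h1, h2⟩ := exists_minor h hq
  have hB : ∀ {i j k : E}, i ∈ gs q → j ∈ gs q → k ∈ gs q → i ≠ j → i ≠ k → j ≠ k → QUD.B3 L' i j k := by
    intro i j k hi hj hk hij hik hjk
    refine ⟨hij, hik, hjk, isB_iff.2 ?_⟩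
    have h3 : ({i, j, k} : Finset E).card = 3 := Finset.card_eq_three.2 ⟨i, j, k, hij, hik, hjk, rfl⟩
    rw [h3]
    constructor
    · rw [h1 {i, j, k} (by
        intro x hx
        simp only [Finset.mem_insert, Finset.mem_singleton] at hx
        rcases hx with rfl | rfl | rfl
        · exact hi
        · exact hj
        · exact hk), hall i hi j hj k hk hij hik hjk]
      push_cast
      ring
    · rw [h2, hr]
      push_cast
      ring
  obtain ⟨a, b, c, d, e, f, ha, hb, hc, hd, he, hf, ab, ac, ad, ae, af, bc, bd, be, bf, cd, ce, cf, de, df, ef⟩ := six_elt h6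
  exact QUD.ex_36 hΦ hU (hB ha hb hc ab ac bc) (hB ha hb hd ab ad bd) (hB ha hc hd ac ad cd) (hB hb hc hd bc bd cd)
    (hB ha hb he ab ae be) (hB ha hc he ac ae ce) (hB hb hc he bc be ce) (hB ha hb hf ab af bf) (hB ha hc hf ac af cf)
    (hB hb hc hf bc bf cf) (hB ha hd he ad ae de) (hB hb hd he bd be de) (hB hc hd he cd ce de) (hB ha hd hf ad af df)
    (hB hb hd hf bd bf df) (hB hc hd hf cd cf df) (hB ha he hf ae af ef) (hB hb he hf be bf ef) (hB hc he hf ce cf ef)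
    (hB hd he hf de df ef)

end Pool.Agent.QUN
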