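import Pool.Agent.QUN.Cnl

/-!
# QUN/Ext: between two connected boxes there is a chain of connected boxes

`nrm_sub`: `Nrm` for smaller `p`: an independent set stays independent (`marg`, `hr.unit`), the rank of `q.2` is between `r q.2` and `r p.2`.
`ext_one`. `C = p.1`, `G = p.2`. Let `v` be a box with `Sub q v`, `Sub v p`, `v.1 ⊆ v.2`, `Cn r v`, `gs v ≠ gs p` and `(gs v).card` maximal (`q` is one). For `z ∈ gs p \ gs v` let `v^z` be `(v.1.erase z, v.2)` if `z ∈ v.1`
and `(v.1, insert z v.2)` if `z ∉ v.2`; `Sub v v^z`, `Sub v^z p`, `gs v^z = insert z (gs v)`, `v = rm t z v^z` with `t = false` resp. `t = true`. If `v^z` is connected then by maximality `gs v^z = gs p`, so `v^z = p` and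
`v = rm t z p`: done. So suppose that no `v^z` is connected. Then `z` is a loop or a coloop of `v^z` (if `1 ≤ lam r v^z {z}` then `v^z` is connected, since `v` is: `cn_add` of QUN/Cnl), that is, `z ∈ v.1`:
`r v.1 = r (v.1.erase z)` (impossible, `Nrm`: `v.1 \ p.1 ⊆ q.1 \ p.1` is independent) or `r (v.2.erase z) = r v.2 - 1`; `z ∉ v.2`: `r (insert z v.2) = r v.2 + 1` (impossible, `r v.2 = r p.2`) or `r (insert z v.1) = r v.1`.
So `r (v.2 \ (v.1 \ p.1)) = r p.2 - (v.1 \ p.1).card` (coloops, one by one, `marg`), `v.2 \ (v.1 \ p.1) = p.1 ∪ gs v`, and `r (v.1 ∪ (p.2 \ v.2)) = r v.1 = r p.1 + (v.1 \ p.1).card`, `v.1 ∪ (p.2 \ v.2) = p.2 \ gs v`. So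
`lam r p (gs v) = 0`, but `gs v` is nonempty and not `gs p`: against `hc`.
-/

set_option autoImplicit false

open QUB

namespace Pool.Agent.QU

variable {E : Type} [DecidableEq E] {r : Finset E → ℤ} {p q : Itv E}

private theorem ext_up (hr : Rk r) {A B : Finset E} (h : A ⊆ B) : r B ≤ r A + (B \ A).card := by
  have key : ∀ S : Finset E, r (A ∪ S) ≤ r A + S.card := by
    intro S
    induction S using Finset.induction_on with
    | empty => simp
    | insert z S hz ih =>
      have h1 := hr.unit (A ∪ S) z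
      rw [Finset.union_insert, Finset.card_insert_of_notMem hz]
      push_cast
      linarith
  have h1 := key (B \ A)
  rw [Finset.union_sdiff_of_subset h] at h1
  exact h1

private theorem ext_cd {A B C : Finset E} (h1 : A ⊆ B) (h2 : B ⊆ C) : ((C \ A).card : ℤ) = (C \ B).card + (B \ A).card := by
  rw [← Nat.cast_add]
  congr 1
  rw [Finset.card_sdiff_of_subset (h1.trans h2), Finset.card_sdiff_of_subset h2, Finset.card_sdiff_of_subset h1]
  have h3 := Finset.card_le_card h1
  have h4 := Finset.card_le_card h2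
  omega

private theorem ext_bx (hr : Rk r) {v : Itv E} (hN : Nrm r p q) (h1 : Sub q v) (h2 : Sub v p) : Nrm r p v ∧ Nrm r v q := by
  have u1 := ext_up hr h1.1
  have u2 := ext_up hr h2.1
  have c1 := ext_cd h2.1 h1.1
  have m1 := hr.mono _ _ h1.2
  have m2 := hr.mono _ _ h2.2
  obtain ⟨e1, e2⟩ := hN
  rw [c1] at e1
  exact ⟨⟨by linarith, by linarith⟩, ⟨by linarith, by linarith⟩⟩

theorem nrm_sub (hr : Rk r) {v : Itv E} (hN : Nrm r p q) (h1 : Sub q v) (h2 : Sub v p) : Nrm r v q :=
  (ext_bx hr hN h1 h2).2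

private theorem ext_colo (hr : Rk r) {G : Finset E} : ∀ S : Finset E, S ⊆ G → (∀ z ∈ S, r (G.erase z) + 1 ≤ r G) →
    r (G \ S) + S.card ≤ r G := by
  intro S
  induction S using Finset.induction_on with
  | empty =>
    intro _ _
    simp
  | insert z S hz ih =>
    intro hS h
    have hzG : z ∈ G := hS (Finset.mem_insert_self z S)
    have h1 := ih (fun y hy => hS (Finset.mem_insert_of_mem hy)) fun y hy => h y (Finset.mem_insert_of_mem hy)
    have h2 : G \ insert z S ⊆ G.erase z := by
      intro y hy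
      rw [Finset.mem_sdiff, Finset.mem_insert, not_or] at hy
      exact Finset.mem_erase.2 ⟨hy.2.1, hy.1⟩
    have h3 := QUB.marg hr h2 z
    have e1 : insert z (G \ insert z S) = G \ S := by
      ext y
      simp only [Finset.mem_insert, Finset.mem_sdiff, not_or]
      constructor
      · rintro (rfl | ⟨h4, -, h5⟩)
        · exact ⟨hzG, hz⟩
        · exact ⟨h4, h5⟩
      · rintro ⟨h4, h5⟩
        by_cases h6 : y = z
        · exact Or.inl h6
        · exact Or.inr ⟨h4, h6, h5⟩
    rw [Finset.insert_erase hzG, e1] at h3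
    have h4 := h z (Finset.mem_insert_self z S)
    rw [Finset.card_insert_of_notMem hz]
    push_cast
    linarith

private theorem ext_clo (hr : Rk r) {C : Finset E} : ∀ S : Finset E, (∀ z ∈ S, r (insert z C) ≤ r C) → r (C ∪ S) ≤ r C := by
  intro S
  induction S using Finset.induction_on with
  | empty =>
    intro _
    simp
  | insert z S hz ih =>
    intro h
    have h1 := ih fun y hy => h y (Finset.mem_insert_of_mem hy)
    have h3 := QUB.marg hr (Finset.subset_union_left (s₁ := C) (s₂ := S)) z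
    have h4 := h z (Finset.mem_insert_self z S)
    rw [Finset.union_insert]
    linarith

private theorem ext_gs {v : Itv E} (h : Sub q v) : gs q ⊆ gs v := by
  intro x hx
  have h1 := Finset.mem_sdiff.1 hx
  exact Finset.mem_sdiff.2 ⟨h.2 h1.1, fun h2 => h1.2 (h.1 h2)⟩

private theorem ext_eq {v : Itv E} (hp : p.1 ⊆ p.2) (hv : v.1 ⊆ v.2) (h : Sub v p) (hg : gs v = gs p) : v = p := by
  refine Prod.ext ?_ ?_
  · refine Finset.Subset.antisymm ?_ h.1
    intro x hx
    by_contra h1
    have h2 : x ∈ gs p := Finset.mem_sdiff.2 ⟨h.2 (hv hx), h1⟩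
    rw [← hg] at h2
    exact (Finset.mem_sdiff.1 h2).2 hx
  · refine Finset.Subset.antisymm h.2 ?_
    intro x hx
    by_cases h1 : x ∈ p.1
    · exact hv (h.1 h1)
    · have h2 : x ∈ gs p := Finset.mem_sdiff.2 ⟨hx, h1⟩
      rw [← hg] at h2
      exact (Finset.mem_sdiff.1 h2).1

/-- `v` with `z` added -/
private theorem ext_add {v : Itv E} (hv : v.1 ⊆ v.2) (hs : Sub v p) {z : E} (hz : z ∈ gs p) (hzv : z ∉ gs v) :
    ∃ (t : Bool) (w : Itv E), w.1 ⊆ w.2 ∧ Sub v w ∧ Sub w p ∧ z ∈ gs w ∧ QUB.rm t z w = v := by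
  have hz1 := Finset.mem_sdiff.1 hz
  by_cases h1 : z ∈ v.1
  · refine ⟨false, (v.1.erase z, v.2), (Finset.erase_subset _ _).trans hv, ⟨Finset.erase_subset _ _, Finset.Subset.refl _⟩,
      ⟨?_, hs.2⟩, ?_, ?_⟩
    · intro x hx
      refine Finset.mem_erase.2 ⟨?_, hs.1 hx⟩
      rintro rfl
      exact hz1.2 hx
    · exact Finset.mem_sdiff.2 ⟨hv h1, Finset.notMem_erase _ _⟩
    · show (insert z (v.1.erase z), v.2) = v
      rw [Finset.insert_erase h1]
  · have h2 : z ∉ v.2 := fun h2 => hzv (Finset.mem_sdiff.2 ⟨h2, h1⟩)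
    refine ⟨true, (v.1, insert z v.2), hv.trans (Finset.subset_insert _ _), ⟨Finset.Subset.refl _, Finset.subset_insert _ _⟩,
      ⟨hs.1, ?_⟩, ?_, ?_⟩
    · intro x hx
      rcases Finset.mem_insert.1 hx with rfl | h3
      · exact hz1.1
      · exact hs.2 h3
    · exact Finset.mem_sdiff.2 ⟨Finset.mem_insert_self _ _, h1⟩
    · show (v.1, (insert z v.2).erase z) = v
      rw [Finset.erase_insert h2]

private theorem ext_main (hr : Rk r) (hp : p.1 ⊆ p.2) (hc : Cn r p) (hne : (gs q).Nonempty) (hN : Nrm r p q) :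
    ∀ (n : ℕ) (v : Itv E), v.1 ⊆ v.2 → Sub q v → Sub v p → Cn r v → gs v ≠ gs p → (gs p).card ≤ (gs v).card + n →
      ∃ z ∈ gs p, z ∉ gs q ∧ ∃ t, Sub q (QUB.rm t z p) ∧ Cn r (QUB.rm t z p) := by
  intro n
  induction n with
  | zero =>
    intro v hv h1 h2 _ h4 h5
    exact absurd (Finset.eq_of_subset_of_card_le (ext_gs h2) (by omega)) h4
  | succ n ih =>
    intro v hv h1 h2 h3 h4 h5
    by_cases hex : ∃ z ∈ gs p, z ∉ gs v ∧ ∃ (t : Bool) (w : Itv E), w.1 ⊆ w.2 ∧ Sub v w ∧ Sub w p ∧ z ∈ gs w ∧ QUB.rm t z w = v ∧ Cn r w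
    · obtain ⟨z, hz, hzv, t, w, hw, k1, k2, k3, k4, k5⟩ := hex
      by_cases hg : gs w = gs p
      · have e := ext_eq hp hw k2 hg
        subst e
        refine ⟨z, hz, fun h => hzv (ext_gs h1 h), t, ?_, ?_⟩
        · rw [k4]
          exact h1
        · rw [k4]
          exact h3
      · refine ih w hw (Sub.trans k1 h1) k2 k5 hg ?_
        have h6 : gs v = (gs w).erase z := by
          rw [← k4]
          exact QUB.gs_rm t z w
        have h7 := Finset.card_erase_of_mem k3
        have h8 : 0 < (gs w).card := Finset.card_pos.2 ⟨z, k3⟩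
        rw [h6] at h5
        omega
    · exfalso
      obtain ⟨⟨b1, b2⟩, -⟩ := ext_bx hr hN h1 h2
      have hlow : ∀ z ∈ gs p, z ∉ gs v → ∀ (t : Bool) (w : Itv E), w.1 ⊆ w.2 → Sub v w → Sub w p → z ∈ gs w → QUB.rm t z w = v →
          QUB.lam r w {z} < 1 := by
        intro z hz hzv t w hw k1 k2 k3 k4
        by_contra h6
        refine hex ⟨z, hz, hzv, t, w, hw, k1, k2, k3, k4, cn_add hr hw k3 (s := t) ?_ (not_lt.1 h6)⟩
        rw [k4]
        exact h3
      have hA : ∀ z ∈ v.1 \ p.1, r (v.2.erase z) + 1 ≤ r v.2 := by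
        intro z hz
        have hz1 := Finset.mem_sdiff.1 hz
        have hzp : z ∈ gs p := Finset.mem_sdiff.2 ⟨h2.2 (hv hz1.1), hz1.2⟩
        have hzv : z ∉ gs v := fun h => (Finset.mem_sdiff.1 h).2 hz1.1
        have h6 := hlow z hzp hzv false (v.1.erase z, v.2) ((Finset.erase_subset _ _).trans hv)
          ⟨Finset.erase_subset _ _, Finset.Subset.refl _⟩ ⟨?_, h2.2⟩
          (Finset.mem_sdiff.2 ⟨hv hz1.1, Finset.notMem_erase _ _⟩)
          (by
            show (insert z (v.1.erase z), v.2) = v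
            rw [Finset.insert_erase hz1.1])
        · unfold QUB.lam at h6
          have e1 : v.1.erase z ∪ {z} = v.1 := by
            rw [Finset.union_comm, ← Finset.insert_eq, Finset.insert_erase hz1.1]
          have h7 : r (v.1.erase z ∪ {z}) + r (v.2 \ {z}) - r v.2 - r (v.1.erase z) < 1 := h6
          rw [e1, Finset.sdiff_singleton_eq_erase] at h7
          have hpe : p.1 ⊆ v.1.erase z := by
            intro x hx
            refine Finset.mem_erase.2 ⟨?_, h2.1 hx⟩
            rintro rfl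
            exact hz1.2 hx
          have h8 := ext_up hr hpe
          have h9 := ext_cd hpe (Finset.erase_subset z v.1)
          have h10 : ((v.1 \ v.1.erase z).card : ℤ) = 1 := by
            rw [Finset.card_sdiff_of_subset (Finset.erase_subset _ _), Finset.card_erase_of_mem hz1.1]
            have : 0 < v.1.card := Finset.card_pos.2 ⟨z, hz1.1⟩
            have e2 : v.1.card - (v.1.card - 1) = 1 := by omega
            rw [e2]
            rfl
          linarith
        · intro x hx
          refine Finset.mem_erase.2 ⟨?_, h2.1 hx⟩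
          rintro rfl
          exact hz1.2 hx
      have hB : ∀ z ∈ p.2 \ v.2, r (insert z v.1) ≤ r v.1 := by
        intro z hz
        have hz1 := Finset.mem_sdiff.1 hz
        have hz3 : z ∉ v.1 := fun h => hz1.2 (hv h)
        have hzp : z ∈ gs p := Finset.mem_sdiff.2 ⟨hz1.1, fun h => hz3 (h2.1 h)⟩
        have hzv : z ∉ gs v := fun h => hz1.2 (Finset.mem_sdiff.1 h).1
        have hins : insert z v.2 ⊆ p.2 := by
          intro x hx
          rcases Finset.mem_insert.1 hx with rfl | h3
          · exact hz1.1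
          · exact h2.2 h3
        have h6 := hlow z hzp hzv true (v.1, insert z v.2) (hv.trans (Finset.subset_insert _ _))
          ⟨Finset.Subset.refl _, Finset.subset_insert _ _⟩ ⟨h2.1, hins⟩
          (Finset.mem_sdiff.2 ⟨Finset.mem_insert_self _ _, hz3⟩)
          (by
            show (v.1, (insert z v.2).erase z) = v
            rw [Finset.erase_insert hz1.2])
        have h7 : r (v.1 ∪ {z}) + r (insert z v.2 \ {z}) - r (insert z v.2) - r v.1 < 1 := h6
        rw [Finset.union_comm, ← Finset.insert_eq, Finset.sdiff_singleton_eq_erase, Finset.erase_insert hz1.2] at h7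
        have h8 := hr.mono _ _ hins
        have h9 := hr.mono _ _ (Finset.subset_insert z v.2)
        linarith
      have h6 := ext_colo hr (v.1 \ p.1) (Finset.sdiff_subset.trans hv) hA
      have h7 := ext_clo hr (p.2 \ v.2) hB
      have e1 : v.2 \ (v.1 \ p.1) = p.1 ∪ gs v := by
        ext x
        have k1 : x ∈ p.1 → x ∈ v.1 := fun h => h2.1 h
        have k2 : x ∈ v.1 → x ∈ v.2 := fun h => hv h
        simp only [QUB.gs, Finset.mem_sdiff, Finset.mem_union]
        tauto
      have e2 : v.1 ∪ (p.2 \ v.2) = p.2 \ gs v := by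
        ext x
        have k1 : x ∈ v.1 → x ∈ v.2 := fun h => hv h
        have k2 : x ∈ v.2 → x ∈ p.2 := fun h => h2.2 h
        simp only [QUB.gs, Finset.mem_sdiff, Finset.mem_union]
        tauto
      rw [e1] at h6
      rw [e2] at h7
      have h8 : (gs p \ gs v).Nonempty := by
        rw [Finset.sdiff_nonempty]
        intro h
        exact h4 (Finset.Subset.antisymm (ext_gs h2) h)
      have h9 := hc (gs v) (ext_gs h2) (hne.mono (ext_gs h1)) h8
      unfold QUB.lam at h9
      linarith

theorem ext_one (hr : Rk r) (hp : p.1 ⊆ p.2) (hc : Cn r p) (hqq : q.1 ⊆ q.2) (hq : Sub q p) (hqc : Cn r q) (hne : (gs q).Nonempty)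
    (hN : Nrm r p q) (h : gs q ≠ gs p) : ∃ z ∈ gs p, z ∉ gs q ∧ ∃ t, Sub q (QUB.rm t z p) ∧ Cn r (QUB.rm t z p) :=
  ext_main hr hp hc hne hN (gs p).card q hqq Sub.rfl hq hqc h (Nat.le_add_left _ _)

end Pool.Agent.QU
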