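import Pool.Agent.QUN.Main
import Pool.Agent.QUN.NuC

/-!
# QUN/Fin: consequences of Theorem U for the class `Cls`

`invs_of_ne` (UN+ of layer D): for a connected `Ok` box `p` of a matroid of the class a form in `V(p)` which is not diagonal on `p` is not diagonal on any rich minor.
`diag_of_nonrich`: without rich minors all forms are diagonal.
-/

set_option autoImplicit false

noncomputable section

open scoped Classical

namespace Pool.Agent.QUN

open Pool.Agent.FRM Pool.Agent.QUS Pool.Agent.QUE Pool.Agent.QUY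
open Pool.Agent.QU (Fm InVs InV EqD Itv)

variable {E : Type} [Fintype E] {L : Submodule F4 (E → F4)}

theorem invs_of_ne (hL : Cls L) {p : Itv E} (hp : p.1 ⊆ p.2) (hC : QUB.Cn (rk L) p) (hO : QUB.Ok (rk L) p)
    {T : Fm F4 E} (hT : InV L (WW L) p T) (hn : ¬ EqD L (WW L) p T 0) : InVs (tp L) p T :=
  ⟨hT, fun q h1 h2 h3 => hn (QU.thmU (tp L) (nu_of_cls hL) p hp hC hO hT (Or.inl ⟨q, h1, h2, h3⟩))⟩

theorem diag_of_nonrich (hL : Cls L) {p : Itv E} (hp : p.1 ⊆ p.2) (hC : QUB.Cn (rk L) p) (hO : QUB.Ok (rk L) p)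
    (hR : ¬ QU.HasRich (rk L) p) {T : Fm F4 E} (hT : InV L (WW L) p T) : EqD L (WW L) p T 0 :=
  QU.thmU (tp L) (nu_of_cls hL) p hp hC hO hT (Or.inr hR)

end Pool.Agent.QUN
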