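import Pool.Agent.QUN.Th
import Pool.Agent.QUB.Move

/-!
# QUN/Min: a minimal set `A` with at least three elements and connectivity one

`min_cn`: removing an element of `A` keeps the minor connected.
`min_nt`: two elements of `A` have a third one in `A` with which they form no triad (`s = true`) resp. no triangle (`s = false`).
-/

set_option autoImplicit false

open QUB

namespace Pool.Agent.QU

variable {E : Type} [DecidableEq E] {r : Finset E → ℤ} {p : Itv E}

/-- the key step: a side which does not cover the rest of `A` misses `A` -/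
private theorem qunmin_key {P : Itv E} (hr : Rk r) (hc : Cn r P) {A : Finset E} (hA : A ⊆ gs P)
    (h3 : 3 ≤ A.card) (hl : QUB.lam r P A ≤ 1) (hm : ∀ B, B ⊂ A → 2 ≤ B.card → 2 ≤ QUB.lam r P B) {e : E} (he : e ∈ A)
    {B : Finset E} (hB : B ⊆ (gs P).erase e) (h1 : QUB.lam r P B ≤ 1) (h2 : QUB.lam r P (insert e B) ≤ 1)
    {y : E} (hy : y ∈ (gs P).erase e) (hyB : y ∉ B) (hyA : y ∉ A) : A ∩ B = ∅ := by
  by_contra hne
  obtain ⟨z, hz⟩ := Finset.nonempty_iff_ne_empty.2 hne
  have hzA := (Finset.mem_inter.1 hz).1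
  have hzB := (Finset.mem_inter.1 hz).2
  have hze : z ≠ e := (Finset.mem_erase.1 (hB hzB)).1
  have hye := (Finset.mem_erase.1 hy).1
  have hyP := (Finset.mem_erase.1 hy).2
  have hBP : B ⊆ gs P := hB.trans (Finset.erase_subset _ _)
  have heB : e ∉ B := fun h => (Finset.mem_erase.1 (hB h)).1 rfl
  have k1 : 1 ≤ QUB.lam r P (A ∪ B) := by
    refine hc _ (Finset.union_subset hA hBP) ⟨e, Finset.mem_union_left _ he⟩ ⟨y, ?_⟩
    refine Finset.mem_sdiff.2 ⟨hyP, ?_⟩
    rw [Finset.mem_union]
    rintro (h | h)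
    · exact hyA h
    · exact hyB h
  have k2 : 1 ≤ QUB.lam r P (A ∪ insert e B) := by
    refine hc _ (Finset.union_subset hA (Finset.insert_subset (hA he) hBP)) ⟨e, Finset.mem_union_left _ he⟩ ⟨y, ?_⟩
    refine Finset.mem_sdiff.2 ⟨hyP, ?_⟩
    rw [Finset.mem_union, Finset.mem_insert]
    rintro (h | h | h)
    · exact hyA h
    · exact hye h
    · exact hyB h
  have s1 := lam_sub (p := P) hr A B
  have s2 := lam_sub (p := P) hr A (insert e B)
  have hc2 : 2 ≤ (A ∩ insert e B).card := by
    have hsub : ({e, z} : Finset E) ⊆ A ∩ insert e B := by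
      intro x hx
      rw [Finset.mem_insert, Finset.mem_singleton] at hx
      rw [Finset.mem_inter, Finset.mem_insert]
      rcases hx with rfl | rfl
      · exact ⟨he, Or.inl rfl⟩
      · exact ⟨hzA, Or.inr hzB⟩
    have := Finset.card_le_card hsub
    rwa [Finset.card_pair (Ne.symm hze)] at this
  have hEq : A ∩ insert e B = A := by
    by_contra hn
    have hss : A ∩ insert e B ⊂ A := Finset.ssubset_iff_subset_ne.2 ⟨Finset.inter_subset_left, hn⟩
    have := hm _ hss hc2
    linarith
  have hEq2 : A ∩ B = A.erase e := by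
    ext x
    rw [Finset.mem_inter, Finset.mem_erase]
    constructor
    · rintro ⟨h3, h4⟩
      exact ⟨fun h => heB (h ▸ h4), h3⟩
    · rintro ⟨h3, h4⟩
      refine ⟨h4, ?_⟩
      rw [← hEq, Finset.mem_inter, Finset.mem_insert] at h4
      rcases h4.2 with h | h
      · exact absurd h h3
      · exact h
  have hcard : 2 ≤ (A ∩ B).card := by
    rw [hEq2, Finset.card_erase_of_mem he]
    omega
  have hss : A ∩ B ⊂ A := by
    rw [hEq2]
    exact Finset.erase_ssubset he
  have := hm _ hss hcard
  linarith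

theorem min_cn {P : Itv E} (hr : Rk r) (hP : P.1 ⊆ P.2) (hc : Cn r P) {A : Finset E} (hA : A ⊆ gs P) (hne : (gs P \ A).Nonempty)
    (h3 : 3 ≤ A.card) (hl : QUB.lam r P A ≤ 1) (hm : ∀ B, B ⊂ A → 2 ≤ B.card → 2 ≤ QUB.lam r P B) {e : E} (he : e ∈ A) (t : Bool) :
    Cn r (QUB.rm t e P) := by
  intro B hB hBne hBne'
  rw [gs_rm] at hB hBne'
  by_contra hlt
  have heP : e ∈ gs P := hA he
  have heB : e ∉ B := fun h => (Finset.mem_erase.1 (hB h)).1 rfl
  have hBP : B ⊆ gs P := hB.trans (Finset.erase_subset _ _)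
  have l1 := lam_le_rm hr (t := t) heP hB
  have l2 := lam_le_rm' hr (t := t) heP hB
  have e1 : gs P \ insert e B = (gs P).erase e \ B := by
    ext x
    simp only [Finset.mem_sdiff, Finset.mem_insert, Finset.mem_erase]
    tauto
  have e2 : gs P \ B = insert e ((gs P).erase e \ B) := by
    ext x
    simp only [Finset.mem_sdiff, Finset.mem_insert, Finset.mem_erase]
    by_cases hx : x = e
    · subst hx
      simp [heP, heB]
    · simp [hx]
  have e3 : (gs P).erase e \ ((gs P).erase e \ B) = B := Finset.sdiff_sdiff_eq_self hB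
  have l3 := lam_compl r hP (Finset.insert_subset heP hBP)
  have l4 := lam_compl r hP hBP
  rw [e1] at l3
  rw [e2] at l4
  have b1 : QUB.lam r P B ≤ 1 := by linarith
  have b2 : QUB.lam r P (insert e B) ≤ 1 := by linarith
  have b3 : QUB.lam r P ((gs P).erase e \ B) ≤ 1 := by linarith
  have b4 : QUB.lam r P (insert e ((gs P).erase e \ B)) ≤ 1 := by linarith
  have c1 : ¬ (gs P).erase e \ B ⊆ A → A ∩ B = ∅ := by
    intro h
    obtain ⟨y, hy, hyA⟩ := Finset.not_subset.1 h
    exact qunmin_key hr hc hA h3 hl hm he hB b1 b2 (Finset.mem_sdiff.1 hy).1 (Finset.mem_sdiff.1 hy).2 hyA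
  have c2 : ¬ B ⊆ A → A ∩ ((gs P).erase e \ B) = ∅ := by
    intro h
    obtain ⟨y, hy, hyA⟩ := Finset.not_subset.1 h
    exact qunmin_key hr hc hA h3 hl hm he Finset.sdiff_subset b3 b4 (hB hy)
      (fun h' => (Finset.mem_sdiff.1 h').2 hy) hyA
  by_cases d1 : (gs P).erase e \ B ⊆ A
  · have d2 : ¬ B ⊆ A := by
      intro d2
      obtain ⟨x, hx⟩ := hne
      obtain ⟨hx1, hx2⟩ := Finset.mem_sdiff.1 hx
      by_cases hxe : x = e
      · exact hx2 (hxe ▸ he)
      · by_cases hxB : x ∈ B
        · exact hx2 (d2 hxB)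
        · exact hx2 (d1 (Finset.mem_sdiff.2 ⟨Finset.mem_erase.2 ⟨hxe, hx1⟩, hxB⟩))
    obtain ⟨y, hy⟩ := hBne'
    have := c2 d2
    have hy2 : y ∈ A ∩ ((gs P).erase e \ B) := Finset.mem_inter.2 ⟨d1 hy, hy⟩
    rw [this] at hy2
    exact absurd hy2 (Finset.notMem_empty _)
  · have d3 := c1 d1
    by_cases d2 : B ⊆ A
    · obtain ⟨y, hy⟩ := hBne
      have hy2 : y ∈ A ∩ B := Finset.mem_inter.2 ⟨d2 hy, hy⟩
      rw [d3] at hy2
      exact absurd hy2 (Finset.notMem_empty _)
    · have d4 := c2 d2
      have hsub : A ⊆ {e} := by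
        intro x hx
        rw [Finset.mem_singleton]
        by_contra hxe
        by_cases hxB : x ∈ B
        · have : x ∈ A ∩ B := Finset.mem_inter.2 ⟨hx, hxB⟩
          rw [d3] at this
          exact absurd this (Finset.notMem_empty _)
        · have : x ∈ A ∩ ((gs P).erase e \ B) :=
            Finset.mem_inter.2 ⟨hx, Finset.mem_sdiff.2 ⟨Finset.mem_erase.2 ⟨hxe, hA hx⟩, hxB⟩⟩
          rw [d4] at this
          exact absurd this (Finset.notMem_empty _)
      have := Finset.card_le_card hsub
      rw [Finset.card_singleton] at this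
      omega

/-- removing coloops one by one -/
private theorem qunmin_del (hr : Rk r) {F : Finset E} (C : Finset E)
    (h : ∀ c ∈ C, c ∈ F ∧ r (F.erase c) ≤ r F - 1) : r (F \ C) ≤ r F - C.card := by
  induction C using Finset.induction_on with
  | empty => simp
  | insert c C hc ih =>
    have ih' := ih (fun x hx => h x (Finset.mem_insert_of_mem hx))
    obtain ⟨h1, h2⟩ := h c (Finset.mem_insert_self _ _)
    have hsub : F \ insert c C ⊆ F.erase c := by
      intro x hx
      rw [Finset.mem_sdiff, Finset.mem_insert] at hx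
      exact Finset.mem_erase.2 ⟨fun h => hx.2 (Or.inl h), hx.1⟩
    have hm := marg hr hsub c
    have e1 : insert c (F \ insert c C) = F \ C := by
      ext x
      rw [Finset.mem_insert, Finset.mem_sdiff, Finset.mem_sdiff, Finset.mem_insert]
      by_cases hx : x = c
      · subst hx
        simp [h1, hc]
      · simp [hx]
    rw [Finset.insert_erase h1, e1] at hm
    rw [Finset.card_insert_of_notMem hc]
    push_cast
    linarith

/-- adding elements of the closure one by one -/
private theorem qunmin_con (hr : Rk r) {F : Finset E} (C : Finset E)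
    (h : ∀ c ∈ C, r (insert c F) ≤ r F) : r (F ∪ C) ≤ r F := by
  induction C using Finset.induction_on with
  | empty => simp
  | insert c C hc ih =>
    have ih' := ih (fun x hx => h x (Finset.mem_insert_of_mem hx))
    have h2 := h c (Finset.mem_insert_self _ _)
    have hm := marg hr (Finset.subset_union_left (s₁ := F) (s₂ := C)) c
    rw [Finset.union_insert]
    linarith

/-- adding elements one by one -/
private theorem qunmin_unit (hr : Rk r) (F C : Finset E) : r (F ∪ C) ≤ r F + C.card := by
  induction C using Finset.induction_on with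
  | empty => simp
  | insert c C hc ih =>
    have h1 := hr.unit (F ∪ C) c
    rw [Finset.union_insert, Finset.card_insert_of_notMem hc]
    push_cast
    linarith

theorem min_nt (hr : Rk r) (hp : p.1 ⊆ p.2) (h3 : Th3 r p) (hn : 4 ≤ (gs p).card) {w : E} {s : Bool} (hw : w ∈ gs p) {A : Finset E}
    (hA : A ⊆ (gs p).erase w) (hA' : 2 ≤ ((gs p).erase w \ A).card) (hA3 : 3 ≤ A.card) (hl : QUB.lam r (QUB.rm s w p) A ≤ 1)
    (hm : ∀ B, B ⊂ A → 2 ≤ B.card → 2 ≤ QUB.lam r (QUB.rm s w p) B) {a b : E} (ha : a ∈ A) (hb : b ∈ A) (hab : a ≠ b) :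
    ∃ c ∈ A, c ≠ a ∧ c ≠ b ∧ NT r p s a b c := by
  have hAp : A ⊆ gs p := hA.trans (Finset.erase_subset _ _)
  have haP := Finset.mem_sdiff.1 (hAp ha)
  have hbP := Finset.mem_sdiff.1 (hAp hb)
  have hwP := Finset.mem_sdiff.1 hw
  have hwA : w ∉ A := fun h => (Finset.mem_erase.1 (hA h)).1 rfl
  have hba : b ≠ a := fun h => hab h.symm
  have hT : 2 ≤ QUB.lam r p A := by
    refine h3 A hAp (by omega) ?_
    refine hA'.trans (Finset.card_le_card ?_)
    exact Finset.sdiff_subset_sdiff (Finset.erase_subset _ _) (Finset.Subset.refl _)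
  have hpair : ({a, b} : Finset E) ⊂ A := by
    refine Finset.ssubset_iff_subset_ne.2 ⟨?_, ?_⟩
    · intro x hx
      rw [Finset.mem_insert, Finset.mem_singleton] at hx
      rcases hx with rfl | rfl
      · exact ha
      · exact hb
    · intro h
      rw [← h, Finset.card_pair hab] at hA3
      omega
  have hpc : 2 ≤ ({a, b} : Finset E).card := by rw [Finset.card_pair hab]
  have hL := hm _ hpair hpc
  set C : Finset E := (A.erase a).erase b with hC
  have hCc : (C.card : ℤ) = A.card - 2 := by
    have h1 : (A.erase a).card = A.card - 1 := Finset.card_erase_of_mem ha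
    have h2 : C.card = (A.erase a).card - 1 :=
      Finset.card_erase_of_mem (Finset.mem_erase.2 ⟨hba, hb⟩)
    omega
  by_contra hno
  push Not at hno
  cases s
  · -- contraction
    set F : Finset E := insert a (insert b p.1) with hF
    have hrF : r F = r p.1 + 2 := th3_con2 hr hp h3 hn (hAp ha) (hAp hb) hab
    have hcl : ∀ c ∈ C, r (insert c F) ≤ r F := by
      intro c hc
      rw [hC, Finset.mem_erase, Finset.mem_erase] at hc
      have h1 := hno c hc.2.2 hc.2.1 hc.1
      have h2 : r (insert a (insert b (insert c p.1))) ≠ r p.1 + 3 := h1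
      have e1 : insert a (insert b (insert c p.1)) = insert c F := by
        rw [hF]
        ext x
        simp only [Finset.mem_insert]
        tauto
      rw [e1] at h2
      have h3 := hr.unit F c
      have h4 : r (insert c F) ≠ r F + 1 := by
        rw [hrF]
        intro h
        apply h2
        linarith
      omega
    have h5 := qunmin_con hr C hcl
    have e2 : F ∪ C = p.1 ∪ A := by
      rw [hF, hC]
      ext x
      simp only [Finset.mem_union, Finset.mem_insert, Finset.mem_erase]
      by_cases hxa : x = a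
      · subst hxa
        simp [ha]
      · by_cases hxb : x = b
        · subst hxb
          simp [hb]
        · simp [hxa, hxb]
    rw [e2, hrF] at h5
    have h6 : 2 ≤ r (p.1 ∪ A) + r (p.2 \ A) - r p.2 - r p.1 := hT
    have h7 : r (insert w p.1 ∪ A) + r (p.2 \ A) - r p.2 - r (insert w p.1) ≤ 1 := hl
    have h8 : 2 ≤ r (insert w p.1 ∪ {a, b}) + r (p.2 \ {a, b}) - r p.2 - r (insert w p.1) := hL
    have h9 := hr.mono _ _ (Finset.union_subset_union_right (s := insert w p.1) hpair.1)
    have h10 := hr.mono _ _ (Finset.sdiff_subset (s := p.2) (t := {a, b}))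
    linarith
  · -- deletion
    set F : Finset E := (p.2.erase a).erase b with hF
    have hrF : r F = r p.2 := th3_del2 hr hp h3 hn (hAp ha) (hAp hb) hab
    have hcl : ∀ c ∈ C, c ∈ F ∧ r (F.erase c) ≤ r F - 1 := by
      intro c hc
      rw [hC, Finset.mem_erase, Finset.mem_erase] at hc
      have h1 := hno c hc.2.2 hc.2.1 hc.1
      have h2 : r (F.erase c) ≠ r p.2 := h1
      have h3 := hr.mono _ _ (Finset.erase_subset c F)
      have hcP := Finset.mem_sdiff.1 (hAp hc.2.2)
      refine ⟨?_, ?_⟩
      · rw [hF, Finset.mem_erase, Finset.mem_erase]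
        exact ⟨hc.1, hc.2.1, hcP.1⟩
      · rw [hrF] at h3 ⊢
        omega
    have h5 := qunmin_del hr C hcl
    have e2 : F \ C = p.2 \ A := by
      rw [hF, hC]
      ext x
      simp only [Finset.mem_sdiff, Finset.mem_erase]
      by_cases hxa : x = a
      · subst hxa
        simp [ha]
      · by_cases hxb : x = b
        · subst hxb
          simp [hb]
        · simp [hxa, hxb]
    rw [e2, hrF, hCc] at h5
    have h6 : 2 ≤ r (p.1 ∪ A) + r (p.2 \ A) - r p.2 - r p.1 := hT
    have h7 : r (p.1 ∪ A) + r (p.2.erase w \ A) - r (p.2.erase w) - r p.1 ≤ 1 := hl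
    have h8 : 2 ≤ r (p.1 ∪ {a, b}) + r (p.2.erase w \ {a, b}) - r (p.2.erase w) - r p.1 := hL
    have hw1 : r (p.2.erase w) = r p.2 := th3_del1 hr hp h3 hn hw
    have e3 : p.2.erase w \ {a, b} = (p.2.erase w \ A) ∪ C := by
      rw [hC]
      ext x
      simp only [Finset.mem_union, Finset.mem_sdiff, Finset.mem_insert, Finset.mem_singleton, Finset.mem_erase]
      by_cases hxA : x ∈ A
      · have h1 := Finset.mem_erase.1 (hA hxA)
        have h2 := Finset.mem_sdiff.1 h1.2
        simp only [hxA, h2.1]
        tauto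
      · have h1 : x ≠ a := fun h => hxA (h ▸ ha)
        have h2 : x ≠ b := fun h => hxA (h ▸ hb)
        simp [hxA, h1, h2]
    have h9 := qunmin_unit hr (p.2.erase w \ A) C
    rw [← e3, hCc] at h9
    have h10 : r (p.1 ∪ {a, b}) ≤ r p.1 + 2 := by
      have e4 : p.1 ∪ {a, b} = insert a (insert b p.1) := by
        ext x
        simp only [Finset.mem_union, Finset.mem_insert, Finset.mem_singleton]
        tauto
      rw [e4]
      have := hr.unit (insert b p.1) a
      have := hr.unit p.1 b
      linarith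
    linarith

end Pool.Agent.QU
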