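import Pool.Agent.QUN.Cnl
import Pool.Agent.QUN.Th
import Pool.Agent.QUB.Line

/-!
# QUN/Prs: all minimal sets of connectivity one are pairs

`pair_ser`: a pair of connectivity one after the removal of `w` from a 3-connected matroid. `pair_max`: let `Z` be a maximal proper subset of `X` of connectivity one
with `e, f ∈ Z`; the elements of `X` outside of `Z` can be removed, or there is another pair.
-/

set_option autoImplicit false

open QUB

namespace Pool.Agent.QU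

variable {E : Type} [DecidableEq E] {r : Finset E → ℤ} {p : Itv E}

private theorem prs_erase (S : Finset E) (e f : E) : S \ {e, f} = (S.erase e).erase f := by
  ext y
  simp only [Finset.mem_sdiff, Finset.mem_insert, Finset.mem_singleton, Finset.mem_erase]
  tauto

private theorem prs_insert (S : Finset E) (e f : E) : S ∪ {e, f} = insert e (insert f S) := by
  ext y
  simp only [Finset.mem_union, Finset.mem_insert, Finset.mem_singleton]
  tauto

theorem pair_ser (hr : Rk r) (hp : p.1 ⊆ p.2) (h3 : Th3 r p) (hn : 4 ≤ (gs p).card) {w e f : E} {s : Bool} (hw : w ∈ gs p) (he : e ∈ gs p)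
    (hf : f ∈ gs p) (hwe : w ≠ e) (hwf : w ≠ f) (hef : e ≠ f) (h : QUB.lam r (QUB.rm s w p) {e, f} ≤ 1) : Ser r (QUB.rm s w p) s e f := by
  cases s
  · have h1 : r (insert w p.1 ∪ {e, f}) + r (p.2 \ {e, f}) - r p.2 - r (insert w p.1) ≤ 1 := h
    rw [prs_erase, prs_insert, th3_del2 hr hp h3 hn he hf hef] at h1
    show r (insert e (insert f (insert w p.1))) ≤ r (insert w p.1) + 1
    linarith
  · have h1 : r (p.1 ∪ {e, f}) + r (p.2.erase w \ {e, f}) - r (p.2.erase w) - r p.1 ≤ 1 := h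
    rw [prs_erase, prs_insert, th3_con2 hr hp h3 hn he hf hef] at h1
    show r (((p.2.erase w).erase e).erase f) + 1 ≤ r (p.2.erase w)
    linarith

/-- the two elements of a series pair are on the same side -/
private theorem prs_side {P : Itv E} (hr : Rk r) (hP : P.1 ⊆ P.2) (hc : Cn r P) {g e f : E} {s : Bool} (hg : g ∈ gs P) (he : e ∈ gs P)
    (hf : f ∈ gs P) (hge : g ≠ e) (hgf : g ≠ f) (hef : e ≠ f) (hser : Ser r P s e f) {B : Finset E} (hB : B ⊆ (gs P).erase g)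
    (hl : QUB.lam r (QUB.rm (!s) g P) B ≤ 0) (heB : e ∈ B) : f ∈ B := by
  by_contra hfB
  have hgB : g ∉ B := fun h => (Finset.mem_erase.1 (hB h)).1 rfl
  have hBG : ∀ y ∈ B, y ∈ P.2 ∧ y ∉ P.1 := fun y hy => Finset.mem_sdiff.1 (Finset.mem_erase.1 (hB hy)).2
  have hgG := Finset.mem_sdiff.1 hg
  have heG := Finset.mem_sdiff.1 he
  have hfG := Finset.mem_sdiff.1 hf
  have sing : ∀ x y : E, x ∈ gs P → y ∈ gs P → x ≠ y → 1 ≤ r (insert x P.1) + r (P.2.erase x) - r P.2 - r P.1 := by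
    intro x y hx hy hxy
    have h1 := hc {x} (Finset.singleton_subset_iff.2 hx) (Finset.singleton_nonempty x)
      ⟨y, Finset.mem_sdiff.2 ⟨hy, fun h => hxy (Finset.mem_singleton.1 h).symm⟩⟩
    unfold QUB.lam at h1
    rw [Finset.sdiff_singleton_eq_erase, Finset.union_comm, ← Finset.insert_eq] at h1
    exact h1
  have k1 := sing e f he hf hef
  have k2 := sing f e hf he hef.symm
  have u1 := hr.unit P.1 e
  have u2 := hr.unit P.1 f
  have m1 : r (P.2.erase e) ≤ r P.2 := hr.mono _ _ (Finset.erase_subset _ _)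
  have m2 : r (P.2.erase f) ≤ r P.2 := hr.mono _ _ (Finset.erase_subset _ _)
  cases s
  · -- parallel pair, deletion of `g`
    have h1 : r (P.1 ∪ B) + r (P.2.erase g \ B) - r (P.2.erase g) - r P.1 ≤ 0 := hl
    have h2 : r (insert e (insert f P.1)) ≤ r P.1 + 1 := hser
    have s1 := hr.sub (insert f (P.1 ∪ B)) (P.2.erase g \ B)
    have e1 : insert f (P.1 ∪ B) ∪ (P.2.erase g \ B) = P.2.erase g := by
      ext y
      simp only [Finset.mem_union, Finset.mem_insert, Finset.mem_sdiff, Finset.mem_erase]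
      constructor
      · rintro ((rfl | h3 | h3) | h3)
        · exact ⟨hgf.symm, hfG.1⟩
        · exact ⟨fun h4 => hgG.2 (h4 ▸ h3), hP h3⟩
        · exact ⟨fun h4 => hgB (h4 ▸ h3), (hBG y h3).1⟩
        · exact h3.1
      · intro h3
        by_cases h4 : y ∈ B
        · exact Or.inl (Or.inr (Or.inr h4))
        · exact Or.inr ⟨h3, h4⟩
    have e2 : insert f (P.1 ∪ B) ∩ (P.2.erase g \ B) = insert f P.1 := by
      ext y
      simp only [Finset.mem_union, Finset.mem_insert, Finset.mem_sdiff, Finset.mem_erase, Finset.mem_inter]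
      constructor
      · rintro ⟨h3, -, h4⟩
        rcases h3 with h3 | h3 | h3
        · exact Or.inl h3
        · exact Or.inr h3
        · exact absurd h3 h4
      · rintro (rfl | h3)
        · exact ⟨Or.inl rfl, ⟨hgf.symm, hfG.1⟩, hfB⟩
        · exact ⟨Or.inr (Or.inl h3), ⟨fun h4 => hgG.2 (h4 ▸ h3), hP h3⟩, fun h4 => (hBG y h4).2 h3⟩
    rw [e1, e2] at s1
    have s2 := hr.sub (P.1 ∪ B) (insert e (insert f P.1))
    have e3 : (P.1 ∪ B) ∪ insert e (insert f P.1) = insert f (P.1 ∪ B) := by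
      ext y
      simp only [Finset.mem_union, Finset.mem_insert]
      constructor
      · rintro ((h3 | h3) | rfl | rfl | h3)
        · exact Or.inr (Or.inl h3)
        · exact Or.inr (Or.inr h3)
        · exact Or.inr (Or.inr heB)
        · exact Or.inl rfl
        · exact Or.inr (Or.inl h3)
      · rintro (h3 | h3)
        · exact Or.inr (Or.inr (Or.inl h3))
        · exact Or.inl h3
    have e4 : (P.1 ∪ B) ∩ insert e (insert f P.1) = insert e P.1 := by
      ext y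
      simp only [Finset.mem_union, Finset.mem_insert, Finset.mem_inter]
      constructor
      · rintro ⟨h3, h4⟩
        rcases h4 with h4 | rfl | h4
        · exact Or.inl h4
        · rcases h3 with h3 | h3
          · exact Or.inr h3
          · exact absurd h3 hfB
        · exact Or.inr h4
      · rintro (rfl | h3)
        · exact ⟨Or.inr heB, Or.inl rfl⟩
        · exact ⟨Or.inl h3, Or.inr (Or.inr h3)⟩
    rw [e3, e4] at s2
    linarith
  · -- series pair, contraction of `g`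
    have h1 : r (insert g P.1 ∪ B) + r (P.2 \ B) - r P.2 - r (insert g P.1) ≤ 0 := hl
    have h2 : r ((P.2.erase e).erase f) + 1 ≤ r P.2 := hser
    have s1 := hr.sub ((insert g P.1 ∪ B).erase e) (P.2 \ B)
    have e1 : (insert g P.1 ∪ B).erase e ∪ (P.2 \ B) = P.2.erase e := by
      ext y
      simp only [Finset.mem_union, Finset.mem_insert, Finset.mem_sdiff, Finset.mem_erase]
      constructor
      · rintro (⟨h3, (rfl | h4) | h4⟩ | ⟨h3, h4⟩)
        · exact ⟨h3, hgG.1⟩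
        · exact ⟨h3, hP h4⟩
        · exact ⟨h3, (hBG y h4).1⟩
        · exact ⟨fun h5 => h4 (h5 ▸ heB), h3⟩
      · rintro ⟨h3, h4⟩
        by_cases h5 : y ∈ B
        · exact Or.inl ⟨h3, Or.inr h5⟩
        · exact Or.inr ⟨h4, h5⟩
    have e2 : (insert g P.1 ∪ B).erase e ∩ (P.2 \ B) = insert g P.1 := by
      ext y
      simp only [Finset.mem_union, Finset.mem_insert, Finset.mem_sdiff, Finset.mem_erase, Finset.mem_inter]
      constructor
      · rintro ⟨⟨-, h3 | h3⟩, -, h4⟩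
        · exact h3
        · exact absurd h3 h4
      · rintro (rfl | h3)
        · exact ⟨⟨hge, Or.inl (Or.inl rfl)⟩, hgG.1, hgB⟩
        · exact ⟨⟨fun h4 => heG.2 (h4 ▸ h3), Or.inl (Or.inr h3)⟩, hP h3, fun h4 => (hBG y h4).2 h3⟩
    rw [e1, e2] at s1
    have s2 := hr.sub ((P.2.erase e).erase f) (insert g P.1 ∪ B)
    have e3 : (P.2.erase e).erase f ∪ (insert g P.1 ∪ B) = P.2.erase f := by
      ext y
      simp only [Finset.mem_union, Finset.mem_insert, Finset.mem_erase]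
      constructor
      · rintro (⟨h3, -, h4⟩ | (rfl | h3) | h3)
        · exact ⟨h3, h4⟩
        · exact ⟨hgf, hgG.1⟩
        · exact ⟨fun h4 => hfG.2 (h4 ▸ h3), hP h3⟩
        · exact ⟨fun h4 => hfB (h4 ▸ h3), (hBG y h3).1⟩
      · rintro ⟨h3, h4⟩
        by_cases h5 : y = e
        · exact Or.inr (Or.inr (h5 ▸ heB))
        · exact Or.inl ⟨h3, h5, h4⟩
    have e4 : (P.2.erase e).erase f ∩ (insert g P.1 ∪ B) = (insert g P.1 ∪ B).erase e := by
      ext y
      simp only [Finset.mem_union, Finset.mem_insert, Finset.mem_erase, Finset.mem_inter]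
      constructor
      · rintro ⟨⟨-, h3, -⟩, h4⟩
        exact ⟨h3, h4⟩
      · rintro ⟨h3, h4⟩
        refine ⟨⟨?_, h3, ?_⟩, h4⟩
        · rintro rfl
          rcases h4 with (h4 | h4) | h4
          · exact hgf h4.symm
          · exact hfG.2 h4
          · exact hfB h4
        · rcases h4 with (rfl | h4) | h4
          · exact hgG.1
          · exact hP h4
          · exact (hBG y h4).1
    rw [e3, e4] at s2
    linarith

private theorem prs_one {P : Itv E} (hc : Cn r P) {X A : Finset E} (hA : A ⊆ X) (hX : X ⊆ gs P) (hY : (gs P \ X).Nonempty) {e : E} (he : e ∈ A) :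
    1 ≤ QUB.lam r P A := by
  obtain ⟨y, hy⟩ := hY
  exact hc A (hA.trans hX) ⟨e, he⟩
    ⟨y, Finset.mem_sdiff.2 ⟨(Finset.mem_sdiff.1 hy).1, fun h => (Finset.mem_sdiff.1 hy).2 (hA h)⟩⟩

/-- one element outside of the maximal set `Z` -/
private theorem prs_step {P : Itv E} (hr : Rk r) (hP : P.1 ⊆ P.2) (hc : Cn r P) {X : Finset E} (hX : X ⊆ gs P) (hY : (gs P \ X).Nonempty)
    (hl : QUB.lam r P X ≤ 1)
    (hmin : ∀ A ⊆ X, 2 ≤ A.card → QUB.lam r P A ≤ 1 → ∃ e ∈ A, ∃ f ∈ A, e ≠ f ∧ QUB.lam r P {e, f} ≤ 1)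
    {e f : E} (hef : e ≠ f) {s : Bool} (hser : Ser r P s e f) {Z : Finset E} (hZX : Z ⊆ X) (heZ : e ∈ Z) (hfZ : f ∈ Z)
    (hZl : QUB.lam r P Z ≤ 1) (hmax : ∀ Z', Z ⊆ Z' → Z' ⊆ X → QUB.lam r P Z' ≤ 1 → Z' ≠ X → Z' = Z) (h2 : 2 ≤ (X \ Z).card) {g : E}
    (hgX : g ∈ X) (hgZ : g ∉ Z) :
    Cn r (QUB.rm (!s) g P) ∨
      (∃ e₂ ∈ X, ∃ f₂ ∈ X, e₂ ≠ f₂ ∧ e₂ ≠ e ∧ e₂ ≠ f ∧ f₂ ≠ e ∧ f₂ ≠ f ∧ QUB.lam r P {e₂, f₂} ≤ 1) := by
  by_cases hcn : Cn r (QUB.rm (!s) g P)
  · exact Or.inl hcn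
  right
  have hg := hX hgX
  have he := hX (hZX heZ)
  have hf := hX (hZX hfZ)
  have hge : g ≠ e := fun h => hgZ (h ▸ heZ)
  have hgf : g ≠ f := fun h => hgZ (h ▸ hfZ)
  have wQ := QUB.wf_rm (t := !s) hP hg
  -- the separation, with `e` on the first side
  obtain ⟨B, hB, hB1, hB2, heB⟩ : ∃ B ⊆ (gs P).erase g, ((gs P).erase g \ B).Nonempty ∧ QUB.lam r (QUB.rm (!s) g P) B ≤ 0 ∧ e ∈ B := by
    unfold Cn at hcn
    push Not at hcn
    obtain ⟨B, hB, hn1, hn2, hB3⟩ := hcn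
    have hB4 : QUB.lam r (QUB.rm (!s) g P) B ≤ 0 := by omega
    have hco := QUB.lam_compl r wQ hB
    rw [QUB.gs_rm] at hB hn2 hco
    by_cases heB : e ∈ B
    · exact ⟨B, hB, hn2, hB4, heB⟩
    · refine ⟨(gs P).erase g \ B, Finset.sdiff_subset, ?_, by rw [hco]; exact hB4,
        Finset.mem_sdiff.2 ⟨Finset.mem_erase.2 ⟨hge.symm, he⟩, heB⟩⟩
      rw [Finset.sdiff_sdiff_eq_self hB]
      exact hn1
  have hfB : f ∈ B := prs_side hr hP hc hg he hf hge hgf hef hser hB hB2 heB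
  have hgB : g ∉ B := fun h => (Finset.mem_erase.1 (hB h)).1 rfl
  have hBP : B ⊆ gs P := hB.trans (Finset.erase_subset _ _)
  have l1 : QUB.lam r P B ≤ 1 := by
    have := QUB.lam_le_rm hr (t := !s) hg hB
    linarith
  have l2 : QUB.lam r P (insert g B) ≤ 1 := by
    have := QUB.lam_le_rm' hr (t := !s) hg hB
    linarith
  obtain ⟨B', hB'⟩ : ∃ B', B' = (gs P).erase g \ B := ⟨_, rfl⟩
  have hB'1 : B' ⊆ (gs P).erase g := by
    rw [hB']
    exact Finset.sdiff_subset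
  have l3 : QUB.lam r P (insert g B') ≤ 1 := by
    have h3 := QUB.lam_le_rm' hr (t := !s) hg hB'1
    have h4 := QUB.lam_compl r wQ (A := B) (by rw [QUB.gs_rm]; exact hB)
    rw [QUB.gs_rm, ← hB'] at h4
    linarith
  rw [← hB'] at hB1
  by_cases hsub : B' ⊆ X
  · -- another pair
    have hgB' : g ∉ B' := fun h => (Finset.mem_erase.1 (hB'1 h)).1 rfl
    have heB' : e ∉ B' := by
      rw [hB']
      exact fun h => (Finset.mem_sdiff.1 h).2 heB
    have hfB' : f ∉ B' := by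
      rw [hB']
      exact fun h => (Finset.mem_sdiff.1 h).2 hfB
    have hsub2 : insert g B' ⊆ X := Finset.insert_subset hgX hsub
    obtain ⟨e₂, he₂, f₂, hf₂, h3, h4⟩ := hmin (insert g B') hsub2 (by
      rw [Finset.card_insert_of_notMem hgB']
      have := Finset.card_pos.2 hB1
      omega) l3
    have hne : ∀ y ∈ insert g B', y ≠ e ∧ y ≠ f := by
      intro y hy
      rcases Finset.mem_insert.1 hy with rfl | hy
      · exact ⟨hge, hgf⟩
      · exact ⟨fun h => heB' (h ▸ hy), fun h => hfB' (h ▸ hy)⟩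
    exact ⟨e₂, hsub2 he₂, f₂, hsub2 hf₂, h3, (hne e₂ he₂).1, (hne e₂ he₂).2, (hne f₂ hf₂).1, (hne f₂ hf₂).2, h4⟩
  · exfalso
    obtain ⟨y, hy1, hy2⟩ := Finset.not_subset.1 hsub
    have hyP : y ∈ gs P := (Finset.mem_erase.1 (hB'1 hy1)).2
    have hyg : y ≠ g := (Finset.mem_erase.1 (hB'1 hy1)).1
    have hyB : y ∉ B := by
      rw [hB'] at hy1
      exact (Finset.mem_sdiff.1 hy1).2
    have key : ∀ D : Finset E, D ⊆ gs P → y ∉ D → e ∈ D → QUB.lam r P D ≤ 1 → QUB.lam r P ((X ∩ D) ∪ Z) ≤ 1 := by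
      intro D hD hyD heD hDl
      have h3 := QUB.lam_sub (p := P) hr X D
      have h4 : 1 ≤ QUB.lam r P (X ∪ D) := hc (X ∪ D) (Finset.union_subset hX hD) ⟨g, Finset.mem_union_left _ hgX⟩
        ⟨y, Finset.mem_sdiff.2 ⟨hyP, fun h => by
          rcases Finset.mem_union.1 h with h | h
          · exact hy2 h
          · exact hyD h⟩⟩
      have h5 := QUB.lam_sub (p := P) hr (X ∩ D) Z
      have h6 : 1 ≤ QUB.lam r P ((X ∩ D) ∩ Z) := prs_one hc (Finset.inter_subset_right.trans hZX) hX hY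
        (Finset.mem_inter.2 ⟨Finset.mem_inter.2 ⟨hZX heZ, heD⟩, heZ⟩)
      linarith
    have k1 := key B hBP hyB heB l1
    have k2 := key (insert g B) (Finset.insert_subset hg hBP)
      (fun h => (Finset.mem_insert.1 h).elim hyg hyB) (Finset.mem_insert_of_mem heB) l2
    have c1 : (X ∩ B) ∪ Z = Z := hmax _ Finset.subset_union_right (Finset.union_subset Finset.inter_subset_left hZX) k1 (by
      intro h
      have h3 : g ∈ (X ∩ B) ∪ Z := by
        rw [h]
        exact hgX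
      rcases Finset.mem_union.1 h3 with h3 | h3
      · exact hgB (Finset.mem_inter.1 h3).2
      · exact hgZ h3)
    have c2 : (X ∩ insert g B) ∪ Z = X := by
      by_contra h3
      have h4 := hmax _ Finset.subset_union_right (Finset.union_subset Finset.inter_subset_left hZX) k2 h3
      apply hgZ
      rw [← h4]
      exact Finset.mem_union_left _ (Finset.mem_inter.2 ⟨hgX, Finset.mem_insert_self _ _⟩)
    have c3 : X \ Z ⊆ {g} := by
      intro x hx
      obtain ⟨hx1, hx2⟩ := Finset.mem_sdiff.1 hx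
      rw [Finset.mem_singleton]
      rw [← c2] at hx1
      rcases Finset.mem_union.1 hx1 with h3 | h3
      · obtain ⟨h4, h5⟩ := Finset.mem_inter.1 h3
        rcases Finset.mem_insert.1 h5 with h5 | h5
        · exact h5
        · exfalso
          apply hx2
          rw [← c1]
          exact Finset.mem_union_left _ (Finset.mem_inter.2 ⟨h4, h5⟩)
      · exact absurd h3 hx2
    have h3 := Finset.card_le_card c3
    rw [Finset.card_singleton] at h3
    omega

theorem pair_max {P : Itv E} (hr : Rk r) (hP : P.1 ⊆ P.2) (hc : Cn r P) {X : Finset E} (hX : X ⊆ gs P) (hY : (gs P \ X).Nonempty)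
    (hl : QUB.lam r P X ≤ 1) (hX3 : 3 ≤ X.card) (hH : Hv r P X) (hlight : ∀ Z, Z ⊂ X → QUB.lam r P Z ≤ 1 → ¬ Hv r P Z)
    (hmin : ∀ A ⊆ X, 2 ≤ A.card → QUB.lam r P A ≤ 1 → ∃ e ∈ A, ∃ f ∈ A, e ≠ f ∧ QUB.lam r P {e, f} ≤ 1)
    {e f : E} (he : e ∈ X) (hf : f ∈ X) (hef : e ≠ f) (hlef : QUB.lam r P {e, f} ≤ 1) {s : Bool} (hser : Ser r P s e f) :
    (∃ g ∈ X, ∃ g' ∈ X, g ≠ g' ∧ g ≠ e ∧ g ≠ f ∧ g' ≠ e ∧ g' ≠ f ∧ Cn r (QUB.rm (!s) g P) ∧ Cn r (QUB.rm (!s) g' P)) ∨
    (∃ e₂ ∈ X, ∃ f₂ ∈ X, e₂ ≠ f₂ ∧ e₂ ≠ e ∧ e₂ ≠ f ∧ f₂ ≠ e ∧ f₂ ≠ f ∧ QUB.lam r P {e₂, f₂} ≤ 1) := by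
  -- the maximal set
  obtain ⟨𝒵, h𝒵⟩ : ∃ 𝒵 : Finset (Finset E), 𝒵 = X.powerset.filter (fun Z => e ∈ Z ∧ f ∈ Z ∧ QUB.lam r P Z ≤ 1 ∧ Z ≠ X) := ⟨_, rfl⟩
  have hmem : ∀ Z, Z ∈ 𝒵 ↔ Z ⊆ X ∧ e ∈ Z ∧ f ∈ Z ∧ QUB.lam r P Z ≤ 1 ∧ Z ≠ X := by
    intro Z
    rw [h𝒵, Finset.mem_filter, Finset.mem_powerset]
  have h0 : ({e, f} : Finset E) ∈ 𝒵 := by
    refine (hmem _).2 ⟨?_, Finset.mem_insert_self _ _, Finset.mem_insert_of_mem (Finset.mem_singleton_self _), hlef, ?_⟩
    · intro y hy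
      rcases Finset.mem_insert.1 hy with rfl | hy
      · exact he
      · rw [Finset.mem_singleton.1 hy]
        exact hf
    · intro h
      rw [← h, Finset.card_pair hef] at hX3
      omega
  obtain ⟨Z, hZ, hZm⟩ := Finset.exists_max_image 𝒵 Finset.card ⟨_, h0⟩
  obtain ⟨hZX, heZ, hfZ, hZl, hZne⟩ := (hmem Z).1 hZ
  have hmax : ∀ Z', Z ⊆ Z' → Z' ⊆ X → QUB.lam r P Z' ≤ 1 → Z' ≠ X → Z' = Z := by
    intro Z' h1 h2 h3 h4
    exact (Finset.eq_of_subset_of_card_le h1 (hZm Z' ((hmem Z').2 ⟨h2, h1 heZ, h1 hfZ, h3, h4⟩))).symm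
  have hss : Z ⊂ X := lt_of_le_of_ne hZX hZne
  have h2 : 2 ≤ (X \ Z).card := by
    by_contra hcon
    obtain ⟨N, hN, hN3⟩ := hH
    have h3 : (N ∩ X).card ≤ (N ∩ Z).card + (X \ Z).card := by
      refine (Finset.card_le_card (t := (N ∩ Z) ∪ (X \ Z)) ?_).trans (Finset.card_union_le _ _)
      intro y hy
      obtain ⟨h4, h5⟩ := Finset.mem_inter.1 hy
      by_cases h6 : y ∈ Z
      · exact Finset.mem_union_left _ (Finset.mem_inter.2 ⟨h4, h6⟩)
      · exact Finset.mem_union_right _ (Finset.mem_sdiff.2 ⟨h5, h6⟩)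
    have h4 := QUB.F1 hr hP (hZX.trans hX) hZl hN
    exact hlight Z hss hZl ⟨N, hN, by omega⟩
  obtain ⟨g, hg, g', hg', hgg⟩ := Finset.one_lt_card.1 (by omega : 1 < (X \ Z).card)
  obtain ⟨hgX, hgZ⟩ := Finset.mem_sdiff.1 hg
  obtain ⟨hgX', hgZ'⟩ := Finset.mem_sdiff.1 hg'
  rcases prs_step hr hP hc hX hY hl hmin hef hser hZX heZ hfZ hZl hmax h2 hgX hgZ with h3 | h3
  · rcases prs_step hr hP hc hX hY hl hmin hef hser hZX heZ hfZ hZl hmax h2 hgX' hgZ' with h4 | h4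
    · exact Or.inl ⟨g, hgX, g', hgX', hgg, fun h => hgZ (h ▸ heZ), fun h => hgZ (h ▸ hfZ), fun h => hgZ' (h ▸ heZ),
        fun h => hgZ' (h ▸ hfZ), h3, h4⟩
    · exact Or.inr h4
  · exact Or.inr h3

end Pool.Agent.QU
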