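import Pool.Agent.QUN.Nbl
import Pool.Agent.QUN.Min
import Pool.Agent.QUN.Prs
import Pool.Agent.QUN.TwoA
import Pool.Agent.QUN.TwoC
import Pool.Agent.QUL.LBinR

/-!
# QUN/NbOut: a minimal side of a split contains a good pair or a good path (assembly)
-/

set_option autoImplicit false

open QUB

namespace Pool.Agent.QU

variable {E : Type} [DecidableEq E] {r : Finset E → ℤ} {p : Itv E}

/-- `e` can be removed with type `t` -/
def GE (r : Finset E → ℤ) (p : Itv E) (w : E) (s : Bool) (e : E) (t : Bool) : Prop :=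
  Cn r (QUB.rm t e (QUB.rm s w p)) ∧ Ok r (QUB.rm t e p)

/-- the output: a pair of removals of the same type, or a path of three removals -/
def NbOut (r : Finset E → ℤ) (p : Itv E) (w : E) (s : Bool) (X : Finset E) : Prop :=
  (∃ t, ∃ e ∈ X, ∃ f ∈ X, e ≠ f ∧ GE r p w s e t ∧ GE r p w s f t ∧ Cn r (QUB.rm t e (QUB.rm t f p)) ∧
      HasLn r (QUB.rm t e (QUB.rm t f p))) ∨
  (∃ a ∈ X, ∃ b ∈ X, ∃ c ∈ X, a ≠ b ∧ a ≠ c ∧ b ≠ c ∧ GE r p w s a s ∧ GE r p w s b (!s) ∧ GE r p w s c s ∧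
      Cn r (QUB.rm s a (QUB.rm (!s) b p)) ∧ HasLn r (QUB.rm s a (QUB.rm (!s) b p)) ∧
      Cn r (QUB.rm s c (QUB.rm (!s) b p)) ∧ HasLn r (QUB.rm s c (QUB.rm (!s) b p)) ∧ NT r p s a b c)

theorem HasLn.rm {q : Itv E} {t : Bool} {x : E} (h : HasLn r (QUB.rm t x q)) : HasLn r q := by
  obtain ⟨N, hN⟩ := h
  exact ⟨N, hN.rm⟩

private theorem nbo_rot (t u s : Bool) (e f w : E) :
    QUB.rm t e (QUB.rm u f (QUB.rm s w p)) = QUB.rm s w (QUB.rm t e (QUB.rm u f p)) := by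
  rw [rm_comm u s, rm_comm t s]

private theorem nbo_line {t u s : Bool} {e f w : E} (h : HasLn r (QUB.rm t e (QUB.rm u f (QUB.rm s w p)))) :
    HasLn r (QUB.rm t e (QUB.rm u f p)) := by
  rw [nbo_rot] at h
  exact h.rm

private theorem nbo_tutte (hr : Rk r) {q : Itv E} (hq : q.1 ⊆ q.2) {x : E} (hx : x ∈ gs q) (h : Cn r q) (s : Bool) :
    Cn r (QUB.rm s x q) ∨ Cn r (QUB.rm (!s) x q) := by
  cases s
  · exact (tutte hr hq hx h).symm
  · exact tutte hr hq hx h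

theorem nb_out [Fintype E] (hr : Rk r) (hp : p.1 ⊆ p.2) (hc : Cn r p) (ho : Ok r p) (h3 : Th3 r p) {w : E} {s : Bool} {X : Finset E}
    (hw : w ∈ gs p) (hn : Nbs r p w s X) (hmw : Mn1 r p w s X)
    (hme : ∀ e ∈ X, ∀ t, Cn r (QUB.rm t e (QUB.rm s w p)) → Mn1 r p e t X) : NbOut r p w s X := by
  classical
  have hX := hn.1
  have hlX := hn.2.1
  have hvX := hn.2.2.1
  have hvY := hn.2.2.2
  have hX3 : 3 ≤ X.card := hvX.card
  have hY3 : 3 ≤ ((gs p).erase w \ X).card := hvY.card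
  have hXp : X ⊆ gs p := hX.trans (Finset.erase_subset _ _)
  have hn6 : 7 ≤ (gs p).card := by
    have h1 := Finset.card_sdiff_add_card_eq_card hX
    have h2 := Finset.card_erase_add_one hw
    omega
  have hwX : w ∉ X := fun h => (Finset.mem_erase.1 (hX h)).1 rfl
  obtain ⟨P, hPdef⟩ : ∃ P, P = QUB.rm s w p := ⟨_, rfl⟩
  have hP : P.1 ⊆ P.2 := by rw [hPdef]; exact wf_rm hp hw
  have gP : gs P = (gs p).erase w := by rw [hPdef]; exact gs_rm s w p
  have cP : Cn r P := by rw [hPdef]; exact th3_cn hr hp hc h3 (by omega) hw s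
  have hXP : X ⊆ gs P := by rw [gP]; exact hX
  have lP : QUB.lam r P X ≤ 1 := by rw [hPdef]; exact hlX
  have vP : Hv r P X := by rw [hPdef]; exact hvX
  have yP : Hv r P (gs P \ X) := by rw [gP, hPdef]; exact hvY
  have hY2 : 2 ≤ ((gs p).erase w \ X).card := by omega
  have hcP : 3 ≤ (gs P).card := by
    rw [gP]
    have h2 := Finset.card_erase_add_one hw
    omega
  have okS : ∀ e ∈ X, Cn r (QUB.rm s e P) → Ok r (QUB.rm s e p) := by
    intro e he ce
    rw [hPdef] at ce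
    exact two_same_1 hr hp hw hc ho hn hmw (hme e he s ce) he ce
  have okO : ∀ e ∈ X, ∀ a ∈ X, e ≠ a → Cn r (QUB.rm (!s) e P) → Cn r (QUB.rm (!s) a P) →
      Ok r (QUB.rm (!s) e p) ∨ Ok r (QUB.rm (!s) a p) := by
    intro e he a ha hea ce ca
    rw [hPdef] at ce ca
    exact two_unique_1 hr hp hw hc ho hn (hme e he (!s) ce) (hme a ha (!s) ca) he ha hea ce ca
  have hne : ∀ e ∈ X, w ≠ e := fun e he h => hwX (h ▸ he)
  have line : ∀ e ∈ X, ∀ f ∈ X, e ≠ f → ∀ t u, Cn r (QUB.rm u f P) → Cn r (QUB.rm t e (QUB.rm u f P)) →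
      HasLn r (QUB.rm t e (QUB.rm u f p)) := by
    intro e he f hf hef t u c1 c2
    have h := nb_line hr hP hXP lP yP hX3 hf he hef.symm c1 c2
    rw [hPdef] at h
    exact nbo_line h
  by_cases hno : ∃ A, A ⊆ X ∧ 3 ≤ A.card ∧ QUB.lam r P A ≤ 1 ∧ ∀ B, B ⊂ A → 2 ≤ B.card → 2 ≤ QUB.lam r P B
  · obtain ⟨A, hAX, hA3, hAl, hAm⟩ := hno
    have hAP : A ⊆ gs P := hAX.trans hXP
    have hYA : (gs P \ A).Nonempty := by
      rw [← Finset.card_pos]
      have h1 : (gs P \ X).card ≤ (gs P \ A).card := Finset.card_le_card (Finset.sdiff_subset_sdiff (Finset.Subset.refl _) hAX)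
      rw [gP] at h1 ⊢
      omega
    have cA : ∀ e ∈ A, ∀ t, Cn r (QUB.rm t e P) := fun e he t => min_cn hr hP cP hAP hYA hA3 hAl hAm he t
    by_cases hs : ∃ e ∈ A, ∃ f ∈ A, e ≠ f ∧ Cn r (QUB.rm s e (QUB.rm s f P))
    · obtain ⟨e, he, f, hf, hef, hcef⟩ := hs
      left
      have h2 : 2 ≤ QUB.lam r (QUB.rm s w p) {e, f} := by
        rw [← hPdef]
        refine hAm {e, f} ?_ (by rw [Finset.card_pair hef])
        refine (Finset.ssubset_iff_subset_ne).2 ⟨?_, fun h => ?_⟩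
        · intro y hy
          rcases Finset.mem_insert.1 hy with rfl | hy
          · exact he
          · rw [Finset.mem_singleton.1 hy]
            exact hf
        · rw [← h, Finset.card_pair hef] at hA3
          omega
      refine ⟨s, e, hAX he, f, hAX hf, hef, ⟨?_, okS e (hAX he) (cA e he s)⟩, ⟨?_, okS f (hAX hf) (cA f hf s)⟩, ?_, ?_⟩
      · rw [← hPdef]; exact cA e he s
      · rw [← hPdef]; exact cA f hf s
      · exact nb_same hr hp h3 (by omega) hw (hXp (hAX he)) (hXp (hAX hf)) (hne e (hAX he)) (hne f (hAX hf)) hef h2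
          (by rw [← hPdef]; exact hcef)
      · exact line e (hAX he) f (hAX hf) hef s s (cA f hf s) hcef
    · push Not at hs
      right
      obtain ⟨b₁, b₂, hb₁, hb₂, hb₁₂⟩ : ∃ b₁ b₂, b₁ ∈ A ∧ b₂ ∈ A ∧ b₁ ≠ b₂ := by
        have h1 : 1 < A.card := by omega
        obtain ⟨b₁, h1, b₂, h2, h3⟩ := Finset.one_lt_card.1 h1
        exact ⟨b₁, b₂, h1, h2, h3⟩
      obtain ⟨a, b, ha, hb, hab, hok⟩ : ∃ a b, a ∈ A ∧ b ∈ A ∧ a ≠ b ∧ Ok r (QUB.rm (!s) b p) := by
        rcases okO b₁ (hAX hb₁) b₂ (hAX hb₂) hb₁₂ (cA b₁ hb₁ _) (cA b₂ hb₂ _) with h | h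
        · exact ⟨b₂, b₁, hb₂, hb₁, hb₁₂.symm, h⟩
        · exact ⟨b₁, b₂, hb₁, hb₂, hb₁₂, h⟩
      obtain ⟨c, hcA, hca, hcb, hnt⟩ := min_nt hr hp h3 (by omega) hw (A := A) (by rw [← gP]; exact hAP)
        (by
          have h1 : ((gs p).erase w \ X).card ≤ ((gs p).erase w \ A).card :=
            Finset.card_le_card (Finset.sdiff_subset_sdiff (Finset.Subset.refl _) hAX)
          omega) hA3 (by rw [← hPdef]; exact hAl) (by rw [← hPdef]; exact hAm) ha hb hab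
      have key : ∀ x ∈ A, x ≠ b → Cn r (QUB.rm s x (QUB.rm (!s) b P)) := by
        intro x hx hxb
        have hbg : b ∈ gs (QUB.rm s x P) := by
          rw [gs_rm]
          exact Finset.mem_erase.2 ⟨hxb.symm, hAP hb⟩
        rcases nbo_tutte hr (wf_rm hP (hAP hx)) hbg (cA x hx s) s with h | h
        · exact absurd h (hs b hb x hx hxb.symm)
        · rw [rm_comm s (!s)]
          exact h
      have fin : ∀ x ∈ A, x ≠ b → Cn r (QUB.rm s x (QUB.rm (!s) b p)) ∧ HasLn r (QUB.rm s x (QUB.rm (!s) b p)) := by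
        intro x hx hxb
        refine ⟨?_, line x (hAX hx) b (hAX hb) hxb s (!s) (cA b hb _) (key x hx hxb)⟩
        exact nb_mix hr hp h3 (by omega) hw (hXp (hAX hx)) (hXp (hAX hb)) (hne x (hAX hx)) (hne b (hAX hb)) hxb
          (by rw [← hPdef]; exact key x hx hxb)
      refine ⟨a, hAX ha, b, hAX hb, c, hAX hcA, hab, hca.symm, hcb.symm, ⟨?_, okS a (hAX ha) (cA a ha s)⟩, ⟨?_, hok⟩,
        ⟨?_, okS c (hAX hcA) (cA c hcA s)⟩, (fin a ha hab).1, (fin a ha hab).2, (fin c hcA hcb).1, (fin c hcA hcb).2, hnt⟩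
      · rw [← hPdef]; exact cA a ha s
      · rw [← hPdef]; exact cA b hb _
      · rw [← hPdef]; exact cA c hcA s
  · -- all minimal sets are pairs
    have hmin : ∀ n : ℕ, ∀ A ⊆ X, A.card ≤ n → 2 ≤ A.card → QUB.lam r P A ≤ 1 →
        ∃ e ∈ A, ∃ f ∈ A, e ≠ f ∧ QUB.lam r P {e, f} ≤ 1 := by
      intro n
      induction n with
      | zero => intro A _ h1 h2; omega
      | succ n ih =>
        intro A hA h1 h2 h4
        by_cases h5 : A.card = 2
        · obtain ⟨e, f, hef, rfl⟩ := Finset.card_eq_two.1 h5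
          exact ⟨e, Finset.mem_insert_self _ _, f, Finset.mem_insert_of_mem (Finset.mem_singleton_self _), hef, h4⟩
        · by_cases h6 : ∃ B, B ⊂ A ∧ 2 ≤ B.card ∧ QUB.lam r P B ≤ 1
          · obtain ⟨B, hB, hB2, hBl⟩ := h6
            obtain ⟨e, he, f, hf, hef, hl⟩ := ih B (hB.1.trans hA) (by
              have h7 := Finset.card_lt_card hB
              omega) hB2 hBl
            exact ⟨e, hB.1 he, f, hB.1 hf, hef, hl⟩
          · exfalso
            push Not at h6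
            refine hno ⟨A, hA, by omega, h4, fun B hB hB2 => ?_⟩
            have h7 := h6 B hB hB2
            omega
    have hmin' : ∀ A ⊆ X, 2 ≤ A.card → QUB.lam r P A ≤ 1 → ∃ e ∈ A, ∃ f ∈ A, e ≠ f ∧ QUB.lam r P {e, f} ≤ 1 :=
      fun A hA h2 h4 => hmin A.card A hA le_rfl h2 h4
    have hser : ∀ e ∈ X, ∀ f ∈ X, e ≠ f → QUB.lam r P {e, f} ≤ 1 → Ser r P s e f := by
      intro e he f hf hef h
      rw [hPdef] at h ⊢
      exact pair_ser hr hp h3 (by omega) hw (hXp he) (hXp hf) (hne e he) (hne f hf) hef h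
    have hlight : ∀ Z, Z ⊂ X → QUB.lam r P Z ≤ 1 → ¬ Hv r P Z := by
      intro Z hZ hl hv
      refine hmw Z ⟨hZ.1.trans hX, by rw [← hPdef]; exact hl, by rw [← hPdef]; exact hv, ?_⟩ hZ
      exact Hv.mono hvY (Finset.sdiff_subset_sdiff (Finset.Subset.refl _) hZ.1)
    -- the end of the argument
    have fin : ∀ e ∈ X, ∀ f ∈ X, e ≠ f → QUB.lam r P {e, f} ≤ 1 → ∀ g ∈ X, g ≠ e → g ≠ f → Cn r (QUB.rm (!s) g P) →
        Ok r (QUB.rm (!s) g p) → NbOut r p w s X := by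
      intro e₁ he₁ f₁ hf₁ hef₁ hl₁ g hg hge hgf cg og
      have hs₁ := hser e₁ he₁ f₁ hf₁ hef₁ hl₁
      obtain ⟨e, he, f, hf, hef, hs, hge, hgf, hce, hok⟩ : ∃ e, e ∈ X ∧ ∃ f, f ∈ X ∧ e ≠ f ∧ Ser r P s e f ∧ g ≠ e ∧ g ≠ f ∧
          Cn r (QUB.rm (!s) e P) ∧ Ok r (QUB.rm (!s) e p) := by
        have c1 := ser_cn hr hP (hXP he₁) (hXP hf₁) hef₁ hcP cP hs₁
        have c2 := ser_cn hr hP (hXP hf₁) (hXP he₁) hef₁.symm hcP cP (ser_comm hs₁)
        rcases okO e₁ he₁ f₁ hf₁ hef₁ c1 c2 with h | h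
        · exact ⟨e₁, he₁, f₁, hf₁, hef₁, hs₁, hge, hgf, c1, h⟩
        · exact ⟨f₁, hf₁, e₁, he₁, hef₁.symm, ser_comm hs₁, hgf, hge, c2, h⟩
      have wfg : (QUB.rm (!s) g P).1 ⊆ (QUB.rm (!s) g P).2 := wf_rm hP (hXP hg)
      have hcg : 3 ≤ (gs (QUB.rm (!s) g P)).card := by
        rw [gs_rm, gP]
        have h2 := Finset.card_erase_add_one hw
        have h4 : g ∈ (gs p).erase w := hX hg
        have h5 := Finset.card_erase_add_one h4
        omega
      have heg : e ∈ gs (QUB.rm (!s) g P) := by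
        rw [gs_rm]
        exact Finset.mem_erase.2 ⟨hge.symm, hXP he⟩
      have hfg : f ∈ gs (QUB.rm (!s) g P) := by
        rw [gs_rm]
        exact Finset.mem_erase.2 ⟨hgf.symm, hXP hf⟩
      have hceg : Cn r (QUB.rm (!s) e (QUB.rm (!s) g P)) := ser_cn hr wfg heg hfg hef hcg cg (ser_rm hs)
      left
      refine ⟨!s, e, he, g, hg, hge.symm, ⟨by rw [← hPdef]; exact hce, hok⟩, ⟨by rw [← hPdef]; exact cg, og⟩, ?_, ?_⟩
      · exact nb_opp hr hp h3 (by omega) hw hX hlX hY2 he hg hge.symm (by rw [← hPdef]; exact hceg)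
      · exact line e he g hg hge.symm _ _ cg hceg
    obtain ⟨e, he, f, hf, hef, hl⟩ := hmin' X (Finset.Subset.refl _) (by omega) lP
    have hYne : (gs P \ X).Nonempty := by
      rw [← Finset.card_pos, gP]
      omega
    rcases pair_max hr hP cP hXP hYne lP hX3 vP hlight hmin' he hf hef hl (hser e he f hf hef hl) with h | h
    · obtain ⟨g, hg, g', hg', hgg, h1, h2, h4, h5, cg, cg'⟩ := h
      rcases okO g hg g' hg' hgg cg cg' with h | h
      · exact fin e he f hf hef hl g hg h1 h2 cg h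
      · exact fin e he f hf hef hl g' hg' h4 h5 cg' h
    · obtain ⟨e₂, he₂, f₂, hf₂, hef₂, h1, h2, h4, h5, hl₂⟩ := h
      have hs₂ := hser e₂ he₂ f₂ hf₂ hef₂ hl₂
      have c1 := ser_cn hr hP (hXP he₂) (hXP hf₂) hef₂ hcP cP hs₂
      have c2 := ser_cn hr hP (hXP hf₂) (hXP he₂) hef₂.symm hcP cP (ser_comm hs₂)
      rcases okO e₂ he₂ f₂ hf₂ hef₂ c1 c2 with h | h
      · exact fin e he f hf hef hl e₂ he₂ h1 h2 c1 h
      · exact fin e he f hf hef hl f₂ hf₂ h4 h5 c2 h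

end Pool.Agent.QU
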