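import Pool.Agent.QUN.Cnl
import Pool.Agent.QUN.Th
import Pool.Agent.QUB.Keep

/-!
# QUN/Nbl: from `p_{w,e,f}` connected to `p_{e,f}` connected

In each case `cn_add` for `q = rm .. e (rm .. f p)` and `w`; `rm_comm` moves the removal of `w` inside; what has to be shown is `1 ≤ lam r q {w}`, that is, `w` is no loop and no coloop of `q`.
`nb_mix` (one of `e`, `f` is deleted, the other one contracted): `lam r q {w} = (r (q.1 ∪ {w}) - r q.1) + (r (q.2 \ {w}) - r q.2) = 1 + 0` by `th3_con2`, `th3_con1`, `th3_del2`, `th3_del1`.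
`nb_opp` (`s = true`: `e`, `f` contracted, `w` deleted): the second bracket is `0` (`th3_del1`); if the first one is `0` then `w` is in the closure of `p.1 ∪ {e, f}`, so of `p.1 ∪ X`
(`hr.sub` or `marg`), and `lam r p (insert w X) = r (p.1 ∪ X) + r ((p.2.erase w) \ X) - r p.2 - r p.1 = lam r (rm true w p) X ≤ 1` (`r (p.2.erase w) = r p.2`), against `Th3` (`insert w X` and its complement have
at least two elements). `s = false` in the same way with the second component.
`nb_same` (`s = true`: all three deleted): `lam r (rm true w p) {e, f} = r (p.1 ∪ {e, f}) - r p.1 + r ((p.2.erase w) \ {e, f}) - r (p.2.erase w)`, the first difference is at most two, so the second one is `0`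
(`h2`), so `r (p.2 \ {w, e, f}) = r p.2 = r (p.2 \ {e, f})`, and `w` is no loop (`th3_con1`).
`nb_line`: `hv_keep` twice for the side `gs P \ X` (`lam_compl`; `1 ≤ lam` of the smaller minors by connectivity: `X.erase e` and `(X.erase e).erase f` are nonempty).
-/

set_option autoImplicit false

open QUB

namespace Pool.Agent.QU

variable {E : Type} [DecidableEq E] {r : Finset E → ℤ} {p : Itv E}

private theorem nb_w2 {w : E} (hw : w ∈ gs p) : w ∈ p.2 ∧ w ∉ p.1 := Finset.mem_sdiff.1 hw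

private theorem nb_u1 (A : Finset E) (w : E) : A ∪ {w} = insert w A := by
  rw [Finset.union_comm]
  rfl

private theorem nb_s1 (A : Finset E) (w : E) : A \ {w} = A.erase w := Finset.sdiff_singleton_eq_erase w A

private theorem nb_lam1 (C G : Finset E) (w : E) :
    QUB.lam r (C, G) {w} = r (insert w C) + r (G.erase w) - r G - r C := by
  unfold QUB.lam
  rw [nb_u1, nb_s1]

private theorem nb_u2 (A : Finset E) (e f : E) : A ∪ {e, f} = insert e (insert f A) := by
  ext y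
  simp only [Finset.mem_union, Finset.mem_insert, Finset.mem_singleton]
  tauto

private theorem nb_s2 (A : Finset E) (e f : E) : A \ {e, f} = (A.erase f).erase e := by
  ext y
  simp only [Finset.mem_sdiff, Finset.mem_insert, Finset.mem_singleton, Finset.mem_erase]
  tauto

private theorem nb_lam2 (C G : Finset E) (e f : E) :
    QUB.lam r (C, G) {e, f} = r (insert e (insert f C)) + r ((G.erase f).erase e) - r G - r C := by
  unfold QUB.lam
  rw [nb_u2, nb_s2]

private theorem nb_comm3 (t u s : Bool) (e f w : E) (p : Itv E) :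
    QUB.rm t e (QUB.rm u f (QUB.rm s w p)) = QUB.rm s w (QUB.rm t e (QUB.rm u f p)) := by
  rw [QUB.rm_comm u s p, QUB.rm_comm t s]

/-- the common step -/
private theorem nb_add (hr : Rk r) (hp : p.1 ⊆ p.2) {w e f : E} {s t u : Bool} (hw : w ∈ gs p) (he : e ∈ gs p) (hf : f ∈ gs p)
    (hwe : w ≠ e) (hwf : w ≠ f) (hef : e ≠ f) (h : Cn r (QUB.rm t e (QUB.rm u f (QUB.rm s w p))))
    (h1 : 1 ≤ QUB.lam r (QUB.rm t e (QUB.rm u f p)) {w}) : Cn r (QUB.rm t e (QUB.rm u f p)) := by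
  rw [nb_comm3] at h
  have hf1 : (QUB.rm u f p).1 ⊆ (QUB.rm u f p).2 := QUB.wf_rm hp hf
  have he1 : e ∈ gs (QUB.rm u f p) := by
    rw [QUB.gs_rm]
    exact Finset.mem_erase.2 ⟨hef, he⟩
  refine cn_add hr (QUB.wf_rm hf1 he1) ?_ h h1
  rw [QUB.gs_rm, QUB.gs_rm]
  exact Finset.mem_erase.2 ⟨hwe, Finset.mem_erase.2 ⟨hwf, hw⟩⟩

private theorem nb_mix1 (hr : Rk r) (hp : p.1 ⊆ p.2) (h3 : Th3 r p) (hn : 4 ≤ (gs p).card) {w a b : E} (hw : w ∈ gs p) (ha : a ∈ gs p)
    (hb : b ∈ gs p) (hwa : w ≠ a) (hwb : w ≠ b) : 1 ≤ QUB.lam r ((insert a p.1, p.2.erase b) : Itv E) {w} := by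
  rw [nb_lam1]
  have e1 := th3_con2 hr hp h3 hn hw ha hwa
  have e2 := th3_del2 hr hp h3 hn hb hw (Ne.symm hwb)
  have e3 := th3_del1 hr hp h3 hn hb
  have e4 := th3_con1 hr hp h3 hn ha
  linarith

theorem nb_mix (hr : Rk r) (hp : p.1 ⊆ p.2) (h3 : Th3 r p) (hn : 4 ≤ (gs p).card) {w e f : E} (hw : w ∈ gs p) (he : e ∈ gs p) (hf : f ∈ gs p)
    (hwe : w ≠ e) (hwf : w ≠ f) (hef : e ≠ f) {s t : Bool} (h : Cn r (QUB.rm t e (QUB.rm (!t) f (QUB.rm s w p)))) :
    Cn r (QUB.rm t e (QUB.rm (!t) f p)) := by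
  refine nb_add hr hp hw he hf hwe hwf hef h ?_
  cases t
  · exact nb_mix1 hr hp h3 hn hw he hf hwe hwf
  · exact nb_mix1 hr hp h3 hn hw hf he hwf hwe

theorem nb_opp (hr : Rk r) (hp : p.1 ⊆ p.2) (h3 : Th3 r p) (hn : 4 ≤ (gs p).card) {w e f : E} {s : Bool} {X : Finset E} (hw : w ∈ gs p)
    (hX : X ⊆ (gs p).erase w) (hl : QUB.lam r (QUB.rm s w p) X ≤ 1) (hY : 2 ≤ ((gs p).erase w \ X).card) (he : e ∈ X) (hf : f ∈ X) (hef : e ≠ f)
    (h : Cn r (QUB.rm (!s) e (QUB.rm (!s) f (QUB.rm s w p)))) : Cn r (QUB.rm (!s) e (QUB.rm (!s) f p)) := by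
  have hwX : w ∉ X := fun hx => (Finset.mem_erase.1 (hX hx)).1 rfl
  have he' := Finset.mem_erase.1 (hX he)
  have hf' := Finset.mem_erase.1 (hX hf)
  have hwe : w ≠ e := Ne.symm he'.1
  have hwf : w ≠ f := Ne.symm hf'.1
  have hww := nb_w2 hw
  refine nb_add hr hp hw he'.2 hf'.2 hwe hwf hef h ?_
  by_contra hcon
  -- the separation of `p`
  have hA : insert w X ⊆ gs p := Finset.insert_subset hw (hX.trans (Finset.erase_subset _ _))
  have hA2 : 2 ≤ (insert w X).card := by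
    have h4 : ({e, f} : Finset E) ⊆ insert w X := by
      intro y hy
      rw [Finset.mem_insert, Finset.mem_singleton] at hy
      rcases hy with rfl | rfl
      · exact Finset.mem_insert_of_mem he
      · exact Finset.mem_insert_of_mem hf
    have h5 := Finset.card_le_card h4
    rw [Finset.card_pair hef] at h5
    exact h5
  have hB2 : 2 ≤ (gs p \ insert w X).card := by
    have e1 : gs p \ insert w X = (gs p).erase w \ X := by
      ext y
      simp only [Finset.mem_sdiff, Finset.mem_insert, Finset.mem_erase]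
      tauto
    rw [e1]
    exact hY
  have hth := h3 (insert w X) hA hA2 hB2
  have eU : p.1 ∪ insert w X = insert w (p.1 ∪ X) := Finset.union_insert _ _ _
  have eS : p.2 \ insert w X = p.2.erase w \ X := by
    ext y
    simp only [Finset.mem_sdiff, Finset.mem_insert, Finset.mem_erase]
    tauto
  have hth' : 2 ≤ r (insert w (p.1 ∪ X)) + r (p.2.erase w \ X) - r p.2 - r p.1 := by
    rw [← eU, ← eS]
    exact hth
  cases s
  · -- `w` contracted, `e`, `f` deleted
    have hl' : r (insert w p.1 ∪ X) + r (p.2 \ X) - r p.2 - r (insert w p.1) ≤ 1 := hl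
    have hcon' : ¬ 1 ≤ QUB.lam r ((p.1, (p.2.erase f).erase e) : Itv E) {w} := hcon
    rw [nb_lam1] at hcon'
    have e1 := th3_con1 hr hp h3 hn hw
    have e2 : insert w p.1 ∪ X = insert w (p.1 ∪ X) := Finset.insert_union _ _ _
    rw [e2] at hl'
    have hsub : p.2.erase w \ X ⊆ ((p.2.erase f).erase e).erase w := by
      intro y hy
      simp only [Finset.mem_sdiff, Finset.mem_erase] at hy ⊢
      refine ⟨hy.1.1, ?_, ?_, hy.1.2⟩
      · rintro rfl
        exact hy.2 he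
      · rintro rfl
        exact hy.2 hf
    have h5 := marg hr hsub w
    have e3 : insert w (((p.2.erase f).erase e).erase w) = (p.2.erase f).erase e :=
      Finset.insert_erase (Finset.mem_erase.2 ⟨hwe, Finset.mem_erase.2 ⟨hwf, hww.1⟩⟩)
    have e4 : insert w (p.2.erase w \ X) = p.2 \ X := by
      ext y
      simp only [Finset.mem_insert, Finset.mem_sdiff, Finset.mem_erase]
      constructor
      · rintro (rfl | ⟨⟨_, h6⟩, h7⟩)
        · exact ⟨hww.1, hwX⟩
        · exact ⟨h6, h7⟩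
      · rintro ⟨h6, h7⟩
        by_cases h8 : y = w
        · exact Or.inl h8
        · exact Or.inr ⟨⟨h8, h6⟩, h7⟩
    rw [e3, e4] at h5
    have h6 : r (insert w p.1) + r (((p.2.erase f).erase e).erase w) - r ((p.2.erase f).erase e) - r p.1 ≤ 0 := by
      linarith [not_le.1 hcon', Int.lt_iff_add_one_le.1 (not_le.1 hcon')]
    linarith
  · -- `w` deleted, `e`, `f` contracted
    have hl' : r (p.1 ∪ X) + r (p.2.erase w \ X) - r (p.2.erase w) - r p.1 ≤ 1 := hl
    have hcon' : ¬ 1 ≤ QUB.lam r ((insert e (insert f p.1), p.2) : Itv E) {w} := hcon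
    rw [nb_lam1] at hcon'
    have e1 := th3_del1 hr hp h3 hn hw
    have hsub : insert e (insert f p.1) ⊆ p.1 ∪ X := by
      intro y hy
      rw [Finset.mem_insert, Finset.mem_insert] at hy
      rcases hy with rfl | rfl | hy
      · exact Finset.mem_union_right _ he
      · exact Finset.mem_union_right _ hf
      · exact Finset.mem_union_left _ hy
    have h5 := marg hr hsub w
    have h6 : r (insert w (insert e (insert f p.1))) + r (p.2.erase w) - r p.2 - r (insert e (insert f p.1)) ≤ 0 := by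
      linarith [Int.lt_iff_add_one_le.1 (not_le.1 hcon')]
    linarith

theorem nb_same (hr : Rk r) (hp : p.1 ⊆ p.2) (h3 : Th3 r p) (hn : 4 ≤ (gs p).card) {w e f : E} {s : Bool} (hw : w ∈ gs p) (he : e ∈ gs p)
    (hf : f ∈ gs p) (hwe : w ≠ e) (hwf : w ≠ f) (hef : e ≠ f) (h2 : 2 ≤ QUB.lam r (QUB.rm s w p) {e, f})
    (h : Cn r (QUB.rm s e (QUB.rm s f (QUB.rm s w p)))) : Cn r (QUB.rm s e (QUB.rm s f p)) := by
  refine nb_add hr hp hw he hf hwe hwf hef h ?_
  cases s
  · have h4 : 2 ≤ QUB.lam r ((insert w p.1, p.2) : Itv E) {e, f} := h2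
    show 1 ≤ QUB.lam r ((insert e (insert f p.1), p.2) : Itv E) {w}
    rw [nb_lam2] at h4
    rw [nb_lam1]
    have e1 := th3_con1 hr hp h3 hn hw
    have e2 := th3_del2 hr hp h3 hn hf he (Ne.symm hef)
    have e3 := th3_con2 hr hp h3 hn he hf hef
    have e4 := th3_del1 hr hp h3 hn hw
    have e5 : insert e (insert f (insert w p.1)) = insert w (insert e (insert f p.1)) := by
      rw [Finset.insert_comm f w, Finset.insert_comm e w]
    rw [e5] at h4
    linarith
  · have h4 : 2 ≤ QUB.lam r ((p.1, p.2.erase w) : Itv E) {e, f} := h2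
    show 1 ≤ QUB.lam r ((p.1, (p.2.erase f).erase e) : Itv E) {w}
    rw [nb_lam2] at h4
    rw [nb_lam1]
    have e1 := th3_con1 hr hp h3 hn hw
    have e2 := th3_del2 hr hp h3 hn hf he (Ne.symm hef)
    have e3 := th3_con2 hr hp h3 hn he hf hef
    have e4 := th3_del1 hr hp h3 hn hw
    have e5 : ((p.2.erase w).erase f).erase e = ((p.2.erase f).erase e).erase w := by
      rw [Finset.erase_right_comm (a := w) (b := f), Finset.erase_right_comm (a := w) (b := e)]
    rw [e5] at h4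
    linarith

theorem nb_line {P : Itv E} (hr : Rk r) (hP : P.1 ⊆ P.2) {X : Finset E} (hX : X ⊆ gs P) (hl : QUB.lam r P X ≤ 1) (hY : Hv r P (gs P \ X))
    (hX3 : 3 ≤ X.card) {e f : E} (he : e ∈ X) (hf : f ∈ X) (hef : e ≠ f) {t u : Bool} (c1 : Cn r (QUB.rm t e P))
    (c2 : Cn r (QUB.rm u f (QUB.rm t e P))) : HasLn r (QUB.rm u f (QUB.rm t e P)) := by
  have heP : e ∈ gs P := hX he
  have hfP : f ∈ gs P := hX hf
  obtain ⟨Y, hYd⟩ : ∃ Y, Y = gs P \ X := ⟨_, rfl⟩
  rw [← hYd] at hY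
  have hYs : ∀ y ∈ Y, y ∈ gs P ∧ y ∉ X := fun y hy => by
    rw [hYd] at hy
    exact Finset.mem_sdiff.1 hy
  have hYX : ∀ x ∈ X, x ∉ Y := fun x hx h => (hYs x h).2 hx
  have hY1 : Y ⊆ (gs P).erase e := by
    intro y hy
    refine Finset.mem_erase.2 ⟨?_, (hYs y hy).1⟩
    rintro rfl
    exact (hYs _ hy).2 he
  have hYn : Y.Nonempty := by
    have h4 := hY.card
    exact Finset.card_pos.1 (by omega)
  have hYl : QUB.lam r P Y ≤ 1 := by
    rw [hYd, lam_compl r hP hX]
    exact hl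
  have hYl1 : QUB.lam r (QUB.rm t e P) Y ≤ 1 := (lam_rm_le hr heP hY1).trans hYl
  have hfP1 : f ∈ gs (QUB.rm t e P) := by
    rw [QUB.gs_rm]
    exact Finset.mem_erase.2 ⟨Ne.symm hef, hfP⟩
  have hY2 : Y ⊆ gs (QUB.rm t e P) := by
    rw [QUB.gs_rm]
    exact hY1
  have h1 : 1 ≤ QUB.lam r (QUB.rm t e P) Y :=
    c1 Y hY2 hYn ⟨f, Finset.mem_sdiff.2 ⟨hfP1, hYX f hf⟩⟩
  have hv1 : Hv r (QUB.rm t e P) Y := hv_keep hr hP hY1 heP hYl h1 hY
  have hY3 : Y ⊆ (gs (QUB.rm t e P)).erase f := by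
    intro y hy
    refine Finset.mem_erase.2 ⟨?_, hY2 hy⟩
    rintro rfl
    exact (hYs _ hy).2 hf
  have hY4 : Y ⊆ gs (QUB.rm u f (QUB.rm t e P)) := by
    rw [QUB.gs_rm]
    exact hY3
  obtain ⟨g, hg, hge, hgf⟩ : ∃ g ∈ X, g ≠ e ∧ g ≠ f := by
    have h4 : 1 ≤ ((X.erase e).erase f).card := by
      rw [Finset.card_erase_of_mem (Finset.mem_erase.2 ⟨Ne.symm hef, hf⟩), Finset.card_erase_of_mem he]
      omega
    obtain ⟨g, hg⟩ := Finset.card_pos.1 h4
    have h5 := Finset.mem_erase.1 hg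
    have h6 := Finset.mem_erase.1 h5.2
    exact ⟨g, h6.2, h6.1, h5.1⟩
  have hg1 : g ∈ gs (QUB.rm u f (QUB.rm t e P)) := by
    rw [QUB.gs_rm, QUB.gs_rm]
    exact Finset.mem_erase.2 ⟨hgf, Finset.mem_erase.2 ⟨hge, hX hg⟩⟩
  have h2 : 1 ≤ QUB.lam r (QUB.rm u f (QUB.rm t e P)) Y :=
    c2 Y hY4 hYn ⟨g, Finset.mem_sdiff.2 ⟨hg1, hYX g hg⟩⟩
  obtain ⟨N, hN, _⟩ := hv_keep hr (QUB.wf_rm hP heP) hY3 hfP1 hYl1 h2 hv1
  exact ⟨N, hN⟩

end Pool.Agent.QU
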